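import Pool.Agent.Lib.MP_fe8cb7_co.h77.StZ

/-!
# Daykin-Haggkvist problem: piece Z12 (approximate decomposition, `c ≤ 1/4`)
-/

open Finset

namespace DH

theorem p_Z12 : S_Z12 := by
  intro c C0 hC0 hc hFrac hNib hReb η hη γ hγ
  set ζ : ℝ := min (min (γ / 400) (η / 200)) (1 / 1000) with hζ
  have hζ0 : 0 < ζ := lt_min (lt_min (by linarith) (by linarith)) (by norm_num)
  have hζ1 : ζ ≤ 1 / 1000 := min_le_right _ _
  have hζ2 : ζ ≤ γ / 400 := (min_le_left _ _).trans (min_le_left _ _)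
  have hζ3 : ζ ≤ η / 200 := (min_le_left _ _).trans (min_le_right _ _)
  refine ⟨ζ, hζ0, ?_⟩
  intro γ2 hγ2
  set γ' : ℝ := min (γ / 2) γ2 with hγ'
  have hγ'0 : 0 < γ' := lt_min (by linarith) hγ2
  have hγ'1 : γ' ≤ γ / 2 := min_le_left _ _
  have hγ'2 : γ' ≤ γ2 := min_le_right _ _
  obtain ⟨N1, hN1⟩ := hNib C0 hC0 γ' hγ'0
  obtain ⟨N2, hN2⟩ := hFrac
  refine ⟨max (max 1000 N1) N2, ?_⟩
  intro V _ _ π G Y N ζ0 hN hE hT hdeg himb hY hYc
  have hN1000 : 1000 ≤ N := (le_max_left _ _).trans ((le_max_left _ _).trans hN)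
  have hNN1 : N1 ≤ N := (le_max_right _ _).trans ((le_max_left _ _).trans hN)
  have hNN2 : N2 ≤ N := (le_max_right _ _).trans hN
  have hNpos : (0 : ℝ) < N := by
    have : 0 < N := by omega
    exact_mod_cast this
  obtain ⟨F, hFG, hbal, hF1, hF2⟩ := hReb V π G Y N ζ hζ0.le hζ1 hN1000 hE hT
    (fun v i hi => le_trans (mul_le_mul_of_nonneg_right (by linarith) hNpos.le) (hdeg v i hi))
    himb hYc
  have hG1 : G \ F ≤ G := sdiff_le
  have hT1 : Tri π (G \ F) := Tri.mono hG1 hT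
  have hFle : ∀ (v : V) (i : ZMod 3), (dg F v (pt π univ i) : ℝ) ≤ dg F v univ := by
    intro v i
    exact_mod_cast dg_mono_set (G := F) (subset_univ (pt π univ i)) v
  have hdeg1 : ∀ v : V, ∀ i : ZMod 3, i ≠ π v → (1 - c) * N ≤ dg (G \ F) v (pt π univ i) := by
    intro v i hi
    have h1 := dg_sdiff hFG v (S := pt π univ i)
    have h2 : (dg (G \ F) v (pt π univ i) : ℝ) + dg F v (pt π univ i) = dg G v (pt π univ i) := by
      exact_mod_cast h1
    have h3 := hdeg v i hi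
    have h4 := (hFle v i).trans (hF1 v)
    have h5 : 100 * ζ * N ≤ (η / 2) * N := mul_le_mul_of_nonneg_right (by linarith) hNpos.le
    have h6 : 0 ≤ (η / 2) * N := by positivity
    have h7 : (1 - c + η) * N = (1 - c) * N + (η / 2) * N + (η / 2) * N := by ring
    linarith
  obtain ⟨W, hW0, hW1, hW2⟩ := hN2 V π (G \ F) N hNN2 hE hT1 hbal hdeg1
  obtain ⟨T, hTp, hTl⟩ := hN1 V π (G \ F) W N hNN1 hE hT1 hW0 hW1 hW2
  have hle : G \ cov T ≤ ((G \ F) \ cov T) ⊔ F := by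
    intro u v huv
    rw [SimpleGraph.sdiff_adj] at huv
    rw [SimpleGraph.sup_adj, SimpleGraph.sdiff_adj, SimpleGraph.sdiff_adj]
    by_cases h : F.Adj u v
    · exact Or.inr h
    · exact Or.inl ⟨⟨huv.1, h⟩, huv.2⟩
  have hkey : ∀ (v : V) (i : ZMod 3), (dg (G \ cov T) v (pt π univ i) : ℝ) ≤
      γ' * N + dg F v univ := by
    intro v i
    have h1 : dg (G \ cov T) v (pt π univ i) ≤
        dg ((G \ F) \ cov T) v (pt π univ i) + dg F v (pt π univ i) :=
      (dg_mono hle v).trans (dg_sup_le v)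
    have h2 : (dg (G \ cov T) v (pt π univ i) : ℝ) ≤
        dg ((G \ F) \ cov T) v (pt π univ i) + dg F v (pt π univ i) := by exact_mod_cast h1
    have h3 := hTl v i
    have h4 := hFle v i
    linarith
  refine ⟨T, hTp.mono hG1, fun v i => ?_, fun v hv i => ?_⟩
  · have h1 := hkey v i
    have h2 := hF1 v
    have h3 : 100 * ζ * N ≤ (γ / 4) * N := mul_le_mul_of_nonneg_right (by linarith) hNpos.le
    have h4 : γ' * N ≤ (γ / 2) * N := mul_le_mul_of_nonneg_right hγ'1 hNpos.le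
    have h5 : 0 ≤ (γ / 4) * N := by positivity
    have h6 : γ * N = (γ / 2) * N + (γ / 4) * N + (γ / 4) * N := by ring
    linarith
  · have h1 := hkey v i
    have h2 := (hF2 v hv).trans (hY v hv)
    have h4 : γ' * N ≤ γ2 * N := mul_le_mul_of_nonneg_right hγ'2 hNpos.le
    have h6 : (ζ0 + γ2) * N = ζ0 * N + γ2 * N := by ring
    linarith

end DH
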