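import Pool.Agent.Lib.MP_fe8cb7_co.h77.Asm
import Pool.Agent.Lib.MP_fe8cb7_co.h77.P_Z6
import Pool.Agent.Lib.MP_fe8cb7_co.h77.P_Z8
import Pool.Agent.Lib.MP_fe8cb7_co.h77.P_Z12
import Pool.Agent.Lib.MP_fe8cb7_co.h30.P_Q1
import Pool.Agent.Lib.MP_fe8cb7_co.h30.P_Q2
import Pool.Agent.Lib.MP_fe8cb7_co.h30.P_Q3
import Pool.Agent.Lib.MP_fe8cb7_co.h30.P_Q4
import Pool.Agent.Lib.MP_fe8cb7_co.h30.P_Q5
import Pool.Agent.Lib.MP_fe8cb7_co.h30.P_Q6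
import Pool.Agent.Lib.MP_fe8cb7_co.h30.P_Q7

/-!
# Daykin-Haggkvist problem: assembly, from a fractional theorem for `c < 1/4`, and the bound `1/5`
-/

open Finset

namespace DH

/-- a fractional theorem with bounded weights for `c < 1/4` gives the threshold `c` -/
theorem mainG_of_fracB (c C0 : ℝ) (hC : 0 < C0) (hc : c < 1 / 4) (hF : FracB c C0) : MainG c :=
  p_Z7 p_Col p_V1 p_V2 p_M1 p_A0 p_X1 p_X2 p_X3 p_X4 p_X5 p_Z6 p_A6 p_A7 c hc.le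
    (p_Z8 p_Col p_Cells p_C1 p_C2 p_C3 p_C4 p_Hall p_C5 p_C6 c hc
      (p_AD2 c (p_Z12 c C0 hC hc.le hF nib_holds reb2_holds)))

theorem admissible_of_fracB (c C0 : ℝ) (hC : 0 < C0) (hc : c < 1 / 4) (hF : FracB c C0) (α : ℝ)
    (hα : α < c) : Admissible α :=
  p_M4 c (mainG_of_fracB c C0 hC hc hF) α hα

theorem fracA_fifth : FracA (1 / 5) 20 := p_Q6 p_Q1 p_Q2 p_Q3 p_Q4 p_Q5

theorem fracB_fifth : FracB (1 / 5) 20 := p_Q7 (1 / 5) 20 (by norm_num) fracA_fifth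

theorem admissible_one_fifth (α : ℝ) (hα : α < 1 / 5) : Admissible α :=
  admissible_of_fracB (1 / 5) 20 (by norm_num) (by norm_num) fracB_fifth α hα

end DH
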