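import Pool.Agent.Lib.MP_fe8cb7_co.h77.StX

/-!
# Daykin-Haggkvist problem: everything outside of the fractional theorem, for every `c < 1/4`

Owner helper77. `P_X6`, ... mean the files in `h77` (`p_X6` is in `P_X5.lean`), `P_AD1` the file in `h25`; their Lean code
may be copied and adapted freely.
-/

open Finset

namespace DH

/-- fractional theorem with minimum degree `(1 - c) N` and weights at most `C0 / N`, for large `N` -/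
def FracB (c C0 : ℝ) : Prop :=
  ∃ N0 : ℕ, ∀ (V : Type) [Fintype V] [DecidableEq V] (π : V → ZMod 3) (G : SimpleGraph V) (N : ℕ),
    N0 ≤ N → Eq3 π univ N → Tri π G → Bal π G univ →
    (∀ v : V, ∀ i : ZMod 3, i ≠ π v → (1 - c) * N ≤ dg G v (pt π univ i)) →
    ∃ W : Finset V → ℝ, (∀ t, 0 ≤ W t) ∧ (∀ t, W t ≤ C0 / N) ∧
      ∀ x y : V, G.Adj x y → ∑ z ∈ cn G x y, W {x, y, z} = 1

/-- `CD` with arbitrarily large `K` -/
def CDz (c : ℝ) : Prop :=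
  ∀ (K0 : ℕ) (η : ℝ), 0 < η → ∃ K : ℕ, 8 ≤ K ∧ K0 ≤ K ∧ ∃ γ0 γ1 : ℝ, 0 < γ0 ∧ γ0 < γ1 ∧ γ1 ≤ η ∧
    ∃ N0 : ℕ, ∀ (V : Type) [Fintype V] [DecidableEq V] (π : V → ZMod 3) (G : SimpleGraph V)
      (U U1 U2 : Finset V) (N N1 N2 : ℕ),
      (N2 = 0 → N0 ≤ N1) → (N2 ≠ 0 → N0 ≤ N2) →
      CDHyp π G U U1 U2 N N1 N2 K c η γ0 γ1 →
      ∃ T : Finset (Finset V), CDCon π G U1 U2 N1 N2 η γ0 γ1 T

/-- [Z6] common neighbours of four vertices, `α < 1/4`.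
PROOF. `p_X6` in `P_X5.lean`: each `x ∈ X` has at most `α n` non-neighbours in part `i`; `4 α n + n/K + M ≤ n` for large `n`, since
`n/K ≤ (1 - 4 α) n / 2` and `M ≤ (1 - 4 α) n / 2` (`α < 0` is also fine: then bound `4 α n` by `0` and use `K ≥ 2`). -/
def S_Z6 : Prop := ∀ (α : ℝ) (K M : ℕ), α < 1 / 4 → 8 ≤ K → 2 ≤ (1 - 4 * α) * K → ∃ n0 : ℕ,
    ∀ (V : Type) [Fintype V] [DecidableEq V] (π : V → ZMod 3) (G : SimpleGraph V) (U1 : Finset V)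
      (n : ℕ), n0 ≤ n → Eq3 π univ n → Eq3 π U1 (n / K) →
    (∀ v : V, ∀ i : ZMod 3, i ≠ π v → (1 - α) * n ≤ dg G v (pt π univ i)) → Four π G U1 M

/-- [Z7] assembly of the theorem on graphs, `c ≤ 1/4`.
PROOF. `P_X7.lean` (`p_X7 : S_X7`) with [Z6] instead of [X6] and `CDz`, `K0 = ⌈2 / (1 - 4 α)⌉₊` instead of `CD`. -/
def S_Z7 : Prop := S_Col → S_V1 → S_V2 → S_M1 → S_A0 → S_X1 → S_X2 → S_X3 → S_X4 → S_X5 → S_Z6 →
    S_A6 → S_A7 → ∀ c : ℝ, c ≤ 1 / 4 → CDz c → MainG c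

/-- [Z8] choice of the parameters in the cover-down lemma, `c < 1/4`.
PROOF. `P_X8.lean` (`p_X8 : S_X8`). Let `g = 1/2 - 2 c > 0` if `c ≥ 0` (in general `g = min 1 (1/2 - 2 c)`), so `1 - 2 c ≥ 1/2 + g`. Replace `e` by
`e = min (min 1 η) g`, take also `K ≥ K0`, `K ≥ 200 / e`, `q ≥ 200 K / e`, `γ = e^2 / (10^5 K q^2)`, `γ0 = γ1 e / (10^5 K q)`, `δ` as before, `L = ⌊e N1 / q / 20⌋₊`
(so `L ≥ 1` for `N1/q ≥ 40/e`). With `Y = N1/q`, `u = N1/q^2` all the small terms in (n5) are at most `e Y / 10` each: `6 a`, `r E`, `2 n / r^2 ≤ 4 K Y / r`, `L`,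
`N2 / q ≤ Y / K`; `(1-2c) N1 - N2 ≥ (1/2 + g) N1 - N1/K`, so the right side of (n5) is at least `2 ((1/2 + g) Y - ...) ≥ Y + 2 e Y - ...`. (n4): the left side is
`6 a + L + 6 N1 a / L + 6 N2 a2 / L2 + 2`, where `6 N1 a / L ≤ 240 q a / e ≤ e Y`-small by the choice of `γ`, `γ0`; the right side is `≥ Y/2`. -/
def S_Z8 : Prop := S_Col → S_Cells → S_C1 → S_C2 → S_C3 → S_C4 → S_Hall → S_C5 → S_C6 →
    ∀ c : ℝ, c < 1 / 4 → ADU c → CDz c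

/-- [Z12] approximate decomposition.
PROOF. `P_AD1.lean` (`p_AD1 : S_AD1`) or `P_X12.lean` without the greedy filling: `Reb2` applies since `1 - c + η ≥ 0.75`; `N0` large enough also for `FracB`. -/
def S_Z12 : Prop := ∀ c C0 : ℝ, 0 < C0 → c ≤ 1 / 4 → FracB c C0 → Nib → Reb2 → AD c

end DH
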