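import Pool.Agent.Lib.MP_fe8cb7_co.h77.StX
import Pool.Agent.Lib.MP_fe8cb7_co.h25.P_A3

set_option autoImplicit false

/-! [X1] embedding a pinched closed walk (greedy). -/

open Finset

namespace DH

/-- the predecessor in the walk -/
private def X1_pr (n : ℕ) : ℕ := if n = 4 then 0 else n - 1

/-- the second neighbour in the walk -/
private def X1_pr2 (l n : ℕ) : ℕ := if n = 2 ∨ n = 3 * l - 1 then 0 else X1_pr n

/-- the neighbours required for the `n`-th new vertex -/
private def X1_X {V : Type} [DecidableEq V] (l : ℕ) (v : ZMod (3 * l) → V) (n : ℕ) (f : ℕ → V) :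
    Finset V :=
  if n = 0 then {v 0, v 1, v 3, v 4} else if n = 3 then ∅ else
    {v (n : ZMod (3 * l)), v ((n : ZMod (3 * l)) + 1), f (X1_pr n), f (X1_pr2 l n)}

private theorem X1_X_card {V : Type} [DecidableEq V] (l : ℕ) (v : ZMod (3 * l) → V) (n : ℕ)
    (f : ℕ → V) : (X1_X l v n f).card ≤ 4 := by
  unfold X1_X
  split_ifs
  · exact card_le_four
  · simp
  · exact card_le_four

private theorem X1_pr_lt (n : ℕ) (h : n ≠ 0) : X1_pr n < n := by
  unfold X1_pr
  split_ifs <;> omega

private theorem X1_pr2_lt (l n : ℕ) (h : n ≠ 0) : X1_pr2 l n < n := by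
  have := X1_pr_lt n h
  unfold X1_pr2
  split_ifs <;> omega

private theorem X1_X_congr {V : Type} [DecidableEq V] (l : ℕ) (v : ZMod (3 * l) → V) (n : ℕ)
    (f g : ℕ → V) (h : ∀ j < n, f j = g j) : X1_X l v n f = X1_X l v n g := by
  unfold X1_X
  by_cases h0 : n = 0
  · rw [if_pos h0, if_pos h0]
  · rw [if_neg h0, if_neg h0, h _ (X1_pr_lt n h0), h _ (X1_pr2_lt l n h0)]

private theorem X1_z1 : ∀ p q : ZMod 3, p ≠ p + q - 1 ∨ q = 1 := by decide

private theorem X1_z2 : ∀ p q : ZMod 3, p + q ≠ p + q - 1 := by decide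

private theorem X1_z3 : ∀ p q : ZMod 3, p + q + 1 ≠ p + q - 1 := by decide

private theorem X1_z4 : ∀ p q : ZMod 3, p + (q - 1) - 1 ≠ p + q - 1 := by decide

private theorem X1_X_part {V : Type} [DecidableEq V] (π : V → ZMod 3) (l : ℕ) (hl : 2 ≤ l)
    (v : ZMod (3 * l) → V) (hv : ∀ k, π (v (k + 1)) = π (v k) + 1) (n : ℕ) (hn : n < 3 * l)
    (f : ℕ → V) (hf : ∀ j < n, π (f j) = π (v 0) + (j : ZMod 3) - 1) :
    ∀ x ∈ X1_X l v n f, π x ≠ π (v 0) + (n : ZMod 3) - 1 := by
  intro x hx
  have hvp := A3_v_part π l v hv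
  unfold X1_X at hx
  by_cases h0 : n = 0
  · rw [if_pos h0] at hx
    subst h0
    have e1 : π (v 1) = π (v 0) + 1 := by
      have := hvp 1
      simpa using this
    have e3 : π (v 3) = π (v 0) := by
      have := hvp 3
      have h3 : ((3 : ℕ) : ZMod 3) = 0 := by decide
      rw [h3, add_zero] at this
      simpa using this
    have e4 : π (v 4) = π (v 0) + 1 := by
      have := hvp 4
      have h4 : ((4 : ℕ) : ZMod 3) = 1 := by decide
      rw [h4] at this
      simpa using this
    simp only [mem_insert, mem_singleton] at hx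
    have d1 : ∀ p : ZMod 3, p ≠ p + ((0 : ℕ) : ZMod 3) - 1 := by decide
    have d2 : ∀ p : ZMod 3, p + 1 ≠ p + ((0 : ℕ) : ZMod 3) - 1 := by decide
    rcases hx with h | h | h | h
    · rw [h]; exact d1 _
    · rw [h, e1]; exact d2 _
    · rw [h, e3]; exact d1 _
    · rw [h, e4]; exact d2 _
  · rw [if_neg h0] at hx
    by_cases h3 : n = 3
    · rw [if_pos h3] at hx
      simp at hx
    · rw [if_neg h3] at hx
      have hpred : π (f (n - 1)) ≠ π (v 0) + (n : ZMod 3) - 1 := by
        rw [hf (n - 1) (by omega)]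
        have hc : ((n - 1 : ℕ) : ZMod 3) = (n : ZMod 3) - 1 := by
          have : n = (n - 1) + 1 := by omega
          conv_rhs => rw [this]
          push_cast
          ring
        rw [hc]
        exact X1_z4 _ _
      have hzero : (n : ZMod 3) ≠ 0 → π (f 0) ≠ π (v 0) + (n : ZMod 3) - 1 := by
        intro hne
        rw [hf 0 (by omega)]
        have d : ∀ p q : ZMod 3, q ≠ 0 → p + ((0 : ℕ) : ZMod 3) - 1 ≠ p + q - 1 := by decide
        exact d _ _ hne
      have hpr : π (f (X1_pr n)) ≠ π (v 0) + (n : ZMod 3) - 1 := by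
        unfold X1_pr
        by_cases h4 : n = 4
        · rw [if_pos h4]
          apply hzero
          rw [h4]
          decide
        · rw [if_neg h4]
          exact hpred
      simp only [mem_insert, mem_singleton] at hx
      rcases hx with h | h | h | h
      · rw [h, hvp]; exact X1_z2 _ _
      · rw [h, hv, hvp]; exact X1_z3 _ _
      · rw [h]; exact hpr
      · rw [h]
        unfold X1_pr2
        by_cases h5 : n = 2 ∨ n = 3 * l - 1
        · rw [if_pos h5]
          apply hzero
          rcases h5 with h5 | h5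
          · rw [h5]
            decide
          · have h6 : (((n + 1 : ℕ)) : ZMod 3) = ((3 * l : ℕ) : ZMod 3) := by
              rw [show n + 1 = 3 * l by omega]
            push_cast at h6
            rw [A3_three, zero_mul] at h6
            intro h7
            rw [h7, zero_add] at h6
            exact absurd h6 (by decide)
        · rw [if_neg h5]
          exact hpr

theorem p_X1 : S_X1 := by
  intro hA0 V _ _ π G U1 Fb l M v hl hvU hv hFour hM
  haveI : NeZero (3 * l) := ⟨by omega⟩
  haveI : Nonempty V := ⟨v 0⟩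
  let P : ℕ → (ℕ → V) → V → Prop := fun n f x =>
    π x = π (v 0) + (n : ZMod 3) - 1 ∧ x ∉ U1 ∧ x ∉ Fb ∧ (∀ j < n, f j ≠ x) ∧
      ∀ y ∈ X1_X l v n f, G.Adj y x
  obtain ⟨f, hf⟩ := hA0 V (3 * l) P inferInstance
    (by
      intro k f g x h
      have e : X1_X l v k f = X1_X l v k g := X1_X_congr l v k f g h
      have e2 : (∀ j < k, f j ≠ x) ↔ (∀ j < k, g j ≠ x) := by
        constructor
        · intro h1 j hj; rw [← h j hj]; exact h1 j hj
        · intro h1 j hj; rw [h j hj]; exact h1 j hj
      show (π x = π (v 0) + (k : ZMod 3) - 1 ∧ x ∉ U1 ∧ x ∉ Fb ∧ (∀ j < k, f j ≠ x) ∧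
        ∀ y ∈ X1_X l v k f, G.Adj y x) ↔ (π x = π (v 0) + (k : ZMod 3) - 1 ∧ x ∉ U1 ∧ x ∉ Fb ∧
        (∀ j < k, g j ≠ x) ∧ ∀ y ∈ X1_X l v k g, G.Adj y x)
      rw [e, e2])
    (by
      intro n hn f hfn
      have hpart : ∀ x ∈ X1_X l v n f, π x ≠ π (v 0) + (n : ZMod 3) - 1 :=
        X1_X_part π l hl v hv n hn f (fun j hj => (hfn j hj).1)
      obtain ⟨Y, hY, hYp⟩ := hFour (X1_X l v n f) (π (v 0) + (n : ZMod 3) - 1)
        (X1_X_card l v n f) hpart
      have hc : (Fb ∪ (Finset.range n).image f).card < Y.card := by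
        have h1 := Finset.card_union_le Fb ((Finset.range n).image f)
        have h2 : ((Finset.range n).image f).card ≤ n := by
          simpa using Finset.card_image_le (s := Finset.range n) (f := f)
        omega
      obtain ⟨x, hxY, hx⟩ := Finset.exists_mem_notMem_of_card_lt_card hc
      obtain ⟨hx1, hx2, hx3⟩ := hYp x hxY
      refine ⟨x, hx1, hx2, fun h => hx (Finset.mem_union_left _ h), ?_, hx3⟩
      intro j hj hjx
      apply hx
      apply Finset.mem_union_right
      rw [Finset.mem_image]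
      exact ⟨j, Finset.mem_range.2 hj, hjx⟩)
  have hP1 : ∀ n < 3 * l, f n ∉ U1 ∧ f n ∉ Fb := fun n hn => ⟨(hf n hn).2.1, (hf n hn).2.2.1⟩
  have hinj : ∀ i < 3 * l, ∀ j < 3 * l, f i = f j → i = j := by
    intro i hi j hj hij
    by_contra hne
    rcases lt_or_gt_of_ne hne with h | h
    · exact (hf j hj).2.2.2.1 i h hij
    · exact (hf i hi).2.2.2.1 j h hij.symm
  have hadj : ∀ n < 3 * l, ∀ y ∈ X1_X l v n f, G.Adj y (f n) := fun n hn => (hf n hn).2.2.2.2
  have hkv : ∀ k : ZMod (3 * l), k.val < 3 * l := fun k => ZMod.val_lt k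
  have hcast : ∀ k : ZMod (3 * l), ((k.val : ℕ) : ZMod (3 * l)) = k := fun k =>
    ZMod.natCast_zmod_val k
  have hv0 : ∀ k : ZMod (3 * l), k.val = 0 → k = 0 := fun k h => by
    rw [← hcast k, h, Nat.cast_zero]
  have hv3 : ∀ k : ZMod (3 * l), k.val = 3 → k = 3 := fun k h => by
    rw [← hcast k, h]
    norm_cast
  have h0v : (0 : ZMod (3 * l)).val = 0 := ZMod.val_zero
  have h3v : (3 : ZMod (3 * l)).val = 3 := by
    have := A3_val_cast l 3 (by omega)
    simpa using this
  -- the adjacencies
  have a0 : G.Adj (v 0) (f 0) ∧ G.Adj (v 1) (f 0) ∧ G.Adj (v 3) (f 0) ∧ G.Adj (v 4) (f 0) := by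
    have h := hadj 0 (by omega)
    unfold X1_X at h
    rw [if_pos rfl] at h
    refine ⟨h _ ?_, h _ ?_, h _ ?_, h _ ?_⟩ <;> simp
  have a1 : ∀ n < 3 * l, n ≠ 0 → n ≠ 3 → G.Adj (v (n : ZMod (3 * l))) (f n) ∧
      G.Adj (v ((n : ZMod (3 * l)) + 1)) (f n) ∧ G.Adj (f (X1_pr n)) (f n) ∧
      G.Adj (f (X1_pr2 l n)) (f n) := by
    intro n hn h0 h3
    have h := hadj n hn
    unfold X1_X at h
    rw [if_neg h0, if_neg h3] at h
    refine ⟨h _ ?_, h _ ?_, h _ ?_, h _ ?_⟩ <;> simp
  let z : ZMod (3 * l) → V := fun k => f (if k.val = 3 then 0 else k.val)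
  have hzn : ∀ k : ZMod (3 * l), k.val ≠ 3 → z k = f k.val := fun k hk => by
    show f _ = _
    rw [if_neg hk]
  have hz3 : ∀ k : ZMod (3 * l), k.val = 3 → z k = f 0 := fun k hk => by
    show f _ = _
    rw [if_pos hk]
  have hidx : ∀ k : ZMod (3 * l), (if k.val = 3 then 0 else k.val) < 3 * l := by
    intro k
    have := hkv k
    split_ifs <;> omega
  refine ⟨z, ⟨?_, ?_⟩, ?_, ?_, ?_, ?_, ?_⟩
  · rw [hz3 3 h3v, hzn 0 (by rw [h0v]; omega), h0v]
  · intro k j hkj
    have h1 := hinj _ (hidx k) _ (hidx j) hkj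
    by_cases hk : k.val = 3
    · by_cases hj : j.val = 3
      · left
        rw [hv3 k hk, hv3 j hj]
      · rw [if_pos hk, if_neg hj] at h1
        right; right
        exact ⟨hv3 k hk, hv0 j h1.symm⟩
    · by_cases hj : j.val = 3
      · rw [if_neg hk, if_pos hj] at h1
        right; left
        exact ⟨hv0 k h1, hv3 j hj⟩
      · rw [if_neg hk, if_neg hj] at h1
        left
        exact ZMod.val_injective _ h1
  · intro k hk
    have h1 := hP1 _ (hidx k)
    rcases mem_union.1 hk with h | h
    · exact h1.1 h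
    · exact h1.2 h
  · intro k
    have hvk : π (v k) = π (v 0) + (k.val : ZMod 3) := by
      have := A3_v_part π l v hv k.val
      rwa [hcast k] at this
    by_cases hk : k.val = 3
    · rw [hz3 k hk, (hf 0 (by omega)).1, hvk, hk]
      have d : ∀ p : ZMod 3, p + ((0 : ℕ) : ZMod 3) - 1 = p + ((3 : ℕ) : ZMod 3) - 1 := by decide
      exact d _
    · rw [hzn k hk, (hf k.val (hkv k)).1, hvk]
  · intro k
    by_cases hk : k.val = 3
    · rw [hz3 k hk, hv3 k hk]
      exact a0.2.2.1
    · rw [hzn k hk]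
      by_cases h0 : k.val = 0
      · rw [h0, hv0 k h0]
        exact a0.1
      · have := (a1 k.val (hkv k) h0 hk).1
        rwa [hcast k] at this
  · have key : ∀ k : ZMod (3 * l), G.Adj (v (k + 1)) (z k) := by
      intro k
      by_cases hk : k.val = 3
      · rw [hz3 k hk, hv3 k hk]
        have h4 : (3 : ZMod (3 * l)) + 1 = 4 := by norm_num
        rw [h4]
        exact a0.2.2.2
      · rw [hzn k hk]
        by_cases h0 : k.val = 0
        · rw [h0, hv0 k h0, zero_add]
          exact a0.2.1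
        · have := (a1 k.val (hkv k) h0 hk).2.1
          rwa [hcast k] at this
    intro k
    have := key (k - 1)
    rwa [sub_add_cancel] at this
  · intro k
    have h1 := hkv k
    have h2 := A3_val_add_one l (by omega) k
    by_cases h5 : k.val + 1 < 3 * l
    · rw [Nat.mod_eq_of_lt h5] at h2
      by_cases k2 : k.val = 2
      · rw [hz3 (k + 1) (by omega), hzn k (by omega), k2]
        have := (a1 2 (by omega) (by omega) (by omega)).2.2.2
        unfold X1_pr2 at this
        rw [if_pos (Or.inl rfl)] at this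
        exact this.symm
      by_cases k3 : k.val = 3
      · rw [hz3 k k3, hzn (k + 1) (by omega), h2, k3]
        have := (a1 4 (by omega) (by omega) (by omega)).2.2.1
        unfold X1_pr at this
        rw [if_pos rfl] at this
        exact this
      rw [hzn k k3, hzn (k + 1) (by omega), h2]
      have := (a1 (k.val + 1) (by omega) (by omega) (by omega)).2.2.1
      unfold X1_pr at this
      rw [if_neg (by omega), Nat.add_sub_cancel] at this
      exact this
    · have h6 : k.val = 3 * l - 1 := by omega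
      have h7 : (k + 1).val = 0 := by
        rw [h2, show k.val + 1 = 3 * l by omega, Nat.mod_self]
      rw [hzn k (by omega), hzn (k + 1) (by omega), h7]
      have := (a1 k.val (by omega) (by omega) (by omega)).2.2.2
      unfold X1_pr2 at this
      rw [if_pos (Or.inr h6)] at this
      exact this.symm

end DH
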