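import Pool.Agent.Lib.MP_fe8cb7_co.h77.StX

/-!
# Piece X11: greedy filling
-/

open Finset

namespace DH

namespace X11

/-- the arithmetic of the last step -/
theorem num (k δ x y y' E q : ℤ) (hx : x + y = q) (hx0 : 0 ≤ x) (hy0 : 0 ≤ y)
    (hxk : x ≤ k - δ) (hE : E ≤ δ) (hE0 : 0 ≤ E) (hδ : 0 ≤ δ) (hy' : q - (k - δ) ≤ y')
    (h : y = 0 ∨ E + y' ≤ k) : 2 * (x * δ + y * E) ≤ k ^ 2 := by
  have h1 : 4 * ((k - δ) * δ) ≤ k ^ 2 := by nlinarith [sq_nonneg (k - 2 * δ)]
  have h2 : x * δ ≤ (k - δ) * δ := mul_le_mul_of_nonneg_right hxk hδ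
  rcases h with h | h
  · subst h
    nlinarith [sq_nonneg k]
  · have h3 : E ≤ 2 * k - δ - q := by linarith
    have h4 : 0 ≤ (k - δ - x) * (δ - E) := mul_nonneg (by linarith) (by linarith)
    have h5 : x * δ + y * E ≤ (k - δ) * δ + (q - k + δ) * E := by
      have : y = q - x := by linarith
      subst this
      nlinarith
    by_cases h6 : q - k + δ ≤ 0
    · have : (q - k + δ) * E ≤ 0 := mul_nonpos_of_nonpos_of_nonneg h6 hE0
      nlinarith [sq_nonneg k]
    · push Not at h6
      have h7 : (q - k + δ) * E ≤ (q - k + δ) * (2 * k - δ - q) := mul_le_mul_of_nonneg_left h3 h6.le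
      have h8 : 4 * ((q - k + δ) * (2 * k - δ - q)) ≤ k ^ 2 := by
        nlinarith [sq_nonneg ((q - k + δ) - (2 * k - δ - q))]
      linarith

variable {V : Type} [Fintype V] [DecidableEq V] {π : V → ZMod 3} {H : SimpleGraph V}

/-- double counting of the edges between two consecutive parts -/
theorem dbl (i j : ZMod 3) : ∑ v ∈ pt π univ i, dg H v (pt π univ j) =
    ∑ v ∈ pt π univ j, dg H v (pt π univ i) := by
  classical
  have h : ∀ a b : ZMod 3, ∑ v ∈ pt π univ a, dg H v (pt π univ b) =
      ∑ v ∈ pt π univ a, ∑ w ∈ pt π univ b, if H.Adj v w then 1 else 0 := by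
    intro a b
    refine sum_congr rfl fun v _ => ?_
    rw [dg, ← card_filter]
    congr 1
  rw [h, h, sum_comm]
  refine sum_congr rfl fun v _ => sum_congr rfl fun w _ => ?_
  simp only [H.adj_comm]

/-- the degree of a vertex in the cover of one triangle -/
theorem dg_cov_single (hT : Tri π H) {t : Finset V} (ht : H.IsNClique 3 t) (v : V) (i : ZMod 3)
    (hi : i ≠ π v) : dg (cov {t}) v (pt π univ i) = if v ∈ t then 1 else 0 := by
  have hp : Pack H {t} := by
    refine ⟨fun s hs => ?_, fun s hs s' hs' hne => ?_⟩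
    · rw [mem_singleton] at hs
      exact hs ▸ ht
    · rw [mem_singleton] at hs hs'
      exact absurd (hs.trans hs'.symm) hne
  rw [hp.dg_eq hT v i hi]
  split_ifs with h
  · rw [card_eq_one]
    refine ⟨t, ?_⟩
    ext s
    simp only [mem_filter, mem_singleton]
    constructor
    · exact fun h => h.1
    · rintro rfl
      exact ⟨rfl, h⟩
  · rw [card_eq_zero, filter_eq_empty_iff]
    intro s hs
    rw [mem_singleton] at hs
    exact hs ▸ h

/-- the bound of the deficiency of one part -/
theorem defic {N k : ℕ} (hE : Eq3 π univ N) (d : V → ℕ)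
    (hd : ∀ v i, i ≠ π v → dg H v (pt π univ i) + k = N + d v)
    (hno : ∀ x y z, H.Adj x y → H.Adj x z → H.Adj y z → 1 ≤ d x → 1 ≤ d y → 1 ≤ d z → False)
    (D : ℕ) (hD : ∀ i, ∑ v ∈ pt π univ i, d v = D) : 2 * D ≤ k ^ 2 := by
  classical
  by_cases hz : ∀ v, d v = 0
  · have := hD 0
    rw [sum_eq_zero fun v _ => hz v] at this
    subst this
    simp
  push Not at hz
  obtain ⟨a0, ha0⟩ := hz
  obtain ⟨a, -, hmax⟩ := exists_max_image (univ : Finset V) d ⟨a0, mem_univ _⟩
  have hpos : 1 ≤ d a := le_trans (Nat.one_le_iff_ne_zero.2 ha0) (hmax a0 (mem_univ _))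
  -- support sets
  set Q : ZMod 3 → Finset V := fun i => (pt π univ i).filter fun v => 1 ≤ d v with hQ
  have key : ∀ j j' : ZMod 3, j ≠ π a → j' ≠ π a → j ≠ j' → (Q j).card ≤ (Q j').card →
      2 * D ≤ k ^ 2 := by
    intro j j' hj hj' hjj hle
    have hdeg := hd a j hj
    have hdeg' := hd a j' hj'
    have hcardj : (pt π univ j).card = N := hE j
    have hcardj' : (pt π univ j').card = N := hE j'
    have hδk : d a ≤ k := by
      have := dg_le_card (G := H) (S := pt π univ j) a
      omega
    set X := (Q j).filter fun v => ¬ H.Adj a v with hX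
    set Y := (Q j).filter fun v => H.Adj a v with hY
    set Y' := (Q j').filter fun v => H.Adj a v with hY'
    have hXY : X.card + Y.card = (Q j).card := by
      rw [hX, hY, add_comm]
      exact card_filter_add_card_filter_not _
    have hnon : ∀ l : ZMod 3, l ≠ π a → ((Q l).filter fun v => ¬ H.Adj a v).card + d a ≤ k := by
      intro l hl
      have h1 : ((Q l).filter fun v => ¬ H.Adj a v) ⊆ (pt π univ l) \ nb H a (pt π univ l) := by
        intro v hv
        rw [mem_filter, hQ, mem_filter] at hv
        rw [mem_sdiff, mem_nb]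
        exact ⟨hv.1.1, fun h => hv.2 h.2⟩
      have h2 := card_le_card h1
      rw [card_sdiff_of_subset (nb_subset a), hE l] at h2
      have h3 := hd a l hl
      rw [dg] at h3
      omega
    have hXk : X.card + d a ≤ k := hnon j hj
    have hX'k := hnon j' hj'
    have hXY' : ((Q j').filter fun v => ¬ H.Adj a v).card + Y'.card = (Q j').card := by
      rw [hY', add_comm]
      exact card_filter_add_card_filter_not _
    -- the degrees of the members of `Y`
    have hYd : ∀ b ∈ Y, d b + Y'.card ≤ k := by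
      intro b hb
      rw [hY, mem_filter, hQ, mem_filter, mem_pt] at hb
      obtain ⟨⟨⟨_, hbj⟩, hb1⟩, hab⟩ := hb
      have h1 : nb H b (pt π univ j') ⊆ (pt π univ j') \ Y' := by
        intro v hv
        rw [mem_nb] at hv
        rw [mem_sdiff]
        refine ⟨hv.1, fun hv' => ?_⟩
        rw [hY', mem_filter, hQ, mem_filter] at hv'
        exact hno a b v hab hv'.2 hv.2 hpos hb1 hv'.1.2
      have hYs : Y' ⊆ pt π univ j' := by
        intro v hv
        rw [hY', mem_filter, hQ, mem_filter] at hv
        exact hv.1.1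
      have h2 := card_le_card h1
      rw [card_sdiff_of_subset hYs, hE j'] at h2
      have h3 := hd b j' (by rw [hbj]; exact hjj.symm)
      rw [dg] at h3
      have h4 := card_le_card hYs
      rw [hE j'] at h4
      omega
    -- the sum
    have hsum : D ≤ X.card * d a + Y.card * min (d a) (k - Y'.card) := by
      rw [← hD j]
      have h1 : ∑ v ∈ pt π univ j, d v = ∑ v ∈ Q j, d v := by
        rw [hQ, sum_filter]
        refine sum_congr rfl fun v _ => ?_
        split_ifs with h
        · rfl
        · omega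
      rw [h1, ← sum_filter_not_add_sum_filter (Q j) (fun v => H.Adj a v)]
      refine add_le_add ?_ ?_
      · refine le_trans (sum_le_card_nsmul _ _ (d a) fun v _ => hmax v (mem_univ _)) ?_
        rw [smul_eq_mul]
      · refine le_trans (sum_le_card_nsmul _ _ (min (d a) (k - Y'.card)) fun v hv => ?_) ?_
        · refine le_min (hmax v (mem_univ _)) ?_
          have := hYd v hv
          omega
        · rw [smul_eq_mul]
    have hfin := num (k : ℤ) (d a) X.card Y.card Y'.card ((min (d a) (k - Y'.card) : ℕ) : ℤ)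
      (Q j).card (by exact_mod_cast hXY) (by positivity) (by positivity) (by omega)
      (by exact_mod_cast min_le_left _ _) (by positivity) (by positivity) (by omega) (by
        by_cases h : Y.card = 0
        · left
          exact_mod_cast h
        · right
          obtain ⟨b, hb⟩ := card_pos.1 (Nat.pos_of_ne_zero h)
          have h1 := hYd b hb
          have h2 : min (d a) (k - Y'.card) ≤ k - Y'.card := min_le_right _ _
          have h3 : Y'.card ≤ k := by omega
          have h4 : ((k - Y'.card : ℕ) : ℤ) = k - Y'.card := by push_cast [h3]; ring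
          have h5 : ((min (d a) (k - Y'.card) : ℕ) : ℤ) ≤ ((k - Y'.card : ℕ) : ℤ) := by
            exact_mod_cast h2
          linarith)
    have h2 : ((2 * D : ℕ) : ℤ) ≤ ((k ^ 2 : ℕ) : ℤ) := by
      have : (D : ℤ) ≤ X.card * d a + Y.card * ((min (d a) (k - Y'.card) : ℕ) : ℤ) := by
        exact_mod_cast hsum
      push_cast at *
      linarith
    exact_mod_cast h2
  rcases le_total (Q (π a + 1)).card (Q (π a - 1)).card with h | h
  · exact key _ _ (zmod3_ne1 _) (zmod3_ne2 _) (zmod3_ne3 _) h
  · exact key _ _ (zmod3_ne2 _) (zmod3_ne1 _) (zmod3_ne3 _).symm h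

end X11

open X11

theorem p_X11 : S_X11 := by
  intro V _ _ π G N k hE hTri hBal hdeg
  classical
  -- the good packings
  set 𝓣 : Finset (Finset (Finset V)) := univ.filter fun T => Pack G T ∧
    ∀ v : V, ∀ i : ZMod 3, i ≠ π v → N ≤ dg (G \ cov T) v (pt π univ i) + k with h𝓣
  have hne : 𝓣.Nonempty := by
    refine ⟨∅, ?_⟩
    rw [h𝓣, mem_filter]
    refine ⟨mem_univ _, Pack.empty, ?_⟩
    rw [cov_empty, sdiff_bot]
    exact hdeg
  obtain ⟨T, hT, hmax⟩ := exists_max_image 𝓣 card hne
  rw [h𝓣, mem_filter] at hT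
  obtain ⟨-, hP, hdT⟩ := hT
  have hbal : Bal π (G \ cov T) univ := by
    intro v
    rw [imb_sdiff hP.cov_le, hBal v, hP.bal hTri v, sub_zero]
  have hTriH : Tri π (G \ cov T) := hTri.mono sdiff_le
  refine ⟨T, hP, hbal, hdT, ?_⟩
  set H := G \ cov T with hH
  set d : V → ℕ := fun v => dg H v (pt π univ (π v + 1)) + k - N with hd
  have hd1 : ∀ v, dg H v (pt π univ (π v + 1)) + k = N + d v := by
    intro v
    have := hdT v _ (zmod3_ne1 (π v))
    rw [hd]
    dsimp only
    omega
  have hd2 : ∀ v, dg H v (pt π univ (π v - 1)) + k = N + d v := by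
    intro v
    rw [← hd1 v]
    have := hbal v
    rw [imb] at this
    omega
  have hdall : ∀ v i, i ≠ π v → dg H v (pt π univ i) + k = N + d v := by
    intro v i hi
    rcases zmod3_cases (π v) i with h | h | h
    · exact absurd h hi
    · rw [h]
      exact hd1 v
    · rw [h]
      exact hd2 v
  -- no triangle with positive deficiencies
  have hno : ∀ x y z, H.Adj x y → H.Adj x z → H.Adj y z → 1 ≤ d x → 1 ≤ d y → 1 ≤ d z → False := by
    intro x y z hxy hxz hyz hx hy hz
    have hcl : H.IsNClique 3 {x, y, z} := by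
      rw [SimpleGraph.is3Clique_triple_iff]
      exact ⟨hxy, hxz, hyz⟩
    have hp : Pack H {({x, y, z} : Finset V)} := by
      refine ⟨fun s hs => ?_, fun s hs s' hs' hne => ?_⟩
      · rw [mem_singleton] at hs
        exact hs ▸ hcl
      · rw [mem_singleton] at hs hs'
        exact absurd (hs.trans hs'.symm) hne
    have hnot : ({x, y, z} : Finset V) ∉ T := by
      intro h
      have h1 : (cov T).Adj x y := ⟨hxy.ne, _, h, by simp, by simp⟩
      rw [hH, SimpleGraph.sdiff_adj] at hxy
      exact hxy.2 h1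
    have hmem : T ∪ {({x, y, z} : Finset V)} ∈ 𝓣 := by
      rw [h𝓣, mem_filter]
      refine ⟨mem_univ _, hP.union_sdiff hp, fun v i hi => ?_⟩
      have h1 : G \ cov (T ∪ {({x, y, z} : Finset V)}) = H \ cov {({x, y, z} : Finset V)} := by
        rw [cov_union, hH, sdiff_sdiff_left]
      rw [h1]
      have h2 := dg_sdiff (S := pt π univ i) hp.cov_le v
      rw [dg_cov_single hTriH hcl v i hi] at h2
      have h3 := hdall v i hi
      split_ifs at h2 with h4
      · have h5 : 1 ≤ d v := by
          simp only [mem_insert, mem_singleton] at h4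
          rcases h4 with rfl | rfl | rfl
          · exact hx
          · exact hy
          · exact hz
        omega
      · omega
    have h1 := hmax _ hmem
    rw [card_union_of_disjoint (disjoint_singleton_right.2 hnot), card_singleton] at h1
    omega
  -- the sums over the parts
  have hpart : ∀ i : ZMod 3, ∑ v ∈ pt π univ i, d v = ∑ v ∈ pt π univ (i + 1), d v := by
    intro i
    have h1 : ∑ v ∈ pt π univ i, (dg H v (pt π univ (i + 1)) + k) = ∑ v ∈ pt π univ i, (N + d v) := by
      refine sum_congr rfl fun v hv => ?_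
      rw [mem_pt] at hv
      exact hdall v _ (by rw [hv.2]; exact zmod3_ne1 i)
    have h2 : ∑ v ∈ pt π univ (i + 1), (dg H v (pt π univ i) + k) =
        ∑ v ∈ pt π univ (i + 1), (N + d v) := by
      refine sum_congr rfl fun v hv => ?_
      rw [mem_pt] at hv
      exact hdall v _ (by rw [hv.2]; exact (zmod3_ne1 i).symm)
    rw [sum_add_distrib, sum_add_distrib, sum_const, sum_const, hE i] at h1
    rw [sum_add_distrib, sum_add_distrib, sum_const, sum_const, hE (i + 1)] at h2
    have h3 := dbl (H := H) (π := π) i (i + 1)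
    omega
  have hall : ∀ i : ZMod 3, ∑ v ∈ pt π univ i, d v = ∑ v ∈ pt π univ 0, d v := by
    intro i
    have h0 := hpart 0
    have h1 := hpart 1
    fin_cases i
    · rfl
    · exact h0.symm
    · exact (h0.trans h1).symm
  have hD := defic hE d hdall hno _ hall
  have htot : ∑ v : V, ((dg H v (pt π univ (π v + 1)) : ℤ) + k - N) =
      ((3 * ∑ v ∈ pt π univ 0, d v : ℕ) : ℤ) := by
    have h1 : ∑ v : V, ((dg H v (pt π univ (π v + 1)) : ℤ) + k - N) = ((∑ v : V, d v : ℕ) : ℤ) := by
      rw [Nat.cast_sum]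
      refine sum_congr rfl fun v _ => ?_
      have := hd1 v
      omega
    rw [h1]
    congr 1
    rw [← sum_fiberwise univ π d]
    have h2 : ∀ i : ZMod 3, ∑ v ∈ univ.filter (fun v => π v = i), d v = ∑ v ∈ pt π univ 0, d v := hall
    rw [sum_congr rfl fun i _ => h2 i, sum_const]
    rfl
  rw [htot]
  have h3 : ((2 * ∑ v ∈ pt π univ 0, d v : ℕ) : ℤ) ≤ ((k ^ 2 : ℕ) : ℤ) := by exact_mod_cast hD
  push_cast at h3 ⊢
  linarith

end DH
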