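import Pool.Agent.Lib.MP_fe8cb7_co.h77.StX

/-!
# Daykin-Haggkvist problem, bound 3/16: piece X12 (approximate decomposition)
-/

open Finset

namespace DH

theorem p_X12 : S_X12 := by
  intro c C0 hC0 hc hFrac hNib hReb hX11 η hη γ hγ
  set ζ : ℝ := min (min (γ / 400) (η / 200)) (1 / 1000) with hζ
  have hζ0 : 0 < ζ := lt_min (lt_min (by linarith) (by linarith)) (by norm_num)
  have hζ1 : ζ ≤ 1 / 1000 := min_le_right _ _
  have hζ2 : ζ ≤ γ / 400 := (min_le_left _ _).trans (min_le_left _ _)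
  have hζ3 : ζ ≤ η / 200 := (min_le_left _ _).trans (min_le_right _ _)
  refine ⟨ζ, hζ0, ?_⟩
  intro γ2 hγ2
  set γ' : ℝ := min (γ / 2) γ2 with hγ'
  have hγ'0 : 0 < γ' := lt_min (by linarith) hγ2
  have hγ'1 : γ' ≤ γ / 2 := min_le_left _ _
  have hγ'2 : γ' ≤ γ2 := min_le_right _ _
  obtain ⟨N1, hN1⟩ := hNib C0 hC0 γ' hγ'0
  refine ⟨max 1000 N1, ?_⟩
  intro V _ _ π G Y N ζ0 hN hE hT hdeg himb hY hYc
  have hN1000 : 1000 ≤ N := (le_max_left _ _).trans hN
  have hNN1 : N1 ≤ N := (le_max_right _ _).trans hN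
  have hN0 : 0 < N := by omega
  have hNpos : (0 : ℝ) < N := by exact_mod_cast hN0
  obtain ⟨F, hFG, hbal, hF1, hF2⟩ := hReb V π G Y N ζ hζ0.le hζ1 hN1000 hE hT
    (fun v i hi => le_trans (mul_le_mul_of_nonneg_right (by linarith) hNpos.le) (hdeg v i hi))
    himb hYc
  have hG1 : G \ F ≤ G := sdiff_le
  have hT1 : Tri π (G \ F) := Tri.mono hG1 hT
  have hFle : ∀ (v : V) (i : ZMod 3), (dg F v (pt π univ i) : ℝ) ≤ dg F v univ := by
    intro v i
    exact_mod_cast dg_mono_set (G := F) (subset_univ (pt π univ i)) v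
  have hdeg1 : ∀ v : V, ∀ i : ZMod 3, i ≠ π v → (1 - c) * N ≤ dg (G \ F) v (pt π univ i) := by
    intro v i hi
    have h1 := dg_sdiff hFG v (S := pt π univ i)
    have h2 : (dg (G \ F) v (pt π univ i) : ℝ) + dg F v (pt π univ i) = dg G v (pt π univ i) := by
      exact_mod_cast h1
    have h3 := hdeg v i hi
    have h4 := (hFle v i).trans (hF1 v)
    have h5 : 100 * ζ * N ≤ (η / 2) * N := mul_le_mul_of_nonneg_right (by linarith) hNpos.le
    have h6 : 0 ≤ (η / 2) * N := by positivity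
    have h7 : (1 - c + η) * N = (1 - c) * N + (η / 2) * N + (η / 2) * N := by ring
    linarith
  -- `c` is not negative
  have hc0 : 0 ≤ c := by
    obtain ⟨v, hv⟩ : (pt π univ 0).Nonempty := by
      rw [← card_pos, hE 0]
      exact hN0
    have h1 := hdeg1 v (π v + 1) (zmod3_ne1 _)
    have h2 : (dg (G \ F) v (pt π univ (π v + 1)) : ℝ) ≤ N := by
      have h3 := dg_le_card (G := G \ F) (S := pt π univ (π v + 1)) v
      rw [hE] at h3
      exact_mod_cast h3
    by_contra hneg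
    push Not at hneg
    have h4 : 0 < (-c) * N := mul_pos (by linarith) hNpos
    have h5 : (1 - c) * N = N + (-c) * N := by ring
    linarith
  set k : ℕ := ⌊c * N⌋₊ with hk
  have hk1 : (k : ℝ) ≤ c * N := Nat.floor_le (by positivity)
  have hk2 : c * N < k + 1 := Nat.lt_floor_add_one _
  have hk3 : 16 * k ≤ 3 * N := by
    have h1 : (k : ℝ) ≤ 3 / 16 * N := hk1.trans (mul_le_mul_of_nonneg_right hc hNpos.le)
    have h2 : (16 : ℝ) * k ≤ 3 * N := by linarith
    exact_mod_cast h2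
  have hdeg2 : ∀ v : V, ∀ i : ZMod 3, i ≠ π v → N ≤ dg (G \ F) v (pt π univ i) + k := by
    intro v i hi
    have h1 := hdeg1 v i hi
    have h2 : (N : ℝ) < dg (G \ F) v (pt π univ i) + k + 1 := by
      have h3 : (1 - c) * N = N - c * N := by ring
      linarith
    have h4 : N < dg (G \ F) v (pt π univ i) + k + 1 := by exact_mod_cast h2
    omega
  obtain ⟨T0, hT0p, hT0b, hT0d, hT0s⟩ := hX11 V π (G \ F) N k hE hT1 hbal hdeg2
  have hT2 : Tri π ((G \ F) \ cov T0) := Tri.mono sdiff_le hT1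
  obtain ⟨W, hW0, hW1, hW2⟩ :=
    hFrac V π ((G \ F) \ cov T0) N k hN0 hk3 hE hT2 hT0b hT0d hT0s
  obtain ⟨T1, hT1p, hT1l⟩ := hN1 V π ((G \ F) \ cov T0) W N hNN1 hE hT2 hW0 hW1 hW2
  have hTp : Pack (G \ F) (T0 ∪ T1) := hT0p.union_sdiff hT1p
  have hle : G \ cov (T0 ∪ T1) ≤ (((G \ F) \ cov T0) \ cov T1) ⊔ F := by
    intro u v huv
    rw [SimpleGraph.sdiff_adj, cov_union, SimpleGraph.sup_adj] at huv
    rw [SimpleGraph.sup_adj, SimpleGraph.sdiff_adj, SimpleGraph.sdiff_adj,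
      SimpleGraph.sdiff_adj]
    by_cases h : F.Adj u v
    · exact Or.inr h
    · exact Or.inl ⟨⟨⟨huv.1, h⟩, fun h' => huv.2 (Or.inl h')⟩, fun h' => huv.2 (Or.inr h')⟩
  have hkey : ∀ (v : V) (i : ZMod 3), (dg (G \ cov (T0 ∪ T1)) v (pt π univ i) : ℝ) ≤
      γ' * N + dg F v univ := by
    intro v i
    have h1 : dg (G \ cov (T0 ∪ T1)) v (pt π univ i) ≤
        dg (((G \ F) \ cov T0) \ cov T1) v (pt π univ i) + dg F v (pt π univ i) :=
      (dg_mono hle v).trans (dg_sup_le v)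
    have h2 : (dg (G \ cov (T0 ∪ T1)) v (pt π univ i) : ℝ) ≤
        dg (((G \ F) \ cov T0) \ cov T1) v (pt π univ i) + dg F v (pt π univ i) := by
      exact_mod_cast h1
    have h3 := hT1l v i
    have h4 := hFle v i
    linarith
  refine ⟨T0 ∪ T1, hTp.mono hG1, fun v i => ?_, fun v hv i => ?_⟩
  · have h1 := hkey v i
    have h2 := hF1 v
    have h3 : 100 * ζ * N ≤ (γ / 4) * N := mul_le_mul_of_nonneg_right (by linarith) hNpos.le
    have h4 : γ' * N ≤ (γ / 2) * N := mul_le_mul_of_nonneg_right hγ'1 hNpos.le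
    have h5 : 0 ≤ (γ / 4) * N := by positivity
    have h6 : γ * N = (γ / 2) * N + (γ / 4) * N + (γ / 4) * N := by ring
    linarith
  · have h1 := hkey v i
    have h2 := (hF2 v hv).trans (hY v hv)
    have h4 : γ' * N ≤ γ2 * N := mul_le_mul_of_nonneg_right hγ'2 hNpos.le
    have h6 : (ζ0 + γ2) * N = ζ0 * N + γ2 * N := by ring
    linarith

end DH
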