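import Pool.Agent.Lib.MP_fe8cb7_co.h77.StX

/-!
# Daykin-Haggkvist problem: [X2], the two triangle decompositions
-/

open Finset

namespace DH

private theorem X2_nz {m : ℕ} (hm : 6 ≤ m) (a : ℕ) (h0 : 0 < a) (h1 : a < 6) :
    ((a : ℕ) : ZMod m) ≠ 0 := by
  intro h
  rw [ZMod.natCast_eq_zero_iff] at h
  have := Nat.le_of_dvd h0 h
  omega

private theorem X2_cov {V : Type} [DecidableEq V] {m : ℕ} [NeZero m] (f : ZMod m → Finset V)
    (a b : V) : (cov (univ.image f)).Adj a b ↔ a ≠ b ∧ ∃ k, a ∈ f k ∧ b ∈ f k := by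
  rw [cov_adj]
  refine and_congr_right fun _ => ?_
  constructor
  · rintro ⟨t, ht, hat, hbt⟩
    rw [mem_image] at ht
    obtain ⟨k, -, rfl⟩ := ht
    exact ⟨k, hat, hbt⟩
  · rintro ⟨k, hat, hbt⟩
    exact ⟨f k, mem_image_of_mem _ (mem_univ _), hat, hbt⟩

theorem p_X2 : S_X2 := by
  intro V _ l v z hl hv hzv ⟨hp0, hp⟩
  haveI : NeZero (3 * l) := ⟨by omega⟩
  have hm : 6 ≤ 3 * l := by omega
  have n1 : (1 : ZMod (3 * l)) ≠ 0 := by
    have := X2_nz hm 1 (by norm_num) (by norm_num); exact_mod_cast this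
  have n2 : (2 : ZMod (3 * l)) ≠ 0 := by
    have := X2_nz hm 2 (by norm_num) (by norm_num); exact_mod_cast this
  have n4 : (4 : ZMod (3 * l)) ≠ 0 := by
    have := X2_nz hm 4 (by norm_num) (by norm_num); exact_mod_cast this
  have n5 : (5 : ZMod (3 * l)) ≠ 0 := by
    have := X2_nz hm 5 (by norm_num) (by norm_num); exact_mod_cast this
  have hvz : ∀ j k, v j ≠ z k := fun j k h => hzv k j h.symm
  set f : ZMod (3 * l) → Finset V := fun k => {v k, v (k + 1), z k} with hf
  set g : ZMod (3 * l) → Finset V := fun k => {v k, z (k - 1), z k} with hg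
  have mf : ∀ k x, x ∈ f k ↔ x = v k ∨ x = v (k + 1) ∨ x = z k := by
    intro k x; simp [hf]
  have mg : ∀ k x, x ∈ g k ↔ x = v k ∨ x = z (k - 1) ∨ x = z k := by
    intro k x; simp [hg]
  have zz : ∀ k : ZMod (3 * l), k + 1 - 1 = k := fun k => by ring
  have zz' : ∀ k : ZMod (3 * l), k - 1 + 1 = k := fun k => by ring
  -- `z (k-1) ≠ z k`
  have hz1 : ∀ k, z (k - 1) ≠ z k := by
    intro k h
    rcases hp _ _ h with h1 | ⟨h1, h2⟩ | ⟨h1, h2⟩
    · exact n1 (by linear_combination -h1)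
    · exact n2 (by linear_combination h1 - h2)
    · exact n4 (by linear_combination h2 - h1)
  have hv1 : ∀ k, v k ≠ v (k + 1) := by
    intro k h
    have := hv h
    exact n1 (by linear_combination -this)
  -- two sets of the first kind
  have hff : ∀ k j, k ≠ j → ∀ a ∈ f k, ∀ b ∈ f k, a ∈ f j → b ∈ f j → a = b := by
    intro k j hkj a ha b hb ha' hb'
    have key : ∀ x, x ∈ f k → x ∈ f j → (x = v k ∧ k = j + 1) ∨ (x = v (k + 1) ∧ k + 1 = j) ∨
        (x = z k ∧ ((k = 0 ∧ j = 3) ∨ (k = 3 ∧ j = 0))) := by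
      intro x hx hx'
      rw [mf] at hx hx'
      rcases hx with rfl | rfl | rfl
      · rcases hx' with h | h | h
        · exact absurd (hv h) hkj
        · exact Or.inl ⟨rfl, hv h⟩
        · exact absurd h (hvz _ _)
      · rcases hx' with h | h | h
        · exact Or.inr (Or.inl ⟨rfl, hv h⟩)
        · exact absurd (add_right_cancel (hv h)) hkj
        · exact absurd h (hvz _ _)
      · rcases hx' with h | h | h
        · exact absurd h (hzv _ _)
        · exact absurd h (hzv _ _)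
        · rcases hp _ _ h with h1 | h1
          · exact absurd h1 hkj
          · exact Or.inr (Or.inr ⟨rfl, h1⟩)
    have c12 : k = j + 1 → k + 1 = j → False := fun h1 h2 => n2 (by linear_combination h2 - h1)
    have c13 : k = j + 1 → ((k = 0 ∧ j = 3) ∨ (k = 3 ∧ j = 0)) → False := by
      rintro h1 (⟨h2, h3⟩ | ⟨h2, h3⟩)
      · exact n4 (by linear_combination h2 - h1 - h3)
      · exact n2 (by linear_combination h1 - h2 + h3)
    have c23 : k + 1 = j → ((k = 0 ∧ j = 3) ∨ (k = 3 ∧ j = 0)) → False := by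
      rintro h1 (⟨h2, h3⟩ | ⟨h2, h3⟩)
      · exact n2 (by linear_combination h2 - h1 - h3)
      · exact n4 (by linear_combination h1 - h2 + h3)
    rcases key a ha ha' with ⟨hA, hA'⟩ | ⟨hA, hA'⟩ | ⟨hA, hA'⟩ <;>
      rcases key b hb hb' with ⟨hB, hB'⟩ | ⟨hB, hB'⟩ | ⟨hB, hB'⟩
    · rw [hA, hB]
    · exact (c12 hA' hB').elim
    · exact (c13 hA' hB').elim
    · exact (c12 hB' hA').elim
    · rw [hA, hB]
    · exact (c23 hA' hB').elim
    · exact (c13 hB' hA').elim
    · exact (c23 hB' hA').elim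
    · rw [hA, hB]
  -- two sets of the second kind
  have hgg : ∀ k j, k ≠ j → ∀ a ∈ g k, ∀ b ∈ g k, a ∈ g j → b ∈ g j → a = b := by
    intro k j hkj a ha b hb ha' hb'
    have key : ∀ x, x ∈ g k → x ∈ g j →
        (x = z (k - 1) ∧ ((k = 1 ∧ j = 4) ∨ (k = 4 ∧ j = 1) ∨ k = j + 1 ∨ (k = 1 ∧ j = 3) ∨
          (k = 4 ∧ j = 0))) ∨
        (x = z k ∧ (k = j - 1 ∨ (k = 0 ∧ j = 4) ∨ (k = 3 ∧ j = 1) ∨ (k = 0 ∧ j = 3) ∨
          (k = 3 ∧ j = 0))) := by
      intro x hx hx'
      rw [mg] at hx hx'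
      rcases hx with rfl | rfl | rfl
      · rcases hx' with h | h | h
        · exact absurd (hv h) hkj
        · exact absurd h (hvz _ _)
        · exact absurd h (hvz _ _)
      · rcases hx' with h | h | h
        · exact absurd h (hzv _ _)
        · left
          refine ⟨rfl, ?_⟩
          rcases hp _ _ h with h1 | ⟨h1, h2⟩ | ⟨h1, h2⟩
          · exact absurd (sub_left_injective h1) hkj
          · exact Or.inl ⟨by linear_combination h1, by linear_combination h2⟩
          · exact Or.inr (Or.inl ⟨by linear_combination h1, by linear_combination h2⟩)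
        · left
          refine ⟨rfl, ?_⟩
          rcases hp _ _ h with h1 | ⟨h1, h2⟩ | ⟨h1, h2⟩
          · exact Or.inr (Or.inr (Or.inl (by linear_combination h1)))
          · exact Or.inr (Or.inr (Or.inr (Or.inl ⟨by linear_combination h1, h2⟩)))
          · exact Or.inr (Or.inr (Or.inr (Or.inr ⟨by linear_combination h1, h2⟩)))
      · rcases hx' with h | h | h
        · exact absurd h (hzv _ _)
        · right
          refine ⟨rfl, ?_⟩
          rcases hp _ _ h with h1 | ⟨h1, h2⟩ | ⟨h1, h2⟩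
          · exact Or.inl h1
          · exact Or.inr (Or.inl ⟨h1, by linear_combination h2⟩)
          · exact Or.inr (Or.inr (Or.inl ⟨h1, by linear_combination h2⟩))
        · right
          refine ⟨rfl, ?_⟩
          rcases hp _ _ h with h1 | h1 | h1
          · exact absurd h1 hkj
          · exact Or.inr (Or.inr (Or.inr (Or.inl h1)))
          · exact Or.inr (Or.inr (Or.inr (Or.inr h1)))
    have cc : ((k = 1 ∧ j = 4) ∨ (k = 4 ∧ j = 1) ∨ k = j + 1 ∨ (k = 1 ∧ j = 3) ∨
          (k = 4 ∧ j = 0)) → (k = j - 1 ∨ (k = 0 ∧ j = 4) ∨ (k = 3 ∧ j = 1) ∨ (k = 0 ∧ j = 3) ∨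
          (k = 3 ∧ j = 0)) → False := by
      have d14 : (k = 1 ∨ k = 4) → (k = 0 ∨ k = 3) → False := by
        rintro (h1 | h1) (h2 | h2)
        · exact n1 (by linear_combination h2 - h1)
        · exact n2 (by linear_combination h1 - h2)
        · exact n4 (by linear_combination h2 - h1)
        · exact n1 (by linear_combination h2 - h1)
      have dq : (k = j - 1 ∨ (k = 0 ∧ j = 4) ∨ (k = 3 ∧ j = 1) ∨ (k = 0 ∧ j = 3) ∨
          (k = 3 ∧ j = 0)) → k = j - 1 ∨ (k = 0 ∨ k = 3) := by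
        rintro (h | ⟨h, -⟩ | ⟨h, -⟩ | ⟨h, -⟩ | ⟨h, -⟩)
        · exact Or.inl h
        · exact Or.inr (Or.inl h)
        · exact Or.inr (Or.inr h)
        · exact Or.inr (Or.inl h)
        · exact Or.inr (Or.inr h)
      rintro (⟨h1, h2⟩ | ⟨h1, h2⟩ | h1 | ⟨h1, h2⟩ | ⟨h1, h2⟩) hq
      · rcases dq hq with h3 | h3
        · exact n2 (by linear_combination h1 - h2 - h3)
        · exact d14 (Or.inl h1) h3
      · rcases dq hq with h3 | h3
        · exact n4 (by linear_combination h3 - h1 + h2)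
        · exact d14 (Or.inr h1) h3
      · rcases hq with h3 | ⟨h3, h4⟩ | ⟨h3, h4⟩ | ⟨h3, h4⟩ | ⟨h3, h4⟩
        · exact n2 (by linear_combination h3 - h1)
        · exact n5 (by linear_combination h3 - h1 - h4)
        · exact n1 (by linear_combination h1 - h3 + h4)
        · exact n4 (by linear_combination h3 - h1 - h4)
        · exact n2 (by linear_combination h1 - h3 + h4)
      · rcases dq hq with h3 | h3
        · exact n1 (by linear_combination h1 - h2 - h3)
        · exact d14 (Or.inl h1) h3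
      · rcases dq hq with h3 | h3
        · exact n5 (by linear_combination h3 - h1 + h2)
        · exact d14 (Or.inr h1) h3
    rcases key a ha ha' with ⟨hA, hA'⟩ | ⟨hA, hA'⟩ <;>
      rcases key b hb hb' with ⟨hB, hB'⟩ | ⟨hB, hB'⟩
    · rw [hA, hB]
    · exact (cc hA' hB').elim
    · exact (cc hB' hA').elim
    · rw [hA, hB]
  constructor
  · refine ⟨univ.image f, ⟨?_, ?_⟩, ?_⟩
    · intro t ht
      rw [SimpleGraph.isNClique_iff]
      refine ⟨fun a _ b _ hab => hab, ?_⟩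
      rw [mem_image] at ht
      obtain ⟨k, -, rfl⟩ := ht
      rw [hf]
      simp only
      rw [card_insert_of_notMem, card_insert_of_notMem, card_singleton]
      · rw [mem_singleton]; exact hvz _ _
      · simp only [mem_insert, mem_singleton, not_or]
        exact ⟨hv1 k, hvz _ _⟩
    · intro t ht t' ht' hne a ha b hb ha' hb'
      rw [mem_image] at ht ht'
      obtain ⟨k, -, rfl⟩ := ht
      obtain ⟨j, -, rfl⟩ := ht'
      exact hff k j (fun h => hne (by rw [h])) a ha b hb ha' hb'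
    · ext a b
      rw [X2_cov f a b]
      simp only [SimpleGraph.sup_adj, wk, stg, SimpleGraph.fromRel_adj]
      constructor
      · rintro ⟨hab, k, ha, hb⟩
        rw [mf] at ha hb
        rcases ha with ha | ha | ha <;> rcases hb with hb | hb | hb
        · exact absurd (ha.trans hb.symm) hab
        · exact Or.inl ⟨hab, Or.inl ⟨k, ha, hb⟩⟩
        · exact Or.inr ⟨hab, Or.inl ⟨k, ha, Or.inl hb⟩⟩
        · exact Or.inl ⟨hab, Or.inr ⟨k, hb, ha⟩⟩
        · exact absurd (ha.trans hb.symm) hab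
        · exact Or.inr ⟨hab, Or.inl ⟨k + 1, ha, Or.inr (by rw [zz]; exact hb)⟩⟩
        · exact Or.inr ⟨hab, Or.inr ⟨k, hb, Or.inl ha⟩⟩
        · exact Or.inr ⟨hab, Or.inr ⟨k + 1, hb, Or.inr (by rw [zz]; exact ha)⟩⟩
        · exact absurd (ha.trans hb.symm) hab
      · rintro (⟨hab, ⟨k, ha, hb⟩ | ⟨k, ha, hb⟩⟩ | ⟨hab, ⟨k, ha, hb | hb⟩ | ⟨k, ha, hb | hb⟩⟩) <;>
          refine ⟨hab, ?_⟩
        · exact ⟨k, (mf _ _).2 (Or.inl ha), (mf _ _).2 (Or.inr (Or.inl hb))⟩
        · exact ⟨k, (mf _ _).2 (Or.inr (Or.inl hb)), (mf _ _).2 (Or.inl ha)⟩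
        · exact ⟨k, (mf _ _).2 (Or.inl ha), (mf _ _).2 (Or.inr (Or.inr hb))⟩
        · exact ⟨k - 1, (mf _ _).2 (Or.inr (Or.inl (by rw [zz']; exact ha))),
            (mf _ _).2 (Or.inr (Or.inr hb))⟩
        · exact ⟨k, (mf _ _).2 (Or.inr (Or.inr hb)), (mf _ _).2 (Or.inl ha)⟩
        · exact ⟨k - 1, (mf _ _).2 (Or.inr (Or.inr hb)),
            (mf _ _).2 (Or.inr (Or.inl (by rw [zz']; exact ha)))⟩
  · refine ⟨univ.image g, ⟨?_, ?_⟩, ?_⟩
    · intro t ht
      rw [SimpleGraph.isNClique_iff]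
      refine ⟨fun a _ b _ hab => hab, ?_⟩
      rw [mem_image] at ht
      obtain ⟨k, -, rfl⟩ := ht
      rw [hg]
      simp only
      rw [card_insert_of_notMem, card_insert_of_notMem, card_singleton]
      · rw [mem_singleton]; exact hz1 k
      · simp only [mem_insert, mem_singleton, not_or]
        exact ⟨hvz _ _, hvz _ _⟩
    · intro t ht t' ht' hne a ha b hb ha' hb'
      rw [mem_image] at ht ht'
      obtain ⟨k, -, rfl⟩ := ht
      obtain ⟨j, -, rfl⟩ := ht'
      exact hgg k j (fun h => hne (by rw [h])) a ha b hb ha' hb'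
    · ext a b
      rw [X2_cov g a b]
      simp only [SimpleGraph.sup_adj, wk, stg, SimpleGraph.fromRel_adj]
      constructor
      · rintro ⟨hab, k, ha, hb⟩
        rw [mg] at ha hb
        rcases ha with ha | ha | ha <;> rcases hb with hb | hb | hb
        · exact absurd (ha.trans hb.symm) hab
        · exact Or.inl ⟨hab, Or.inl ⟨k, ha, Or.inr hb⟩⟩
        · exact Or.inl ⟨hab, Or.inl ⟨k, ha, Or.inl hb⟩⟩
        · exact Or.inl ⟨hab, Or.inr ⟨k, hb, Or.inr ha⟩⟩
        · exact absurd (ha.trans hb.symm) hab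
        · exact Or.inr ⟨hab, Or.inl ⟨k - 1, ha, by rw [zz']; exact hb⟩⟩
        · exact Or.inl ⟨hab, Or.inr ⟨k, hb, Or.inl ha⟩⟩
        · exact Or.inr ⟨hab, Or.inr ⟨k - 1, hb, by rw [zz']; exact ha⟩⟩
        · exact absurd (ha.trans hb.symm) hab
      · rintro (⟨hab, ⟨k, ha, hb | hb⟩ | ⟨k, ha, hb | hb⟩⟩ | ⟨hab, ⟨k, ha, hb⟩ | ⟨k, ha, hb⟩⟩) <;>
          refine ⟨hab, ?_⟩
        · exact ⟨k, (mg _ _).2 (Or.inl ha), (mg _ _).2 (Or.inr (Or.inr hb))⟩
        · exact ⟨k, (mg _ _).2 (Or.inl ha), (mg _ _).2 (Or.inr (Or.inl hb))⟩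
        · exact ⟨k, (mg _ _).2 (Or.inr (Or.inr hb)), (mg _ _).2 (Or.inl ha)⟩
        · exact ⟨k, (mg _ _).2 (Or.inr (Or.inl hb)), (mg _ _).2 (Or.inl ha)⟩
        · exact ⟨k + 1, (mg _ _).2 (Or.inr (Or.inl (by rw [zz]; exact ha))),
            (mg _ _).2 (Or.inr (Or.inr hb))⟩
        · exact ⟨k + 1, (mg _ _).2 (Or.inr (Or.inr hb)),
            (mg _ _).2 (Or.inr (Or.inl (by rw [zz]; exact ha)))⟩

end DH
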