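import Pool.Agent.Lib.MP_fe8cb7_co.h77.StX

/-!
# Daykin-Haggkvist problem: [X3], a pinched closed walk is a triangle and a shorter cycle
-/

open Finset

namespace DH

private theorem X3_inj {m : ℕ} (a b : ℕ) (ha : a < m) (hb : b < m)
    (h : ((a : ℕ) : ZMod m) = ((b : ℕ) : ZMod m)) : a = b := by
  have h1 := (ZMod.natCast_eq_natCast_iff' a b m).mp h
  rwa [Nat.mod_eq_of_lt ha, Nat.mod_eq_of_lt hb] at h1

theorem p_X3 : S_X3 := by
  intro V _ π l z hl ⟨hp0, hp⟩ hπ
  haveI : NeZero (3 * l) := ⟨by omega⟩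
  haveI : NeZero (3 * (l - 1)) := ⟨by omega⟩
  have hm : 6 ≤ 3 * l := by omega
  have hm' : 3 * (l - 1) = 3 * l - 3 := by omega
  -- small numbers
  have c0 : ((0 : ℕ) : ZMod (3 * l)) = 0 := Nat.cast_zero
  have c1 : ((1 : ℕ) : ZMod (3 * l)) = 1 := Nat.cast_one
  have c2 : ((2 : ℕ) : ZMod (3 * l)) = 2 := by norm_num
  have c3 : ((3 : ℕ) : ZMod (3 * l)) = 3 := by norm_num
  -- coincidences, with natural numbers
  have hpn : ∀ a b : ℕ, a < 3 * l → b < 3 * l → z (a : ZMod (3 * l)) = z (b : ZMod (3 * l)) →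
      a = b ∨ (a = 0 ∧ b = 3) ∨ (a = 3 ∧ b = 0) := by
    intro a b ha hb h
    rcases hp _ _ h with h1 | ⟨h1, h2⟩ | ⟨h1, h2⟩
    · exact Or.inl (X3_inj a b ha hb h1)
    · rw [← c0] at h1
      rw [← c3] at h2
      exact Or.inr (Or.inl ⟨X3_inj a 0 ha (by omega) h1, X3_inj b 3 hb (by omega) h2⟩)
    · rw [← c3] at h1
      rw [← c0] at h2
      exact Or.inr (Or.inr ⟨X3_inj a 3 ha (by omega) h1, X3_inj b 0 hb (by omega) h2⟩)
  obtain ⟨v2, hv2⟩ : ∃ v2 : ZMod (3 * (l - 1)) → V,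
      ∀ i, v2 i = z ((i.val + 3 : ℕ) : ZMod (3 * l)) := ⟨_, fun _ => rfl⟩
  have hval : ∀ i : ZMod (3 * (l - 1)), i.val + 3 < 3 * l := by
    intro i
    have := ZMod.val_lt i
    omega
  have hsucc : ∀ i : ZMod (3 * (l - 1)), (i + 1).val = (i.val + 1) % (3 * (l - 1)) := by
    intro i
    have e : i + 1 = ((i.val + 1 : ℕ) : ZMod (3 * (l - 1))) := by
      rw [Nat.cast_add, Nat.cast_one, ZMod.natCast_zmod_val]
    rw [e, ZMod.val_natCast]
  have hnext : ∀ i, v2 (i + 1) = z (((i.val + 3 : ℕ) : ZMod (3 * l)) + 1) := by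
    intro i
    have hi := ZMod.val_lt i
    rw [hv2, hsucc]
    by_cases h : i.val + 1 < 3 * (l - 1)
    · rw [Nat.mod_eq_of_lt h]
      congr 1
      push_cast
      ring
    · have h1 : i.val + 1 = 3 * (l - 1) := by omega
      rw [h1, Nat.mod_self, Nat.zero_add, c3, ← hp0]
      congr 1
      have h2 : ((i.val + 3 : ℕ) : ZMod (3 * l)) + 1 = ((3 * l : ℕ) : ZMod (3 * l)) := by
        have h3 : i.val + 3 + 1 = 3 * l := by omega
        rw [← h3]
        push_cast
        ring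
      rw [h2, ZMod.natCast_self]
  have h12 : ∀ i, v2 i ≠ z 1 ∧ v2 i ≠ z 2 := by
    intro i
    rw [hv2, ← c1, ← c2]
    constructor
    · intro h
      rcases hpn _ 1 (hval i) (by omega) h with h1 | h1 | h1 <;> omega
    · intro h
      rcases hpn _ 2 (hval i) (by omega) h with h1 | h1 | h1 <;> omega
  -- the triangle
  have z01 : z 0 ≠ z 1 := by
    intro h
    rw [← c0, ← c1] at h
    rcases hpn 0 1 (by omega) (by omega) h with h1 | h1 | h1 <;> omega
  have z02 : z 0 ≠ z 2 := by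
    intro h
    rw [← c0, ← c2] at h
    rcases hpn 0 2 (by omega) (by omega) h with h1 | h1 | h1 <;> omega
  have z12 : z 1 ≠ z 2 := by
    intro h
    rw [← c1, ← c2] at h
    rcases hpn 1 2 (by omega) (by omega) h with h1 | h1 | h1 <;> omega
  obtain ⟨t, ht⟩ : ∃ t : Finset V, t = {z 0, z 1, z 2} := ⟨_, rfl⟩
  have mt : ∀ x, x ∈ t ↔ x = z 0 ∨ x = z 1 ∨ x = z 2 := by
    intro x; rw [ht]; simp
  have hPack : Pack (⊤ : SimpleGraph V) ({t} : Finset (Finset V)) := by
    refine ⟨?_, ?_⟩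
    · intro s hs
      rw [mem_singleton] at hs
      rw [hs, SimpleGraph.isNClique_iff]
      refine ⟨fun a _ b _ hab => hab, ?_⟩
      rw [ht, card_insert_of_notMem, card_insert_of_notMem, card_singleton]
      · rw [mem_singleton]; exact z12
      · simp only [mem_insert, mem_singleton, not_or]
        exact ⟨z01, z02⟩
    · intro s hs s' hs' hne
      rw [mem_singleton] at hs hs'
      exact absurd (hs.trans hs'.symm) hne
  have hD : ∀ a b, (cov ({t} : Finset (Finset V))).Adj a b ↔ a ≠ b ∧ a ∈ t ∧ b ∈ t := by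
    intro a b
    rw [cov_adj]
    refine and_congr_right fun _ => ?_
    constructor
    · rintro ⟨s, hs, ha, hb⟩
      rw [mem_singleton] at hs
      rw [hs] at ha hb
      exact ⟨ha, hb⟩
    · rintro ⟨ha, hb⟩
      exact ⟨t, mem_singleton_self t, ha, hb⟩
  -- the edges of the walk
  have e11 : (1 : ZMod (3 * l)) + 1 = 2 := by norm_num
  have e21 : (2 : ZMod (3 * l)) + 1 = 3 := by norm_num
  have hedge : ∀ k : ZMod (3 * l), (z k ∈ t ∧ z (k + 1) ∈ t) ∨
      ∃ i, z k = v2 i ∧ z (k + 1) = v2 (i + 1) := by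
    intro k
    have hk := ZMod.val_lt k
    have hkk : ((k.val : ℕ) : ZMod (3 * l)) = k := ZMod.natCast_zmod_val k
    by_cases h : k.val < 3
    · left
      rw [mt, mt]
      have h3 : k.val = 0 ∨ k.val = 1 ∨ k.val = 2 := by omega
      rcases h3 with h3 | h3 | h3
      · rw [h3, c0] at hkk
        rw [← hkk, zero_add]
        exact ⟨Or.inl rfl, Or.inr (Or.inl rfl)⟩
      · rw [h3, c1] at hkk
        rw [← hkk, e11]
        exact ⟨Or.inr (Or.inl rfl), Or.inr (Or.inr rfl)⟩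
      · rw [h3, c2] at hkk
        rw [← hkk, e21, ← hp0]
        exact ⟨Or.inr (Or.inr rfl), Or.inl rfl⟩
    · right
      have hv : (((k.val - 3 : ℕ) : ZMod (3 * (l - 1)))).val = k.val - 3 := by
        rw [ZMod.val_natCast, Nat.mod_eq_of_lt (by omega)]
      have h4 : k.val - 3 + 3 = k.val := by omega
      refine ⟨((k.val - 3 : ℕ) : ZMod (3 * (l - 1))), ?_, ?_⟩
      · rw [hv2, hv, h4, hkk]
      · rw [hnext, hv, h4, hkk]
  refine ⟨v2, cov {t}, ?_, ?_, ?_, hPack.dec, ?_, ?_⟩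
  · intro i j h
    rw [hv2, hv2] at h
    rcases hpn _ _ (hval i) (hval j) h with h1 | h1 | h1
    · exact ZMod.val_injective _ (by omega)
    · omega
    · omega
  · intro k
    exact ⟨_, hv2 k⟩
  · intro k
    rw [hnext, hπ, hv2]
  · rw [SimpleGraph.disjoint_left]
    intro a b h h'
    rw [hD, mt, mt] at h
    rw [wk, SimpleGraph.fromRel_adj] at h'
    obtain ⟨hab, ha, hb⟩ := h
    have key : ∀ x, (x = z 1 ∨ x = z 2) → (x = a ∨ x = b) → False := by
      intro x hx hx'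
      have hval2 : ∃ i, x = v2 i := by
        rcases h'.2 with ⟨k, h1, h2⟩ | ⟨k, h1, h2⟩
        · rcases hx' with h3 | h3
          · exact ⟨k, h3.trans h1⟩
          · exact ⟨k + 1, h3.trans h2⟩
        · rcases hx' with h3 | h3
          · exact ⟨k + 1, h3.trans h2⟩
          · exact ⟨k, h3.trans h1⟩
      obtain ⟨i, hi⟩ := hval2
      rcases hx with h3 | h3
      · exact (h12 i).1 (hi.symm.trans h3)
      · exact (h12 i).2 (hi.symm.trans h3)
    rcases ha with ha | ha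
    · rcases hb with hb | hb
      · exact hab (ha.trans hb.symm)
      · exact key b hb (Or.inr rfl)
    · exact key a ha (Or.inl rfl)
  · ext a b
    rw [SimpleGraph.sup_adj, hD]
    simp only [wk, SimpleGraph.fromRel_adj]
    constructor
    · rintro ⟨hab, ⟨k, ha, hb⟩ | ⟨k, ha, hb⟩⟩
      · rcases hedge k with ⟨h1, h2⟩ | ⟨i, h1, h2⟩
        · rw [← ha] at h1
          rw [← hb] at h2
          exact Or.inl ⟨hab, h1, h2⟩
        · exact Or.inr ⟨hab, Or.inl ⟨i, ha.trans h1, hb.trans h2⟩⟩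
      · rcases hedge k with ⟨h1, h2⟩ | ⟨i, h1, h2⟩
        · rw [← ha] at h1
          rw [← hb] at h2
          exact Or.inl ⟨hab, h2, h1⟩
        · exact Or.inr ⟨hab, Or.inr ⟨i, ha.trans h1, hb.trans h2⟩⟩
    · rintro (⟨hab, ha, hb⟩ | ⟨hab, ⟨i, ha, hb⟩ | ⟨i, ha, hb⟩⟩)
      · refine ⟨hab, ?_⟩
        rw [mt] at ha hb
        rcases ha with ha | ha | ha <;> rcases hb with hb | hb | hb
        · exact absurd (ha.trans hb.symm) hab
        · exact Or.inl ⟨0, ha, by rw [zero_add]; exact hb⟩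
        · exact Or.inr ⟨2, hb, by rw [e21, ← hp0]; exact ha⟩
        · exact Or.inr ⟨0, hb, by rw [zero_add]; exact ha⟩
        · exact absurd (ha.trans hb.symm) hab
        · exact Or.inl ⟨1, ha, by rw [e11]; exact hb⟩
        · exact Or.inl ⟨2, ha, by rw [e21, ← hp0]; exact hb⟩
        · exact Or.inr ⟨1, hb, by rw [e11]; exact ha⟩
        · exact absurd (ha.trans hb.symm) hab
      · exact ⟨hab, Or.inl ⟨_, ha.trans (hv2 i), hb.trans (hnext i)⟩⟩
      · exact ⟨hab, Or.inr ⟨_, ha.trans (hv2 i), hb.trans (hnext i)⟩⟩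

end DH
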