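import Pool.Agent.Lib.MP_fe8cb7_co.h77.StX

/-!
# Daykin-Haggkvist problem: [X4], absorber of one cycle, four common neighbours suffice
-/

open Finset

namespace DH

private theorem X4_wk {V : Type} {m : ℕ} {v : ZMod m → V} {P : V → V → Prop}
    (hs : ∀ x y, P x y → P y x) (h : ∀ k, P (v k) (v (k + 1))) {x y : V} (hxy : (wk v).Adj x y) :
    P x y := by
  rw [wk, SimpleGraph.fromRel_adj] at hxy
  rcases hxy with ⟨_, ⟨k, rfl, rfl⟩ | ⟨k, rfl, rfl⟩⟩
  · exact h k
  · exact hs _ _ (h k)

private theorem X4_stg {V : Type} {m : ℕ} {v z : ZMod m → V} {P : V → V → Prop}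
    (hs : ∀ x y, P x y → P y x) (h1 : ∀ k, P (v k) (z k)) (h2 : ∀ k, P (v k) (z (k - 1)))
    {x y : V} (hxy : (stg v z).Adj x y) : P x y := by
  rw [stg, SimpleGraph.fromRel_adj] at hxy
  rcases hxy with ⟨_, ⟨k, rfl, rfl | rfl⟩ | ⟨k, rfl, rfl | rfl⟩⟩
  · exact h1 k
  · exact h2 k
  · exact hs _ _ (h1 k)
  · exact hs _ _ (h2 k)

/-- the graph of a closed walk of length three is a triangle -/
private theorem X4_tri {V : Type} [DecidableEq V] (v : ZMod 3 → V) (hv : Function.Injective v) :
    Dec (wk v) := by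
  have h01 : v 0 ≠ v 1 := fun h => absurd (hv h) (by decide)
  have h02 : v 0 ≠ v 2 := fun h => absurd (hv h) (by decide)
  have h12 : v 1 ≠ v 2 := fun h => absurd (hv h) (by decide)
  have hall : ∀ k : ZMod 3, v k ∈ ({v 0, v 1, v 2} : Finset V) := by
    intro k
    have hk : k = 0 ∨ k = 1 ∨ k = 2 := by revert k; decide
    rcases hk with rfl | rfl | rfl <;> simp
  have hadj : ∀ k j : ZMod 3, k ≠ j → (wk v).Adj (v k) (v j) := by
    intro k j hkj
    rw [wk, SimpleGraph.fromRel_adj]
    refine ⟨fun h => hkj (hv h), ?_⟩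
    have h3 : j = k + 1 ∨ k = j + 1 := by revert k j; decide
    rcases h3 with h3 | h3
    · exact Or.inl ⟨k, rfl, by rw [h3]⟩
    · exact Or.inr ⟨j, rfl, by rw [h3]⟩
  have hmem : ∀ x ∈ ({v 0, v 1, v 2} : Finset V), ∃ k : ZMod 3, x = v k := by
    intro x hx
    simp only [mem_insert, mem_singleton] at hx
    rcases hx with h | h | h
    · exact ⟨0, h⟩
    · exact ⟨1, h⟩
    · exact ⟨2, h⟩
  refine ⟨{{v 0, v 1, v 2}}, ⟨?_, ?_⟩, ?_⟩
  · intro t ht
    rw [mem_singleton] at ht
    subst ht
    rw [SimpleGraph.isNClique_iff]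
    constructor
    · intro x hx y hy hxy
      obtain ⟨k, rfl⟩ := hmem x (mem_coe.1 hx)
      obtain ⟨j, rfl⟩ := hmem y (mem_coe.1 hy)
      exact hadj k j (fun h => hxy (by rw [h]))
    · rw [card_insert_of_notMem, card_insert_of_notMem, card_singleton]
      · simpa using h12
      · simp only [mem_insert, mem_singleton, not_or]
        exact ⟨h01, h02⟩
  · intro t ht t' ht' hne
    rw [mem_singleton] at ht ht'
    exact absurd (ht.trans ht'.symm) hne
  · ext x y
    rw [cov_adj]
    constructor
    · rintro ⟨hxy, t, ht, hx, hy⟩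
      rw [mem_singleton] at ht
      subst ht
      obtain ⟨k, rfl⟩ := hmem x hx
      obtain ⟨j, rfl⟩ := hmem y hy
      exact hadj k j (fun h => hxy (by rw [h]))
    · intro h
      refine ⟨h.ne, _, mem_singleton_self _, ?_⟩
      exact X4_wk (P := fun x y => x ∈ ({v 0, v 1, v 2} : Finset V) ∧
        y ∈ ({v 0, v 1, v 2} : Finset V)) (fun _ _ h => h.symm) (fun k => ⟨hall k, hall _⟩) h

theorem p_X4 : S_X4 := by
  intro A0 X1 X2 X3 V _ _ π G U1 M l hl hFour
  induction l with
  | zero => exact absurd hl (by norm_num)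
  | succ l ih =>
    intro Fb v hvU hinj hstep hM
    rcases Nat.eq_zero_or_pos l with rfl | hlpos
    · -- a triangle
      refine ⟨⊥, ∅, by simp, by simp, bot_le, ?_, dec_bot, ?_⟩
      · intro x y hxy
        exact absurd hxy (by simp)
      · rw [bot_sup_eq]
        exact X4_tri (V := V) v hinj
    · have hl2 : 2 ≤ l + 1 := by omega
      have hsq : (l + 1) ^ 2 = l ^ 2 + 2 * l + 1 := by ring
      have hM1 : Fb.card + 3 * (l + 1) < M := by
        have : l + 1 ≤ (l + 1) ^ 2 := by nlinarith
        omega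
      obtain ⟨z, hP, hzn, hzπ, e1, e2, e3⟩ := X1 A0 V π G U1 Fb (l + 1) M v hl2 hvU hstep hFour hM1
      have hzv : ∀ k j, z k ≠ v j := fun k j h => hzn k (h ▸ hvU j)
      have hzstep : ∀ k, π (z (k + 1)) = π (z k) + 1 := by
        intro k
        rw [hzπ, hzπ, hstep]
        ring
      obtain ⟨⟨T1, hT1, hC1⟩, ⟨T2, hT2, hC2⟩⟩ := X2 V (l + 1) v z hl2 hinj hzv hP
      obtain ⟨v2, D, hinj2, hv2z, hstep2, hD, hDd, hzD⟩ := X3 V π (l + 1) z hl2 hP hzstep
      haveI : NeZero (3 * (l + 1)) := ⟨by omega⟩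
      set New1 : Finset V := univ.image z with hNew1
      have hz1 : ∀ k, z k ∈ New1 := fun k => mem_image_of_mem _ (mem_univ _)
      have hN1c : New1.card ≤ 3 * (l + 1) := by
        refine card_image_le.trans ?_
        rw [card_univ, ZMod.card]
      have hN1d : Disjoint New1 (U1 ∪ Fb) := by
        rw [disjoint_left]
        intro x hx
        obtain ⟨k, _, rfl⟩ := mem_image.1 hx
        exact hzn k
      have hcardU : (Fb ∪ New1).card ≤ Fb.card + 3 * (l + 1) :=
        (card_union_le _ _).trans (by omega)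
      obtain ⟨A2, New2, hN2c, hN2d, hA2G, hA2e, hDA2, hDA2v⟩ :=
        ih hlpos (Fb ∪ New1) v2 (by
          intro k
          obtain ⟨j, hj⟩ := hv2z k
          rw [hj]
          exact mem_union_right _ (mem_union_right _ (hz1 j))) hinj2 hstep2 (by omega)
      have hN2U : ∀ x ∈ New2, x ∉ U1 ∪ Fb := by
        intro x hx hx'
        rw [disjoint_left] at hN2d
        refine hN2d hx ?_
        rcases mem_union.1 hx' with h | h
        · exact mem_union_left _ h
        · exact mem_union_right _ (mem_union_left _ h)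
      have hN21 : ∀ x ∈ New2, x ∉ New1 := by
        intro x hx hx'
        rw [disjoint_left] at hN2d
        exact hN2d hx (mem_union_right _ (mem_union_right _ hx'))
      have hN1U : ∀ x ∈ New1, x ∉ U1 ∪ Fb := by
        intro x hx
        rw [disjoint_left] at hN1d
        exact hN1d hx
      have hv2N : ∀ k, v2 k ∈ New1 := by
        intro k
        obtain ⟨j, hj⟩ := hv2z k
        rw [hj]
        exact hz1 j
      -- edges of the pieces
      have a1 : ∀ {x y}, (wk z).Adj x y → x ∈ New1 ∧ y ∈ New1 := fun h =>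
        X4_wk (P := fun x y => x ∈ New1 ∧ y ∈ New1) (fun _ _ h => h.symm)
          (fun k => ⟨hz1 _, hz1 _⟩) h
      have a2 : ∀ {x y}, (stg v z).Adj x y → (x ∈ New1 ∧ ∃ k, y = v k) ∨ (y ∈ New1 ∧ ∃ k, x = v k) :=
        fun h => X4_stg (P := fun x y => (x ∈ New1 ∧ ∃ k, y = v k) ∨ (y ∈ New1 ∧ ∃ k, x = v k))
          (fun _ _ h => h.symm) (fun k => Or.inr ⟨hz1 _, k, rfl⟩)
          (fun k => Or.inr ⟨hz1 _, k, rfl⟩) h
      have a3 : ∀ {x y}, (wk v).Adj x y → (∃ k, x = v k) ∧ (∃ k, y = v k) := fun h =>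
        X4_wk (P := fun x y => (∃ k, x = v k) ∧ (∃ k, y = v k)) (fun _ _ h => h.symm)
          (fun k => ⟨⟨k, rfl⟩, ⟨_, rfl⟩⟩) h
      have a4 : ∀ {x y}, A2.Adj x y → (x ∈ New2 ∨ y ∈ New2) ∧ (x ∈ New2 ∨ x ∈ New1) ∧
          (y ∈ New2 ∨ y ∈ New1) := by
        intro x y h
        obtain ⟨h1, h2, h3⟩ := hA2e x y h
        refine ⟨h1, ?_, ?_⟩
        · rcases h2 with h2 | ⟨k, rfl⟩
          · exact Or.inl h2
          · exact Or.inr (hv2N k)
        · rcases h3 with h3 | ⟨k, rfl⟩
          · exact Or.inl h3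
          · exact Or.inr (hv2N k)
      have a5 : ∀ {x y}, D.Adj x y → x ∈ New1 ∧ y ∈ New1 := by
        intro x y h
        apply a1
        rw [hzD]
        exact Or.inl h
      have a6 : ∀ {x y}, (wk v2).Adj x y → x ∈ New1 ∧ y ∈ New1 := by
        intro x y h
        apply a1
        rw [hzD]
        exact Or.inr h
      have hvN : ∀ k, v k ∉ New1 ∧ v k ∉ New2 := fun k =>
        ⟨fun h => hN1U _ h (hvU k), fun h => hN2U _ h (hvU k)⟩
      refine ⟨stg v z ⊔ wk z ⊔ A2, New1 ∪ New2, ?_, ?_, ?_, ?_, ?_, ?_⟩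
      · refine (card_union_le _ _).trans ?_
        omega
      · rw [disjoint_left]
        intro x hx
        rcases mem_union.1 hx with h | h
        · exact hN1U x h
        · exact hN2U x h
      · refine sup_le (sup_le ?_ ?_) hA2G
        · intro x y h
          exact X4_stg (P := fun x y => G.Adj x y) (fun _ _ h => h.symm) e1 e2 h
        · intro x y h
          exact X4_wk (P := fun x y => G.Adj x y) (fun _ _ h => h.symm) e3 h
      · intro x y hxy
        rcases hxy with (h | h) | h
        · rcases a2 h with ⟨h1, h2⟩ | ⟨h1, h2⟩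
          · exact ⟨Or.inl (mem_union_left _ h1), Or.inl (mem_union_left _ h1), Or.inr h2⟩
          · exact ⟨Or.inr (mem_union_left _ h1), Or.inr h2, Or.inl (mem_union_left _ h1)⟩
        · obtain ⟨h1, h2⟩ := a1 h
          exact ⟨Or.inl (mem_union_left _ h1), Or.inl (mem_union_left _ h1),
            Or.inl (mem_union_left _ h2)⟩
        · obtain ⟨h1, h2, h3⟩ := a4 h
          refine ⟨?_, ?_, ?_⟩
          · rcases h1 with h1 | h1
            · exact Or.inl (mem_union_right _ h1)
            · exact Or.inr (mem_union_right _ h1)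
          · rcases h2 with h2 | h2
            · exact Or.inl (mem_union_right _ h2)
            · exact Or.inl (mem_union_left _ h2)
          · rcases h3 with h3 | h3
            · exact Or.inl (mem_union_right _ h3)
            · exact Or.inl (mem_union_left _ h3)
      · -- `A` is decomposable
        have hd2 : Dec (stg v z ⊔ wk z) := by rw [← hC2]; exact hT2.dec
        refine hd2.sup hDA2 ?_
        rw [SimpleGraph.disjoint_left]
        intro x y h1 h2
        have hx : x ∉ New2 ∧ y ∉ New2 := by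
          rcases h1 with h | h
          · rcases a2 h with ⟨h3, k, rfl⟩ | ⟨h3, k, rfl⟩
            · exact ⟨fun h => hN21 _ h h3, (hvN k).2⟩
            · exact ⟨(hvN k).2, fun h => hN21 _ h h3⟩
          · obtain ⟨h3, h4⟩ := a1 h
            exact ⟨fun h => hN21 _ h h3, fun h => hN21 _ h h4⟩
        rcases (a4 h2).1 with h | h
        · exact hx.1 h
        · exact hx.2 h
      · -- `A ⊔ wk v` is decomposable
        have hd1 : Dec (wk v ⊔ stg v z) := by rw [← hC1]; exact hT1.dec
        have hd3 : Dec (D ⊔ (A2 ⊔ wk v2)) := by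
          refine hD.sup hDA2v ?_
          rw [SimpleGraph.disjoint_left]
          intro x y h1 h2
          obtain ⟨h3, h4⟩ := a5 h1
          rcases h2 with h2 | h2
          · rcases (a4 h2).1 with h | h
            · exact hN21 _ h h3
            · exact hN21 _ h h4
          · exact SimpleGraph.disjoint_left.1 hDd x y h1 h2
        have hd4 : Dec ((wk v ⊔ stg v z) ⊔ (D ⊔ (A2 ⊔ wk v2))) := by
          refine hd1.sup hd3 ?_
          rw [SimpleGraph.disjoint_left]
          intro x y h1 h2
          have h3 : (x ∈ New1 ∨ x ∈ New2) ∧ (y ∈ New1 ∨ y ∈ New2) := by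
            rcases h2 with h2 | h2 | h2
            · exact ⟨Or.inl (a5 h2).1, Or.inl (a5 h2).2⟩
            · exact ⟨(a4 h2).2.1.symm, (a4 h2).2.2.symm⟩
            · exact ⟨Or.inl (a6 h2).1, Or.inl (a6 h2).2⟩
          have h4 : (∃ k, x = v k) ∨ (∃ k, y = v k) := by
            rcases h1 with h | h
            · exact Or.inl (a3 h).1
            · rcases a2 h with h | h
              · exact Or.inr h.2
              · exact Or.inl h.2
          rcases h4 with ⟨k, rfl⟩ | ⟨k, rfl⟩
          · rcases h3.1 with h | h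
            · exact (hvN k).1 h
            · exact (hvN k).2 h
          · rcases h3.2 with h | h
            · exact (hvN k).1 h
            · exact (hvN k).2 h
        have e : (wk v ⊔ stg v z) ⊔ (D ⊔ (A2 ⊔ wk v2)) = stg v z ⊔ wk z ⊔ A2 ⊔ wk v := by
          rw [hzD]
          ext x y
          simp only [SimpleGraph.sup_adj]
          tauto
        rw [← e]
        exact hd4

end DH
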