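import Pool.Agent.Lib.MP_fe8cb7_co.h77.StX

/-!
# Daykin-Haggkvist problem: [X5] absorbers for a finite set of cycles, [X6] common neighbours of four vertices
-/

open Finset

namespace DH

/-- the vertices of a cycle within `U2` -/
theorem cyc_mem {V : Type} {l : ℕ} (hl : 1 ≤ l) {v : ZMod (3 * l) → V} (hv : Function.Injective v)
    {U2 : Finset V} (hW : Within (wk v) U2) (k : ZMod (3 * l)) : v k ∈ U2 := by
  have h1 : (1 : ZMod (3 * l)) ≠ 0 := by
    intro h
    have h2 := (ZMod.natCast_eq_zero_iff 1 (3 * l)).1 (by exact_mod_cast h)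
    have h3 := Nat.le_of_dvd (by norm_num) h2
    omega
  have hadj : (wk v).Adj (v k) (v (k + 1)) := by
    unfold wk
    rw [SimpleGraph.fromRel_adj]
    refine ⟨fun h => h1 ?_, Or.inl ⟨k, rfl, rfl⟩⟩
    have := hv h
    simpa using this.symm
  exact (hW _ _ hadj).1

theorem cyc_card {V : Type} {l : ℕ} (hl : 1 ≤ l) {v : ZMod (3 * l) → V} (hv : Function.Injective v)
    {U2 : Finset V} (hW : Within (wk v) U2) : 3 * l ≤ U2.card := by
  classical
  have : NeZero (3 * l) := ⟨by omega⟩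
  have h := card_le_card_of_injOn (s := (univ : Finset (ZMod (3 * l)))) (t := U2) v
    (fun k _ => cyc_mem hl hv hW k) (hv.injOn)
  rwa [card_univ, ZMod.card] at h

theorem p_X5 : S_X5 := by
  classical
  intro A0 X1 X2 X3 X4 V _ _ π G U1 U2 M 𝓢
  induction 𝓢 using Finset.induction_on with
  | empty =>
    intro _ _ _ _
    exact ⟨fun _ => ⊥, ∅, by simp, by simp, fun W h => absurd h (notMem_empty _),
      fun W h => absurd h (notMem_empty _)⟩
  | insert W 𝓢' hW ih =>
    intro hcyc hU hFour hM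
    rw [card_insert_of_notMem hW] at hM
    obtain ⟨abs, New, hN1, hN2, h3, h4⟩ := ih (fun W' h => hcyc W' (mem_insert_of_mem h)) hU hFour
      (lt_of_le_of_lt (Nat.mul_le_mul_right _ (by omega)) hM)
    obtain ⟨⟨l, hl, v, hv, hπ, hWv⟩, hc2⟩ := hcyc W (mem_insert_self _ _)
    rw [hWv] at hc2
    have hcard := cyc_card hl hv hc2
    have hsq : 3 * l ^ 2 ≤ U2.card ^ 2 := by
      have e1 : (3 * l) ^ 2 ≤ U2.card ^ 2 := Nat.pow_le_pow_left hcard 2
      have e2 : (3 * l) ^ 2 = 9 * l ^ 2 := by ring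
      omega
    have e : (𝓢'.card + 1) * (U2.card ^ 2 + 1) =
        𝓢'.card * (U2.card ^ 2 + 1) + (U2.card ^ 2 + 1) := by ring
    have hM' : New.card + 3 * l ^ 2 < M := by
      refine lt_of_le_of_lt ?_ hM
      have : (𝓢'.card + 1 + 1) * (U2.card ^ 2 + 1) =
        𝓢'.card * (U2.card ^ 2 + 1) + (U2.card ^ 2 + 1) + (U2.card ^ 2 + 1) := by ring
      omega
    obtain ⟨A, Nw, a1, a2, a3, a4, a5, a6⟩ := X4 A0 X1 X2 X3 V π G U1 M l hl hFour New v
      (fun k => mem_union_left _ (hU (cyc_mem hl hv hc2 k))) hv hπ hM'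
    rw [← hWv] at a6
    have hne : ∀ W' ∈ 𝓢', W' ≠ W := fun W' h h' => hW (h' ▸ h)
    have ends : ∀ x y, A.Adj x y → (x ∈ Nw ∨ y ∈ Nw) ∧ (x ∈ Nw ∨ x ∈ U2) ∧ (y ∈ Nw ∨ y ∈ U2) := by
      intro x y hxy
      obtain ⟨g1, g2, g3⟩ := a4 x y hxy
      refine ⟨g1, ?_, ?_⟩
      · rcases g2 with g | ⟨k, rfl⟩
        · exact Or.inl g
        · exact Or.inr (cyc_mem hl hv hc2 k)
      · rcases g3 with g | ⟨k, rfl⟩
        · exact Or.inl g
        · exact Or.inr (cyc_mem hl hv hc2 k)
    have key : ∀ W' ∈ 𝓢', Disjoint A (abs W') := by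
      intro W' hW'
      rw [SimpleGraph.disjoint_left]
      intro x y h1 h2
      obtain ⟨g1, _, _⟩ := ends x y h1
      obtain ⟨_, g2, g3⟩ := (h3 W' hW').2.2.2 x y h2
      have hd : ∀ u ∈ Nw, u ∉ New ∪ U2 := by
        intro u hu hu'
        have := disjoint_left.1 a2 hu
        apply this
        rw [mem_union] at hu' ⊢
        rcases hu' with h | h
        · exact Or.inr h
        · exact Or.inl (hU h)
      rcases g1 with g | g
      · exact hd x g g2
      · exact hd y g g3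
    obtain ⟨abs', hu1, hu2⟩ : ∃ abs' : SimpleGraph V → SimpleGraph V,
        abs' W = A ∧ ∀ W' ∈ 𝓢', abs' W' = abs W' :=
      ⟨fun W' => if W' = W then A else abs W', if_pos rfl, fun W' h => if_neg (hne W' h)⟩
    refine ⟨abs', New ∪ Nw, ?_, ?_, ?_, ?_⟩
    · rw [card_insert_of_notMem hW]
      refine (card_union_le _ _).trans ?_
      omega
    · rw [disjoint_union_left]
      refine ⟨hN2, ?_⟩
      exact (disjoint_union_right.1 a2).1
    · intro W' hW'
      rcases mem_insert.1 hW' with h | h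
      · rw [h, hu1]
        refine ⟨a3, a5, a6, fun x y hxy => ?_⟩
        obtain ⟨g1, g2, g3⟩ := ends x y hxy
        simp only [mem_union]
        tauto
      · rw [hu2 W' h]
        obtain ⟨k1, k2, k3, k4⟩ := h3 W' h
        refine ⟨k1, k2, k3, fun x y hxy => ?_⟩
        obtain ⟨g1, g2, g3⟩ := k4 x y hxy
        simp only [mem_union] at g2 g3 ⊢
        tauto
    · clear a1 a2 a3 a4 a5 a6 hM hM' ih hsq e hcard ends hc2 hWv
      intro W1 h1 W2 h2 h12
      rcases mem_insert.1 h1 with h | h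
      · rcases mem_insert.1 h2 with h' | h'
        · exact absurd (h.trans h'.symm) h12
        · rw [h, hu1, hu2 W2 h']
          exact key W2 h'
      · rcases mem_insert.1 h2 with h' | h'
        · rw [h', hu1, hu2 W1 h]
          exact (key W1 h).symm
        · rw [hu2 W1 h, hu2 W2 h']
          exact h4 W1 h W2 h' h12

theorem p_X6 : S_X6 := by
  intro α K M hα hK
  refine ⟨8 * M, ?_⟩
  intro V _ _ π G U1 n hn hV hU hdeg X i hX hXi
  classical
  set Bd : Finset V := X.biUnion (fun x => (pt π univ i) \ nb G x (pt π univ i)) with hBd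
  refine ⟨(pt π univ i \ pt π U1 i) \ Bd, ?_, ?_⟩
  · -- the cardinality
    have hnn : (0 : ℝ) ≤ n := Nat.cast_nonneg n
    have h1 : (Bd.card : ℝ) ≤ (X.card : ℝ) * (α * n) := by
      have h2 : (Bd.card : ℝ) ≤ ∑ x ∈ X, (((pt π univ i) \ nb G x (pt π univ i)).card : ℝ) := by
        exact_mod_cast card_biUnion_le
      refine h2.trans ?_
      have h3 : ∀ x ∈ X, (((pt π univ i) \ nb G x (pt π univ i)).card : ℝ) ≤ α * n := by
        intro x hx
        have h4 := card_sdiff_add_card_inter (pt π univ i) (nb G x (pt π univ i))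
        have h5 : pt π univ i ∩ nb G x (pt π univ i) = nb G x (pt π univ i) :=
          inter_eq_right.2 (nb_subset x)
        rw [h5, hV i] at h4
        have h6 : ((pt π univ i \ nb G x (pt π univ i)).card : ℝ)
            + ((nb G x (pt π univ i)).card : ℝ) = n := by exact_mod_cast h4
        have h7 := hdeg x i (hXi x hx).symm
        rw [dg] at h7
        linarith
      calc ∑ x ∈ X, (((pt π univ i) \ nb G x (pt π univ i)).card : ℝ) ≤ ∑ x ∈ X, α * n :=
            sum_le_sum h3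
        _ = (X.card : ℝ) * (α * n) := by rw [sum_const, nsmul_eq_mul]
    have h8 : (X.card : ℝ) * (α * n) ≤ 3 / 4 * n := by
      have h9 : (X.card : ℝ) ≤ 4 := by exact_mod_cast hX
      have h10 : (0 : ℝ) ≤ X.card := Nat.cast_nonneg _
      rcases le_total 0 α with h0 | h0
      · calc (X.card : ℝ) * (α * n) ≤ 4 * (3 / 16 * n) := by
              gcongr
          _ = 3 / 4 * n := by ring
      · have : (X.card : ℝ) * (α * n) ≤ 0 :=
          mul_nonpos_of_nonneg_of_nonpos h10 (mul_nonpos_of_nonpos_of_nonneg h0 hnn)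
        have h11 : (0 : ℝ) ≤ 3 / 4 * n := by positivity
        linarith
    have h12 : (pt π univ i).card ≤ ((pt π univ i \ pt π U1 i) \ Bd).card
        + (pt π U1 i).card + Bd.card := by
      have h13 := le_card_sdiff (pt π U1 i) (pt π univ i)
      have h14 := le_card_sdiff Bd (pt π univ i \ pt π U1 i)
      omega
    rw [hV i, hU i] at h12
    have h15 : (n / K : ℕ) ≤ n / 8 := Nat.div_le_div_left hK (by norm_num)
    have h16 : n ≤ ((pt π univ i \ pt π U1 i) \ Bd).card + n / 8 + Bd.card := by omega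
    have h17 : (n : ℝ) ≤ (((pt π univ i \ pt π U1 i) \ Bd).card : ℝ) + ((n / 8 : ℕ) : ℝ)
        + (Bd.card : ℝ) := by exact_mod_cast h16
    have h18 : ((n / 8 : ℕ) : ℝ) ≤ n / 8 := by
      have := @Nat.cast_div_le ℝ _ _ _ n 8
      simpa using this
    have h19 : (8 * M : ℝ) ≤ n := by exact_mod_cast hn
    have h20 : (M : ℝ) ≤ (((pt π univ i \ pt π U1 i) \ Bd).card : ℝ) := by linarith
    exact_mod_cast h20
  · intro y hy
    obtain ⟨h1, h2⟩ := mem_sdiff.1 hy
    obtain ⟨h3, h4⟩ := mem_sdiff.1 h1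
    have hyi : π y = i := (mem_pt.1 h3).2
    refine ⟨hyi, fun hyU => h4 (mem_pt.2 ⟨hyU, hyi⟩), fun x hx => ?_⟩
    by_contra hadj
    refine h2 (mem_biUnion.2 ⟨x, hx, mem_sdiff.2 ⟨h3, fun h5 => hadj ?_⟩⟩)
    exact (mem_nb.1 h5).2

end DH
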