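import Pool.Agent.Lib.MP_fe8cb7_co.h77.StX
import Pool.Agent.Lib.MP_fe8cb7_co.h25.P_M3

/-!
# Daykin-Haggkvist problem, bound `3/16`: assembly of the theorem on graphs
-/

open Finset

namespace DH

theorem p_X7 : S_X7 := by
  intro hCol hV1 hV2 hM1 hA0 hX1 hX2 hX3 hX4 hX5 hX6 hA6 hA7 c hc hCD α hα
  classical
  set η : ℝ := (c - α) / 10 with hη
  have hη0 : 0 < η := by rw [hη]; linarith
  obtain ⟨K, hK, γ0, γ1, hγ0, hγ01, hγ1, N0, hCDK⟩ := hCD η hη0
  set δ : ℝ := min η (γ0 / 4) with hδ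
  have hδ0 : 0 < δ := lt_min hη0 (by linarith)
  have hδ1 : δ ≤ η := min_le_left _ _
  have hδ2 : δ ≤ γ0 / 4 := min_le_right _ _
  obtain ⟨N1, hV⟩ := hV2 hCol hV1 K hK δ hδ0
  set N2 : ℕ := max (max N0 N1) 1 with hN2
  have hN20 : N0 ≤ N2 := le_trans (le_max_left _ _) (le_max_left _ _)
  have hN21 : N1 ≤ N2 := le_trans (le_max_right _ _) (le_max_left _ _)
  have hN22 : 1 ≤ N2 := le_max_right _ _
  set B : ℕ := 3 * (K * N2) with hB
  set M : ℕ := (2 ^ (B ^ 2) + 1) * (B ^ 2 + 1) + 1 with hM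
  have hα7 : α < 3 / 16 := lt_of_lt_of_le hα hc
  obtain ⟨n1, hn1⟩ := hX6 α K M hα7 hK
  set τ : ℝ := min η (γ0 / 2) with hτ
  have hτ0 : 0 < τ := lt_min hη0 (by linarith)
  obtain ⟨R, hR⟩ := exists_nat_ge ((M : ℝ) / τ)
  have hMR : (M : ℝ) ≤ τ * R := by
    rw [div_le_iff₀ hτ0] at hR
    linarith
  refine ⟨max n1 (max (K ^ 3 * N2) (K ^ 2 * R)), ?_⟩
  intro V _ _ π G n hn hEq hTri hBal hdeg
  have hn1' : n1 ≤ n := le_trans (le_max_left _ _) hn
  have hn2' : K ^ 3 * N2 ≤ n := le_trans (le_trans (le_max_left _ _) (le_max_right _ _)) hn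
  have hn3' : K ^ 2 * R ≤ n := le_trans (le_trans (le_max_right _ _) (le_max_right _ _)) hn
  have hK3 : 0 < K ^ 3 := by positivity
  have hK2 : 0 < K ^ 2 := by positivity
  obtain ⟨l, hl3, hlN, hlB⟩ := M3_level (K := K) (N2 := N2) (n := n) (by omega) hN22
    ((Nat.le_div_iff_mul_le hK3).2 (by rw [mul_comm]; exact hn2'))
  have hRn : R ≤ n / K ^ 2 := (Nat.le_div_iff_mul_le hK2).2 (by rw [mul_comm]; exact hn3')
  obtain ⟨U, hU0, hUs, hUe, hUz, hUd⟩ := hV V π G n l hEq (le_trans hN21 hlN)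
  have hanti : ∀ {i j : ℕ}, i ≤ j → U j ⊆ U i := fun h => M3_anti hUs h
  -- positivity of the sizes
  have hnj : ∀ j ≤ l, (0 : ℝ) < ((n / K ^ j : ℕ) : ℝ) := by
    intro j hj
    have h1 : n / K ^ l ≤ n / K ^ j :=
      Nat.div_le_div_left (Nat.pow_le_pow_right (by omega) hj) (by positivity)
    have h2 : 0 < n / K ^ j := by omega
    exact_mod_cast h2
  have hn0 : (0 : ℝ) < n := by
    have := hnj 0 (by omega)
    simpa using this
  -- the set of cycles
  set S : Finset (SimpleGraph V) := (Set.toFinite {W | IsCyc π W ∧ Within W (U l)}).toFinset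
    with hS
  have hSmem : ∀ W, W ∈ S ↔ IsCyc π W ∧ Within W (U l) := by
    intro W
    rw [hS, Set.Finite.mem_toFinset, Set.mem_ofPred_eq]
  have hUcard : (U l).card ≤ B := by
    rw [M3_card (hUe l le_rfl), hB]
    exact Nat.mul_le_mul_left 3 hlB.le
  have hScard : S.card ≤ 2 ^ (B ^ 2) := by
    refine le_trans (M3_scard (U l) S fun W hW => ((hSmem W).1 hW).2) ?_
    exact Nat.pow_le_pow_right (by norm_num) (Nat.pow_le_pow_left hUcard 2)
  have hUcard2 : (U l).card ^ 2 ≤ B ^ 2 := Nat.pow_le_pow_left hUcard 2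
  have hMbig : (S.card + 1) * ((U l).card ^ 2 + 1) < M := by
    rw [hM]
    exact Nat.lt_succ_of_le (Nat.mul_le_mul (Nat.succ_le_succ hScard) (Nat.succ_le_succ hUcard2))
  have hSix : Four π G (U 1) M := by
    refine hn1 V π G (U 1) n hn1' hEq ?_ hdeg
    have := hUe 1 (by omega)
    rwa [pow_one] at this
  have hl1 : U l ⊆ U 1 := hanti (by omega)
  obtain ⟨abs, New, hNc, hNd, habs, hdis⟩ := hX5 hA0 hX1 hX2 hX3 hX4 V π G (U 1) (U l) M S
    (fun W hW => (hSmem W).1 hW) hl1 hSix hMbig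
  set A := M3_uni S abs with hA
  have hAle : A ≤ G := by
    rintro x y ⟨W, hW, h⟩
    exact (habs W hW).1 h
  have hd1 : ∀ W ∈ S, ∀ W' ∈ S, Disjoint (abs W) W' := by
    intro W hW W' hW'
    rw [SimpleGraph.disjoint_left]
    intro x y h1 h2
    obtain ⟨h3, -, -⟩ := (habs W hW).2.2.2 x y h1
    obtain ⟨h4, h5⟩ := ((hSmem W').1 hW').2 x y h2
    rcases h3 with h3 | h3
    · exact disjoint_left.1 hNd h3 (hl1 h4)
    · exact disjoint_left.1 hNd h3 (hl1 h5)
  have hAdec : Dec A := by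
    refine hA7 V abs S ∅ A (empty_subset _)
      (fun W hW => ⟨(habs W hW).2.1, (habs W hW).2.2.1⟩) hdis hd1 ?_ ?_
    · intro W hW
      exact absurd hW (notMem_empty W)
    · intro x y
      constructor
      · intro h
        exact Or.inr h
      · rintro (⟨W, hW, -⟩ | h)
        · exact absurd hW (notMem_empty W)
        · exact h
  have hAbal : Bal π A univ := hAdec.bal (hTri.mono hAle)
  -- degrees of `A`
  have hAdeg : ∀ (v : V) (X : Finset V), dg A v X ≤ M := by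
    intro v X
    have h1 : nb A v X ⊆ New ∪ U l := by
      intro w hw
      obtain ⟨W, hW, h⟩ := (mem_nb.1 hw).2
      exact ((habs W hW).2.2.2 v w h).2.2
    have h2 : dg A v X ≤ New.card + (U l).card := le_trans (card_le_card h1) (card_union_le _ _)
    have h3 : New.card + (U l).card ≤ (S.card + 1) * ((U l).card ^ 2 + 1) := by
      rw [add_mul, one_mul]
      have h4 : (U l).card ≤ (U l).card ^ 2 := Nat.le_self_pow (by norm_num) _
      omega
    omega
  have hAzero : ∀ j, 3 ≤ j → ∀ v ∈ U (j - 2), ∀ i, dg A v (pt π (U j) i) = 0 := by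
    intro j hj v hv i
    rw [dg, card_eq_zero, eq_empty_iff_forall_notMem]
    intro w hw
    obtain ⟨W, hW, h⟩ := (mem_nb.1 hw).2
    have h1 : v ∈ U 1 := hanti (by omega) hv
    have h2 : w ∈ U 1 := hanti (by omega) (pt_subset i (mem_nb.1 hw).1)
    rcases ((habs W hW).2.2.2 v w h).1 with h3 | h3
    · exact disjoint_left.1 hNd h3 h1
    · exact disjoint_left.1 hNd h3 h2
  have hMj : ∀ j, j ≤ 2 → (M : ℝ) ≤ τ * ((n / K ^ j : ℕ) : ℝ) := by
    intro j hj
    have h1 : n / K ^ 2 ≤ n / K ^ j :=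
      Nat.div_le_div_left (Nat.pow_le_pow_right (by omega) hj) (by positivity)
    have h2 : (R : ℝ) ≤ ((n / K ^ j : ℕ) : ℝ) := by exact_mod_cast le_trans hRn h1
    exact le_trans hMR (mul_le_mul_of_nonneg_left h2 hτ0.le)
  have hAsmall : ∀ j ≤ l, ∀ v ∈ U (j - 2), ∀ i,
      (dg A v (pt π (U j) i) : ℝ) ≤ τ * ((n / K ^ j : ℕ) : ℝ) := by
    intro j hj v hv i
    rcases Nat.lt_or_ge j 3 with h | h
    · refine le_trans ?_ (hMj j (by omega))
      exact_mod_cast hAdeg v _
    · rw [hAzero j h v hv i, Nat.cast_zero]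
      exact (mul_pos hτ0 (hnj j hj)).le
  have hG0dg : ∀ (v : V) (X : Finset V), (dg (G \ A) v X : ℝ) = (dg G v X : ℝ) - dg A v X := by
    intro v X
    have := dg_sdiff (S := X) hAle v
    rw [← this]
    push_cast
    ring
  -- iteration
  have hM1' := hM1 c η γ0 γ1 K N2 l n V π (G \ A) U hη0 hK hγ0 hγ01 hγ1 hN22
    (fun G' A' A1 A2 N N1' N2' h1 h2 h3 => hCDK V π G' A' A1 A2 N N1' N2'
      (fun h => le_trans hN20 (h1 h)) (fun h => le_trans hN20 (h2 h)) h3)
    hU0 hUs hUe hUz hlN (hTri.mono sdiff_le)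
    (fun v => by rw [imb_sdiff hAle, hBal v, hAbal v, sub_zero])
    (by
      intro j hj v hv i hi
      have h1 := hUd j hj v hv i
      have h2 := hdeg v i hi
      have h3 := hAsmall j hj v hv i
      have h4 := hnj j hj
      rw [hG0dg]
      have h5 : 1 - α ≤ (dg G v (pt π univ i) : ℝ) / n := by
        rw [le_div_iff₀ hn0]
        exact h2
      have h6 := (abs_le.1 h1).1
      have h7 : 1 - α - δ ≤ (dg G v (pt π (U j) i) : ℝ) / ((n / K ^ j : ℕ) : ℝ) := by linarith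
      rw [le_div_iff₀ h4] at h7
      have h8 : τ ≤ η := min_le_left _ _
      have h9 : c - α = 10 * η := by rw [hη]; ring
      have h10 : (1 - c + 3 * η) * ((n / K ^ j : ℕ) : ℝ) ≤
          (1 - α - δ - τ) * ((n / K ^ j : ℕ) : ℝ) := by
        refine mul_le_mul_of_nonneg_right ?_ h4.le
        linarith
      have h11 : (1 - α - δ - τ) * ((n / K ^ j : ℕ) : ℝ) =
        (1 - α - δ) * ((n / K ^ j : ℕ) : ℝ) - τ * ((n / K ^ j : ℕ) : ℝ) := by ring
      linarith)
    (by
      intro j hj v hv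
      have h4 := hnj j hj
      have h1 := hUd j hj v hv (π v + 1)
      have h1' := hUd j hj v hv (π v - 1)
      have h3 := hAsmall j hj v hv (π v + 1)
      have h3' := hAsmall j hj v hv (π v - 1)
      have hb : (dg G v (pt π univ (π v + 1)) : ℝ) = dg G v (pt π univ (π v - 1)) := by
        have := hBal v
        rw [imb, sub_eq_zero] at this
        exact_mod_cast this
      rw [hb] at h1
      have h5 : |(dg G v (pt π (U j) (π v + 1)) : ℝ) - dg G v (pt π (U j) (π v - 1))| ≤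
          2 * δ * ((n / K ^ j : ℕ) : ℝ) := by
        have h6 : |(dg G v (pt π (U j) (π v + 1)) : ℝ) / ((n / K ^ j : ℕ) : ℝ) -
            (dg G v (pt π (U j) (π v - 1)) : ℝ) / ((n / K ^ j : ℕ) : ℝ)| ≤ 2 * δ := by
          rw [abs_le] at h1 h1' ⊢
          constructor <;> linarith [h1.1, h1.2, h1'.1, h1'.2]
        rw [← sub_div, abs_div, abs_of_pos h4, div_le_iff₀ h4] at h6
        exact h6
      have h8 : τ ≤ γ0 / 2 := min_le_right _ _
      have h9 : (imb π (G \ A) (U j) v : ℝ) =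
          ((dg G v (pt π (U j) (π v + 1)) : ℝ) - dg G v (pt π (U j) (π v - 1))) -
          ((dg A v (pt π (U j) (π v + 1)) : ℝ) - dg A v (pt π (U j) (π v - 1))) := by
        rw [imb]
        push_cast
        rw [hG0dg, hG0dg]
        ring
      have h10 : |(dg A v (pt π (U j) (π v + 1)) : ℝ) - dg A v (pt π (U j) (π v - 1))| ≤
          τ * ((n / K ^ j : ℕ) : ℝ) := by
        have e1 : (0 : ℝ) ≤ dg A v (pt π (U j) (π v + 1)) := Nat.cast_nonneg _
        have e2 : (0 : ℝ) ≤ dg A v (pt π (U j) (π v - 1)) := Nat.cast_nonneg _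
        rw [abs_le]
        constructor <;> linarith
      rw [h9]
      refine (abs_sub _ _).trans ?_
      have h11 : 2 * δ * ((n / K ^ j : ℕ) : ℝ) + τ * ((n / K ^ j : ℕ) : ℝ) ≤
          γ0 * ((n / K ^ j : ℕ) : ℝ) := by
        rw [← add_mul]
        refine mul_le_mul_of_nonneg_right ?_ h4.le
        linarith
      linarith)
  obtain ⟨T, hT, hcov⟩ := hM1'
  exact M3_final hA6 hA7 hTri hBal hSmem hl1 hNd habs hdis hAle hAbal hT hcov

end DH
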