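import Pool.Agent.Lib.MP_fe8cb7_co.h77.StX
import Pool.Agent.Lib.MP_fe8cb7_co.h25.P_R2

/-!
# Daykin-Haggkvist problem: [X9] adding a directed path of length 2, 3 or 4, minimum degree `0.75 N`
-/

open Finset

namespace DH

/-- one step -/
lemma X9_one (hR1 : S_R1) {V : Type} [Fintype V] [DecidableEq V] {π : V → ZMod 3}
    {G F : SimpleGraph V} {Bd : Finset V} {N : ℕ} (x : V) (hN : 0 < N) (hT : Tri π G)
    (hG : ∀ v : V, ∀ i : ZMod 3, i ≠ π v → (0.75 : ℝ) * N ≤ dg G v (pt π univ i))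
    (hF : F ≤ G) (hd : ∀ v, (dg F v univ : ℝ) ≤ 0.12 * N) (hBd : (Bd.card : ℝ) ≤ 0.15 * N) :
    ∃ (a : V) (F1 : SimpleGraph V), π a = π x + 1 ∧ a ∉ Bd ∧ F ≤ F1 ∧ F1 ≤ G ∧
      (∀ v, imb π F1 univ v = imb π F univ v + (if v = x then 1 else 0) - (if v = a then 1 else 0)) ∧
      (∀ v, dg F1 v univ = dg F v univ + (if v = x then 1 else 0) + (if v = a then 1 else 0)) := by
  have hN' : (0 : ℝ) < N := by exact_mod_cast hN
  obtain ⟨a, ha1, ha2⟩ : ∃ a ∈ nb G x (pt π univ (π x + 1)), a ∉ Bd ∪ nb F x univ := by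
    by_contra hcon
    push Not at hcon
    have h1 : nb G x (pt π univ (π x + 1)) ⊆ Bd ∪ nb F x univ := fun a ha => hcon a ha
    have h2 : (nb G x (pt π univ (π x + 1))).card ≤ Bd.card + (nb F x univ).card :=
      (card_le_card h1).trans (card_union_le _ _)
    have h3 : ((nb G x (pt π univ (π x + 1))).card : ℝ) ≤ Bd.card + (nb F x univ).card := by
      exact_mod_cast h2
    have h4 := hG x (π x + 1) (zmod3_ne1 _)
    have h5 := hd x
    rw [dg] at h4 h5
    linarith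
  rw [mem_union, not_or] at ha2
  have hadj : G.Adj x a := (mem_nb.1 ha1).2
  have hpa : π a = π x + 1 := (mem_pt.1 (mem_nb.1 ha1).1).2
  have hnF : ¬ F.Adj x a := fun h => ha2.2 (mem_nb.2 ⟨mem_univ _, h⟩)
  obtain ⟨F1, h1, h2, h3, h4, h5⟩ := hR1 V π G F x a hT hF hadj hpa hnF
  exact ⟨a, F1, hpa, ha2.1, h1, h2, h3, h4⟩

/-- case (i) -/
lemma X9_two (hR1 : S_R1) {V : Type} [Fintype V] [DecidableEq V] {π : V → ZMod 3}
    {G F : SimpleGraph V} {Bd : Finset V} {N : ℕ} (x y : V) (hN : 0 < N) (hE : Eq3 π univ N)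
    (hT : Tri π G)
    (hG : ∀ v : V, ∀ i : ZMod 3, i ≠ π v → (0.75 : ℝ) * N ≤ dg G v (pt π univ i))
    (hF : F ≤ G) (hd : ∀ v, (dg F v univ : ℝ) ≤ 0.12 * N) (hBd : (Bd.card : ℝ) ≤ 0.15 * N)
    (hxy : π y = π x - 1) : R2_P π G F Bd x y 1 := by
  have hN' : (0 : ℝ) < N := by exact_mod_cast hN
  have hz1 : π x + 1 ≠ π y := by rw [hxy]; exact zmod3_ne3 _
  obtain ⟨a, ha1, ha1', ha2⟩ : ∃ a ∈ nb G x (pt π univ (π x + 1)),
      a ∈ nb G y (pt π univ (π x + 1)) ∧ a ∉ Bd ∪ (nb F x univ ∪ nb F y univ) := by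
    by_contra hcon
    push Not at hcon
    have h1 : nb G x (pt π univ (π x + 1)) ∩ nb G y (pt π univ (π x + 1)) ⊆
        Bd ∪ (nb F x univ ∪ nb F y univ) := fun a ha =>
          hcon a (mem_inter.1 ha).1 (mem_inter.1 ha).2
    have h2 : (nb G x (pt π univ (π x + 1)) ∩ nb G y (pt π univ (π x + 1))).card ≤
        Bd.card + ((nb F x univ).card + (nb F y univ).card) := by
      refine (card_le_card h1).trans ((card_union_le _ _).trans ?_)
      have := card_union_le (nb F x univ) (nb F y univ)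
      omega
    have h3 : (nb G x (pt π univ (π x + 1)) ∪ nb G y (pt π univ (π x + 1))).card ≤ N := by
      rw [← hE (π x + 1)]
      exact card_le_card (union_subset (nb_subset _) (nb_subset _))
    have h4 := card_union_add_card_inter (nb G x (pt π univ (π x + 1)))
      (nb G y (pt π univ (π x + 1)))
    have h5 : ((nb G x (pt π univ (π x + 1))).card : ℝ) + (nb G y (pt π univ (π x + 1))).card ≤
        N + (Bd.card + ((nb F x univ).card + (nb F y univ).card)) := by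
      have : (nb G x (pt π univ (π x + 1))).card + (nb G y (pt π univ (π x + 1))).card ≤
        N + (Bd.card + ((nb F x univ).card + (nb F y univ).card)) := by omega
      exact_mod_cast this
    have h6 := hG x (π x + 1) (zmod3_ne1 _)
    have h7 := hG y (π x + 1) hz1
    have h8 := hd x
    have h9 := hd y
    rw [dg] at h6 h7 h8 h9
    linarith
  rw [mem_union, mem_union, not_or, not_or] at ha2
  obtain ⟨ha2, ha3, ha4⟩ := ha2
  have hadj : G.Adj x a := (mem_nb.1 ha1).2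
  have hadj' : G.Adj a y := (mem_nb.1 ha1').2.symm
  have hpa : π a = π x + 1 := (mem_pt.1 (mem_nb.1 ha1).1).2
  have hpy : π y = π a + 1 := by rw [hxy, hpa]; exact R2_z2 _
  have hnF : ¬ F.Adj x a := fun h => ha3 (mem_nb.2 ⟨mem_univ _, h⟩)
  have hnF' : ¬ F.Adj y a := fun h => ha4 (mem_nb.2 ⟨mem_univ _, h⟩)
  have hxne : y ≠ x := by
    rintro rfl
    exact zmod3_ne2 _ hxy.symm
  obtain ⟨F1, h1, h2, h3, h4, h5⟩ := hR1 V π G F x a hT hF hadj hpa hnF
  have hnF1 : ¬ F1.Adj a y := by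
    intro h
    rcases h5 a y h with h | h | h
    · exact hnF' h.symm
    · exact hadj.ne h.1.symm
    · exact hxne h.2
  obtain ⟨F2, g1, g2, g3, g4, g5⟩ := hR1 V π G F1 a y hT h2 hadj' hpy hnF1
  refine ⟨F2, fun v => if v = a then 1 else 0, h1.trans g1, g2, ?_, ?_, ?_, ?_⟩
  · intro v
    rw [g3, h3]
    ring
  · intro v
    rw [g4, h4]
    simp only
    omega
  · simp
  · intro v hv
    have : v ≠ a := by rintro rfl; exact ha2 hv
    simp [this]

theorem p_X9 : S_X9 := by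
  intro hR1 V _ _ π G F Bd N x y hN hE hT hG hF hd hBd
  change R2_P π G F Bd x y 3
  have hN0 : 0 < N := by omega
  have hN' : (1000 : ℝ) ≤ N := by exact_mod_cast hN
  have hd12 : ∀ v, (dg F v univ : ℝ) ≤ 0.12 * N := fun v => (hd v).trans (by linarith)
  rcases zmod3_cases (π x) (π y) with hxy | hxy | hxy
  · -- `π y = π x`
    obtain ⟨a, F1, ha, haB, h1, h2, h3, h4⟩ := X9_one hR1 x hN0 hT hG hF hd12 hBd
    have hd1 : ∀ v, (dg F1 v univ : ℝ) ≤ 0.12 * N := by
      intro v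
      have e : dg F1 v univ ≤ dg F v univ + 2 := by
        rw [h4]; split_ifs <;> omega
      have e' : (dg F1 v univ : ℝ) ≤ dg F v univ + 2 := by exact_mod_cast e
      have := hd v
      linarith
    refine R2_mono (by norm_num : 2 ≤ 3) (R2_cons haB h1 h3 h4
      (X9_two hR1 a y hN0 hE hT hG h2 hd1 hBd ?_))
    rw [hxy, ha, add_sub_cancel_right]
  · -- `π y = π x + 1`
    obtain ⟨a, F1, ha, haB, h1, h2, h3, h4⟩ := X9_one hR1 x hN0 hT hG hF hd12 hBd
    have hd1' : ∀ v, (dg F1 v univ : ℝ) ≤ 0.1 * N + 2 := by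
      intro v
      have e : dg F1 v univ ≤ dg F v univ + 2 := by
        rw [h4]; split_ifs <;> omega
      have e' : (dg F1 v univ : ℝ) ≤ dg F v univ + 2 := by exact_mod_cast e
      have := hd v
      linarith
    have hd1 : ∀ v, (dg F1 v univ : ℝ) ≤ 0.12 * N := fun v => (hd1' v).trans (by linarith)
    obtain ⟨b, F2, hb, hbB, k1, k2, k3, k4⟩ := X9_one hR1 a hN0 hT hG h2 hd1 hBd
    have hd2 : ∀ v, (dg F2 v univ : ℝ) ≤ 0.12 * N := by
      intro v
      have e : dg F2 v univ ≤ dg F1 v univ + 2 := by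
        rw [k4]; split_ifs <;> omega
      have e' : (dg F2 v univ : ℝ) ≤ dg F1 v univ + 2 := by exact_mod_cast e
      have := hd1' v
      linarith
    refine R2_cons haB h1 h3 h4 (R2_cons hbB k1 k3 k4
      (X9_two hR1 b y hN0 hE hT hG k2 hd2 hBd ?_))
    rw [hxy, hb, ha, add_sub_cancel_right]
  · exact R2_mono (by norm_num : 1 ≤ 3) (X9_two hR1 x y hN0 hE hT hG hF hd12 hBd hxy)

end DH
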