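import Pool.Agent.Lib.MP_fe8cb7_co.h77.StF

open Finset

namespace DH

private theorem y1_third (a b c : ZMod 3) (h : a ≠ b) : (c = a ∨ c = b) ∨ c = -(a + b) := by
  revert a b c; decide

private theorem y1_third_ne (a b : ZMod 3) (h : a ≠ b) : -(a + b) ≠ a ∧ -(a + b) ≠ b := by
  revert a b; decide

private theorem y1_ne1 (a : ZMod 3) : a + 1 ≠ a := by revert a; decide
private theorem y1_ne2 (a : ZMod 3) : a + 2 ≠ a := by revert a; decide

private theorem y1_sum3 (a : ZMod 3) (G : ZMod 3 → ℝ) :
    ∑ i, G i = G a + G (a + 1) + G (a + 2) := by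
  have h : (univ : Finset (ZMod 3)) = {a, a + 1, a + 2} := by revert a; decide
  have h1 : a ∉ ({a + 1, a + 2} : Finset (ZMod 3)) := by revert a; decide
  have h2 : a + 1 ∉ ({a + 2} : Finset (ZMod 3)) := by revert a; decide
  rw [h, sum_insert h1, sum_insert h2, sum_singleton]
  ring

variable {V : Type} [Fintype V]

private theorem y1_fib (π : V → ZMod 3) (g : V → ℝ) :
    ∑ x, g x = ∑ i : ZMod 3, ∑ x ∈ univ.filter (fun x => π x = i), g x :=
  (Finset.sum_fiberwise univ π g).symm

private theorem y1_one (π : V → ZMod 3) (g : V → ℝ) (l : ZMod 3) (h : ∀ x, π x ≠ l → g x = 0) :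
    ∑ x, g x = ∑ x ∈ univ.filter (fun x => π x = l), g x := by
  rw [Finset.sum_filter]
  refine sum_congr rfl fun x _ => ?_
  by_cases hx : π x = l
  · rw [if_pos hx]
  · rw [if_neg hx, h x hx]

private theorem y1_miI {π : V → ZMod 3} {N : ℕ} {c : ℝ} {m : V → ℝ} {w : V → V → ℝ}
    (W : Wt π N c m w) (v : V) (i : ZMod 3) (hi : i ≠ π v) :
    ∑ x ∈ univ.filter (fun x => π x = i), mi π w v x = N * m v := by
  have h1 : ∑ x ∈ univ.filter (fun x => π x = i), mi π w v x =
      ∑ x ∈ univ.filter (fun x => π x = i), (1 - w v x) := by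
    refine sum_congr rfl fun x hx => ?_
    rw [mem_filter] at hx
    have : π v ≠ π x := by rw [hx.2]; exact hi.symm
    rw [mi, if_neg this]
  rw [h1, sum_sub_distrib, W.deg v i hi, sum_const, W.part i, nsmul_eq_mul]
  ring

private theorem y1_mi {π : V → ZMod 3} {N : ℕ} {c : ℝ} {m : V → ℝ} {w : V → V → ℝ}
    (W : Wt π N c m w) (u v : V) :
    0 ≤ mi π w u v ∧ mi π w u v ≤ 1 ∧ mi π w u v = mi π w v u := by
  rw [mi, mi]
  by_cases h : π u = π v
  · rw [if_pos h, if_pos h.symm]
    exact ⟨le_rfl, zero_le_one, rfl⟩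
  · rw [if_neg h, if_neg (fun h' => h h'.symm), W.symm v u]
    exact ⟨by linarith [W.le_one u v], by linarith [W.nonneg u v], rfl⟩

omit [Fintype V] in
private theorem y1_mi_same {π : V → ZMod 3} {w : V → V → ℝ} {u v : V} (h : π v = π u) :
    mi π w u v = 0 := by
  rw [mi, if_pos h.symm]

omit [Fintype V] in
private theorem y1_w {π : V → ZMod 3} {w : V → V → ℝ} {u v : V} (h : π v ≠ π u) :
    w u v = 1 - mi π w u v := by
  rw [mi, if_neg (fun h' => h h'.symm)]; ring

private theorem y1_co {π : V → ZMod 3} {N : ℕ} {c : ℝ} {m : V → ℝ} {w : V → V → ℝ}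
    (W : Wt π N c m w) (u v : V) (h : π u ≠ π v) :
    ∑ x ∈ univ.filter (fun x => π x = -(π u + π v)), mi π w u x * mi π w v x =
      N * co π N w u v := by
  have hN : (N : ℝ) ≠ 0 := by exact_mod_cast W.pos.ne'
  rw [co, mul_div_cancel₀ _ hN]
  refine (y1_one π _ _ fun x hx => ?_).symm
  rcases y1_third (π u) (π v) (π x) h with (h1 | h1) | h1
  · rw [y1_mi_same h1, zero_mul]
  · rw [y1_mi_same (u := v) h1, mul_zero]
  · exact absurd h1 hx

private theorem y1_cross (π : V → ZMod 3) (a : V → ℝ) (s : ℝ) (i0 : ZMod 3)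
    (h0 : ∑ x ∈ univ.filter (fun x => π x = i0), a x = 0)
    (h1 : ∀ i, i ≠ i0 → ∑ x ∈ univ.filter (fun x => π x = i), a x = s) :
    ∑ u, ∑ v, (if π u = π v then 0 else a u * a v) = 2 * s ^ 2 := by
  have e1 : ∑ u, ∑ v, (if π u = π v then 0 else a u * a v) =
      ∑ u, ∑ v, a u * a v - ∑ u, ∑ v, (if π v = π u then a u * a v else 0) := by
    rw [← sum_sub_distrib]
    refine sum_congr rfl fun u _ => ?_
    rw [← sum_sub_distrib]
    refine sum_congr rfl fun v _ => ?_
    by_cases h : π u = π v
    · rw [if_pos h, if_pos h.symm]; ring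
    · rw [if_neg h, if_neg (fun h' => h h'.symm)]; ring
  have e2 : ∑ u, ∑ v, a u * a v = (∑ u, a u) * ∑ v, a v := by
    rw [sum_mul_sum]
  have e3 : ∑ u, a u = 2 * s := by
    rw [y1_fib π, y1_sum3 i0, h0, h1 _ (y1_ne1 i0), h1 _ (y1_ne2 i0)]; ring
  have e4 : ∑ u, ∑ v, (if π v = π u then a u * a v else 0) =
      ∑ i : ZMod 3, (∑ x ∈ univ.filter (fun x => π x = i), a x) *
        (∑ x ∈ univ.filter (fun x => π x = i), a x) := by
    have : ∀ u, ∑ v, (if π v = π u then a u * a v else 0) =
        a u * ∑ v ∈ univ.filter (fun v => π v = π u), a v := by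
      intro u
      rw [sum_filter, mul_sum]
      refine sum_congr rfl fun v _ => ?_
      by_cases h : π v = π u
      · rw [if_pos h, if_pos h]
      · rw [if_neg h, if_neg h, mul_zero]
    rw [sum_congr rfl fun u _ => this u, y1_fib π]
    refine sum_congr rfl fun i _ => ?_
    rw [sum_mul]
    refine sum_congr rfl fun u hu => ?_
    rw [mem_filter] at hu
    rw [hu.2]
  rw [e1, e2, e3, e4, y1_sum3 i0, h0, h1 _ (y1_ne1 i0), h1 _ (y1_ne2 i0)]
  ring

theorem p_Y1 : S_Y1 := by
  intro V _ _ π N c m w W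
  have hN : (N : ℝ) ≠ 0 := by exact_mod_cast W.pos.ne'
  have hN0 : (0 : ℝ) < N := by exact_mod_cast W.pos
  have hmi := y1_mi W
  have hI := y1_miI W
  have hsame : ∀ v, ∑ x ∈ univ.filter (fun x => π x = π v), mi π w v x = 0 := by
    intro v
    refine sum_eq_zero fun x hx => ?_
    rw [mem_filter] at hx
    exact y1_mi_same hx.2
  have hm0 : ∀ v, 0 ≤ m v := by
    intro v
    have h1 := hI v (π v + 1) (y1_ne1 _)
    have h2 : 0 ≤ ∑ x ∈ univ.filter (fun x => π x = π v + 1), mi π w v x :=
      sum_nonneg fun x _ => (hmi v x).1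
    rw [h1] at h2
    exact nonneg_of_mul_nonneg_right h2 hN0
  refine ⟨hm0, hmi, ?_, ?_, ?_, ?_, ?_, ?_, hI, ?_⟩
  · intro u v
    refine ⟨div_nonneg (sum_nonneg fun x _ => mul_nonneg (hmi u x).1 (hmi v x).1) hN0.le, ?_⟩
    rw [co, co]
    congr 1
    exact sum_congr rfl fun x _ => mul_comm _ _
  · intro u v h
    obtain ⟨l1, l2⟩ := y1_third_ne _ _ h
    have hc := y1_co W u v h
    constructor
    · have h1 := hI u _ l1
      have h2 : ∑ x ∈ univ.filter (fun x => π x = -(π u + π v)), mi π w u x * mi π w v x ≤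
          ∑ x ∈ univ.filter (fun x => π x = -(π u + π v)), mi π w u x :=
        sum_le_sum fun x _ => mul_le_of_le_one_right (hmi u x).1 (hmi v x).2.1
      rw [h1, hc] at h2
      exact le_of_mul_le_mul_left h2 hN0
    · have h1 := hI v _ l2
      have h2 : ∑ x ∈ univ.filter (fun x => π x = -(π u + π v)), mi π w u x * mi π w v x ≤
          ∑ x ∈ univ.filter (fun x => π x = -(π u + π v)), mi π w v x :=
        sum_le_sum fun x _ => mul_le_of_le_one_left (hmi v x).1 (hmi u x).2.1
      rw [h1, hc] at h2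
      exact le_of_mul_le_mul_left h2 hN0
  · intro u v h
    obtain ⟨l1, l2⟩ := y1_third_ne _ _ h
    have hc := y1_co W u v h
    have h1 : ∑ x, w u x * w v x =
        ∑ x ∈ univ.filter (fun x => π x = -(π u + π v)), w u x * w v x := by
      refine y1_one π _ _ fun x hx => ?_
      rcases y1_third (π u) (π v) (π x) h with (h1 | h1) | h1
      · rw [W.same u x h1.symm, zero_mul]
      · rw [W.same v x h1.symm, mul_zero]
      · exact absurd h1 hx
    have h2 : ∑ x ∈ univ.filter (fun x => π x = -(π u + π v)), w u x * w v x =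
        ∑ x ∈ univ.filter (fun x => π x = -(π u + π v)),
          (1 - mi π w u x - mi π w v x + mi π w u x * mi π w v x) := by
      refine sum_congr rfl fun x hx => ?_
      rw [mem_filter] at hx
      rw [y1_w (π := π) (w := w) (u := u) (v := x) (by rw [hx.2]; exact l1),
        y1_w (π := π) (w := w) (u := v) (v := x) (by rw [hx.2]; exact l2)]
      ring
    rw [tt, h1, h2, sum_add_distrib, sum_sub_distrib, sum_sub_distrib, hI u _ l1, hI v _ l2, hc,
      sum_const, W.part, nsmul_eq_mul]
    field_simp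
  · intro u v h
    obtain ⟨l1, l2⟩ := y1_third_ne _ _ h
    have hc := y1_co W u v h
    have h1 : ∑ x, w u x * mi π w v x =
        ∑ x ∈ univ.filter (fun x => π x = -(π u + π v)), w u x * mi π w v x := by
      refine y1_one π _ _ fun x hx => ?_
      rcases y1_third (π u) (π v) (π x) h with (h1 | h1) | h1
      · rw [W.same u x h1.symm, zero_mul]
      · rw [y1_mi_same (u := v) h1, mul_zero]
      · exact absurd h1 hx
    have h2 : ∑ x ∈ univ.filter (fun x => π x = -(π u + π v)), w u x * mi π w v x =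
        ∑ x ∈ univ.filter (fun x => π x = -(π u + π v)),
          (mi π w v x - mi π w u x * mi π w v x) := by
      refine sum_congr rfl fun x hx => ?_
      rw [mem_filter] at hx
      rw [y1_w (π := π) (w := w) (u := u) (v := x) (by rw [hx.2]; exact l1)]
      ring
    rw [h1, h2, sum_sub_distrib, hI v _ l2, hc]
    ring
  · intro v
    have h0 : ∑ x ∈ univ.filter (fun x => π x = π v), w v x = 0 := by
      refine sum_eq_zero fun x hx => ?_
      rw [mem_filter] at hx
      exact W.same v x hx.2.symm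
    rw [y1_fib π, y1_sum3 (π v), h0, W.deg v _ (y1_ne1 _), W.deg v _ (y1_ne2 _)]
    ring
  · intro v
    rw [y1_fib π, y1_sum3 (π v), hsame v, hI v _ (y1_ne1 _), hI v _ (y1_ne2 _)]
    ring
  · have e1 : ∑ u, ∑ v, (if π u = π v then 0 else co π N w u v) =
        ∑ x, (∑ u, ∑ v, (if π u = π v then 0 else mi π w x u * mi π w x v)) / N := by
      have a1 : ∀ u v, (if π u = π v then 0 else co π N w u v) =
          ∑ x, (if π u = π v then 0 else mi π w x u * mi π w x v) / (N : ℝ) := by
        intro u v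
        by_cases h : π u = π v
        · rw [if_pos h]
          refine (sum_eq_zero fun x _ => ?_).symm
          rw [if_pos h, zero_div]
        · rw [if_neg h, co, sum_div]
          refine sum_congr rfl fun x _ => ?_
          rw [if_neg h, (hmi u x).2.2, (hmi v x).2.2]
      rw [sum_congr rfl fun u _ => (sum_congr rfl fun v _ => a1 u v)]
      rw [sum_congr rfl fun u _ => sum_comm, sum_comm]
      refine sum_congr rfl fun x _ => ?_
      rw [sum_div]
      refine sum_congr rfl fun u _ => ?_
      rw [sum_div]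
    rw [e1, mul_sum]
    refine sum_congr rfl fun x _ => ?_
    rw [y1_cross π (mi π w x) (N * m x) (π x) (hsame x) (fun i hi => hI x i hi)]
    field_simp

end DH
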