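import Pool.Agent.Lib.MP_fe8cb7_co.h77.StF

/-!
# Daykin-Haggkvist problem, bound `3/16`: [Y10] the bound for `QQ`
-/

open Finset

namespace DH

theorem Y10_chord (c C : ℝ) (hc0 : 0 ≤ c) (hc : c ≤ 3 / 16) (h0 : 0 ≤ C) (h1 : C ≤ c) :
    c * ((C + c / 5) ^ 2 / (1 - 4 * c + 3 * C)) ≤
      (c / 5) ^ 2 / (1 - 4 * c) * (c - C) + (6 * c / 5) ^ 2 / (1 - c) * C := by
  have e1 : 0 < 1 - 4 * c := by linarith
  have e2 : 0 < 1 - c := by linarith
  have e3 : 0 < 1 - 4 * c + 3 * C := by linarith
  have key0 : ∀ t0 t1 t : ℝ, t0 ≠ 0 → t1 ≠ 0 → t ≠ 0 → 1 - 4 * c = t0 → 1 - c = t1 →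
      1 - 4 * c + 3 * C = t → (c / 5) ^ 2 / t0 * (c - C) + (6 * c / 5) ^ 2 / t1 * C -
      c * ((C + c / 5) ^ 2 / t) = (23 * c / 5 - 1) ^ 2 * (c * C * (c - C)) / (t0 * t1 * t) := by
    intro t0 t1 t n0 n1 n e0 e1 e
    field_simp
    rw [← e0, ← e1, ← e]
    ring
  have key := key0 _ _ _ e1.ne' e2.ne' e3.ne' rfl rfl rfl
  have h2 : 0 ≤ (23 * c / 5 - 1) ^ 2 * (c * C * (c - C)) /
        ((1 - 4 * c) * (1 - c) * (1 - 4 * c + 3 * C)) := by
    have e4 : 0 ≤ c - C := by linarith
    positivity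
  linarith

theorem Y10_G (c : ℝ) (hc : c ≤ 3 / 16) :
    2 * ((c / 5) ^ 2 / (1 - 4 * c)) ≤ (6 * c / 5) ^ 2 / (1 - c) := by
  have e1 : 0 < 1 - 4 * c := by linarith
  have e2 : 0 < 1 - c := by linarith
  have key0 : ∀ t0 t1 : ℝ, t0 ≠ 0 → t1 ≠ 0 → 1 - 4 * c = t0 → 1 - c = t1 →
      (6 * c / 5) ^ 2 / t1 - 2 * ((c / 5) ^ 2 / t0) = (c / 5) ^ 2 * (34 - 142 * c) / (t0 * t1) := by
    intro t0 t1 n0 n1 e0 e1
    field_simp
    rw [← e0, ← e1]
    ring
  have key := key0 _ _ e1.ne' e2.ne' rfl rfl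
  have h2 : 0 ≤ (c / 5) ^ 2 * (34 - 142 * c) / ((1 - 4 * c) * (1 - c)) := by
    have e4 : 0 ≤ 34 - 142 * c := by linarith
    positivity
  linarith

theorem Y10_card {V : Type} [Fintype V] [DecidableEq V] {π : V → ZMod 3} {N : ℕ}
    (h : ∀ i : ZMod 3, (univ.filter (fun v => π v = i)).card = N) :
    (Fintype.card V : ℝ) = 3 * N := by
  have h1 : Fintype.card V = 3 * N := by
    rw [← card_univ, card_eq_sum_card_fiberwise (f := π) (t := univ)
      (fun _ _ => mem_coe.2 (mem_univ _)), sum_congr rfl (fun i _ => h i), sum_const, card_univ,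
      ZMod.card, smul_eq_mul]
  rw [h1]
  push_cast
  ring

theorem p_Y10 : S_Y10 := by
  intro hY1 hY3 V _ _ π N c m w hW hc0 hc z W hF hs hζ
  obtain ⟨y1, y2, y3, y4, y5, y6, y7, y8, y9, y10⟩ := hY1 V π N c m w hW
  have hN : (0 : ℝ) < N := by exact_mod_cast hW.pos
  have hcard := Y10_card hW.part
  have e1 : 0 < 1 - 4 * c := by linarith
  have e2 : 0 < 1 - c := by linarith
  have hd : ∀ u v, 0 < 1 - 4 * c + 3 * co π N w u v := by
    intro u v
    have := (y3 u v).1
    linarith
  have hcross : ∀ u v, w u v ≠ 0 → π u ≠ π v := fun u v h1 h2 => h1 (hW.same u v h2)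
  -- the sums over `w z`
  have hwz : ∀ u, ∑ v, w u v * z u v = 2 * N * ze N w z u := by
    intro u
    unfold ze
    field_simp
  have hze : ∑ u, ze N w z u = 3 * N * W := by
    rw [← sum_fiberwise_of_maps_to (s := univ) (t := univ) (g := π) (fun _ _ => mem_univ _),
      sum_congr rfl (fun i _ => hζ i), sum_const, card_univ, ZMod.card, nsmul_eq_mul]
    push_cast
    ring
  have hwz2 : ∑ u, ∑ v, w u v * z u v = 6 * N ^ 2 * W := by
    rw [sum_congr rfl (fun u _ => hwz u), ← mul_sum, hze]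
    ring
  have hwzC : ∑ u, ∑ v, w u v * z u v * co π N w u v = N ^ 2 * QQ π N w z := by
    unfold QQ
    field_simp
  -- the energy
  have hE : ∑ u, ∑ v, w u v * (1 - 4 * c + 3 * co π N w u v) * z u v ^ 2 ≤
      6 * N ^ 2 * (W - 2 * W ^ 2) := by
    refine (hY3 hY1 V π N c m w hW z hs).trans ?_
    have h1 : ∀ u v, w u v * z u v * (tt N w u v * z u v - SS π N w z u v) =
        w u v * z u v - (w u v * z u v * ze N w z u + w v u * z v u * ze N w z v) := by
      intro u v
      rw [hW.symm v u, hs v u]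
      by_cases h : π u = π v
      · rw [hW.same u v h]
        ring
      · have h2 := hF u v
        unfold FF at h2
        rw [if_neg h] at h2
        have h3 : tt N w u v * z u v - SS π N w z u v = 1 - ze N w z u - ze N w z v := by
          linarith
        rw [h3]
        ring
    have h2 : ∑ u, ∑ v, w u v * z u v * ze N w z u = 2 * N * ∑ u, ze N w z u ^ 2 := by
      rw [mul_sum]
      refine sum_congr rfl fun u _ => ?_
      rw [← sum_mul, hwz u]
      ring
    have h3 : ∑ u, ∑ v, w v u * z v u * ze N w z v = 2 * N * ∑ u, ze N w z u ^ 2 := by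
      rw [sum_comm]
      exact h2
    have h4 : ∑ u, ∑ v, w u v * z u v * (tt N w u v * z u v - SS π N w z u v) =
        6 * N ^ 2 * W - 4 * N * ∑ u, ze N w z u ^ 2 := by
      rw [sum_congr rfl (fun u _ => sum_congr rfl (fun v _ => h1 u v))]
      simp only [sum_sub_distrib, sum_add_distrib]
      rw [h2, h3, hwz2]
      ring
    have h5 : (∑ u, ze N w z u) ^ 2 ≤ 3 * N * ∑ u, ze N w z u ^ 2 := by
      have := sq_sum_le_card_mul_sum_sq (s := (univ : Finset V)) (f := fun u => ze N w z u)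
      rw [card_univ, hcard] at this
      exact this
    rw [h4]
    rw [hze] at h5
    have h6 : 3 * N * W ^ 2 ≤ ∑ u, ze N w z u ^ 2 := by
      have h7 : 3 * (N : ℝ) * (3 * N * W ^ 2) ≤ 3 * N * ∑ u, ze N w z u ^ 2 := by
        calc 3 * (N : ℝ) * (3 * N * W ^ 2) = (3 * N * W) ^ 2 := by ring
          _ ≤ _ := h5
      exact le_of_mul_le_mul_left h7 (by positivity)
    have h8 : 4 * (N : ℝ) * (3 * N * W ^ 2) ≤ 4 * N * ∑ u, ze N w z u ^ 2 :=
      mul_le_mul_of_nonneg_left h6 (by positivity)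
    linarith
  -- Cauchy-Schwarz
  have hCS : (N ^ 2 * (QQ π N w z + 6 * (c / 5) * W)) ^ 2 ≤
      (∑ u, ∑ v, w u v * ((co π N w u v + c / 5) ^ 2 / (1 - 4 * c + 3 * co π N w u v))) *
      ∑ u, ∑ v, w u v * (1 - 4 * c + 3 * co π N w u v) * z u v ^ 2 := by
    have h1 : N ^ 2 * (QQ π N w z + 6 * (c / 5) * W) =
        ∑ p : V × V, w p.1 p.2 * z p.1 p.2 * (co π N w p.1 p.2 + c / 5) := by
      rw [Fintype.sum_prod_type]
      have h2 : ∀ u v, w u v * z u v * (co π N w u v + c / 5) =
          w u v * z u v * co π N w u v + c / 5 * (w u v * z u v) := fun u v => by ring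
      simp only [h2, sum_add_distrib, ← mul_sum]
      rw [hwz2, hwzC]
      ring
    have h3 : ∑ u, ∑ v, w u v * ((co π N w u v + c / 5) ^ 2 / (1 - 4 * c + 3 * co π N w u v)) =
        ∑ p : V × V, w p.1 p.2 * ((co π N w p.1 p.2 + c / 5) ^ 2 /
          (1 - 4 * c + 3 * co π N w p.1 p.2)) := by
      rw [Fintype.sum_prod_type]
    have h4 : ∑ u, ∑ v, w u v * (1 - 4 * c + 3 * co π N w u v) * z u v ^ 2 =
        ∑ p : V × V, w p.1 p.2 * (1 - 4 * c + 3 * co π N w p.1 p.2) * z p.1 p.2 ^ 2 := by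
      rw [Fintype.sum_prod_type]
    rw [h1, h3, h4]
    have hgen : ∀ a b x d : ℝ, d ≠ 0 → (a * b * x) ^ 2 = a * (x ^ 2 / d) * (a * d * b ^ 2) := by
      intro a b x d hd
      field_simp
    refine sum_sq_le_sum_mul_sum_of_sq_le_mul _ ?_ ?_ ?_
    · intro p _
      have h5 := hW.nonneg p.1 p.2
      have h6 := hd p.1 p.2
      positivity
    · intro p _
      have h5 := hW.nonneg p.1 p.2
      have h6 := hd p.1 p.2
      positivity
    · intro p _
      exact (hgen _ _ _ _ (hd p.1 p.2).ne').le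
  -- the first factor
  have hmc : ∀ v, m v ≤ c := hW.mle
  have hFac : ∑ u, ∑ v, w u v * ((co π N w u v + c / 5) ^ 2 / (1 - 4 * c + 3 * co π N w u v)) ≤
      6 * N ^ 2 * Phi c := by
    rcases hc0.eq_or_lt with h0 | h0
    · -- `c = 0`
      have h1 : ∀ u v, w u v * ((co π N w u v + c / 5) ^ 2 /
          (1 - 4 * c + 3 * co π N w u v)) = 0 := by
        intro u v
        by_cases h : π u = π v
        · rw [hW.same u v h, zero_mul]
        · have h2 : co π N w u v = 0 := by
            have h3 := (y3 u v).1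
            have h4 := (y4 u v h).1
            have h5 := hmc u
            linarith
          rw [h2, ← h0]
          simp
      have h2 : Phi c = 0 := by
        unfold Phi
        rw [← h0]
        simp
      rw [h2, mul_zero]
      refine (sum_nonpos fun u _ => ?_)
      exact (sum_nonpos fun v _ => (h1 u v).le)
    · set g : ℝ := (c / 5) ^ 2 / (1 - 4 * c) with hg
      set G : ℝ := (6 * c / 5) ^ 2 / (1 - c) with hG
      have hg0 : 0 ≤ g := by rw [hg]; positivity
      have hgG : 2 * g ≤ G := Y10_G c hc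
      have h1 : ∀ u v, c * (w u v * ((co π N w u v + c / 5) ^ 2 /
          (1 - 4 * c + 3 * co π N w u v))) ≤
          g * c * w u v + (G - g) * (if π u = π v then 0 else co π N w u v) := by
        intro u v
        by_cases h : π u = π v
        · rw [hW.same u v h, if_pos h]
          simp
        · rw [if_neg h]
          have h3 := (y3 u v).1
          have h4 : co π N w u v ≤ c := (y4 u v h).1.trans (hmc u)
          have h5 := Y10_chord c (co π N w u v) hc0 hc h3 h4
          rw [← hg, ← hG] at h5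
          have h6 := mul_le_mul_of_nonneg_left h5 (hW.nonneg u v)
          have h7 : w u v * ((G - g) * co π N w u v) ≤ 1 * ((G - g) * co π N w u v) :=
            mul_le_mul_of_nonneg_right (hW.le_one u v) (mul_nonneg (by linarith) h3)
          calc c * (w u v * ((co π N w u v + c / 5) ^ 2 /
              (1 - 4 * c + 3 * co π N w u v))) =
              w u v * (c * ((co π N w u v + c / 5) ^ 2 /
              (1 - 4 * c + 3 * co π N w u v))) := by ring
            _ ≤ _ := h6
            _ = g * c * w u v + w u v * ((G - g) * co π N w u v) := by ring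
            _ ≤ _ := by linarith
      have h2 : c * ∑ u, ∑ v, w u v * ((co π N w u v + c / 5) ^ 2 /
          (1 - 4 * c + 3 * co π N w u v)) ≤
          g * c * (∑ u, ∑ v, w u v) +
            (G - g) * ∑ u, ∑ v, (if π u = π v then 0 else co π N w u v) := by
        simp only [mul_sum]
        rw [← sum_add_distrib]
        refine sum_le_sum fun u _ => ?_
        rw [← sum_add_distrib]
        exact sum_le_sum fun v _ => h1 u v
      have h3 : ∑ u, ∑ v, w u v = 2 * N * (3 * N - ∑ v, m v) := by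
        rw [sum_congr rfl (fun u _ => y7 u), ← mul_sum, sum_sub_distrib, sum_const, card_univ,
          nsmul_eq_mul, mul_one, hcard]
      have h4 : ∑ x, m x ^ 2 ≤ c * ∑ x, m x := by
        rw [mul_sum]
        refine sum_le_sum fun x _ => ?_
        rw [sq]
        exact mul_le_mul_of_nonneg_right (hmc x) (y1 x)
      have h5 : ∑ x, m x ≤ 3 * N * c := by
        have := sum_le_sum (s := (univ : Finset V)) fun x _ => hmc x
        rw [sum_const, card_univ, nsmul_eq_mul, hcard] at this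
        exact this
      rw [h3, y10] at h2
      have h6 : (G - g) * (2 * N * ∑ x, m x ^ 2) ≤ (G - g) * (2 * N * (c * ∑ x, m x)) :=
        mul_le_mul_of_nonneg_left (mul_le_mul_of_nonneg_left h4 (by positivity)) (by linarith)
      have h7 : (G - 2 * g) * (2 * N * ∑ x, m x) ≤ (G - 2 * g) * (2 * N * (3 * N * c)) :=
        mul_le_mul_of_nonneg_left (mul_le_mul_of_nonneg_left h5 (by positivity)) (by linarith)
      have h8 : c * ∑ u, ∑ v, w u v * ((co π N w u v + c / 5) ^ 2 /
          (1 - 4 * c + 3 * co π N w u v)) ≤ c * (6 * N ^ 2 * Phi c) := by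
        have h9 : Phi c = (1 - 2 * c) * g + c * G := by
          unfold Phi
          rw [hg, hG]
          ring
        rw [h9]
        have h10 := mul_le_mul_of_nonneg_left h7 hc0
        nlinarith [h2, h6, h10]
      exact le_of_mul_le_mul_left h8 h0
  -- conclusion
  have hE0 : 0 ≤ ∑ u, ∑ v, w u v * (1 - 4 * c + 3 * co π N w u v) * z u v ^ 2 := by
    refine sum_nonneg fun u _ => sum_nonneg fun v _ => ?_
    have h5 := hW.nonneg u v
    have h6 := hd u v
    positivity
  have hF0 : 0 ≤ ∑ u, ∑ v, w u v * ((co π N w u v + c / 5) ^ 2 /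
      (1 - 4 * c + 3 * co π N w u v)) := by
    refine sum_nonneg fun u _ => sum_nonneg fun v _ => ?_
    have h5 := hW.nonneg u v
    have h6 := hd u v
    positivity
  have h1 := hCS.trans (mul_le_mul hFac hE hE0 (hF0.trans hFac))
  have h2 : (N : ℝ) ^ 4 * (QQ π N w z + 6 * (c / 5) * W) ^ 2 ≤
      N ^ 4 * (36 * Phi c * (W - 2 * W ^ 2)) := by
    calc (N : ℝ) ^ 4 * (QQ π N w z + 6 * (c / 5) * W) ^ 2 =
        (N ^ 2 * (QQ π N w z + 6 * (c / 5) * W)) ^ 2 := by ring
      _ ≤ _ := h1
      _ = _ := by ring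
  exact le_of_mul_le_mul_left h2 (by positivity)

end DH
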