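import Pool.Agent.Lib.MP_fe8cb7_co.h77.StF

/-!
# [Y11] numbers
-/

open Finset

namespace DH

theorem p_Y11 : S_Y11 := by
  intro s q W h0 h1 hW hq hQ
  have h14 : (1 : ℝ) / 4 ≤ 1 - 4 * s := by linarith
  have h11 : (13 : ℝ) / 16 ≤ 1 - s := by linarith
  have h14' : (0 : ℝ) < 1 - 4 * s := by linarith
  have h11' : (0 : ℝ) < 1 - s := by linarith
  obtain ⟨P, hPdef⟩ : ∃ P, P = Phi s := ⟨_, rfl⟩
  rw [← hPdef] at hQ
  have hP1 : P = (1 - 2 * s) * (s / 5) ^ 2 / (1 - 4 * s) + s * (6 * s / 5) ^ 2 / (1 - s) := hPdef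
  have hP0 : 0 ≤ P := by
    rw [hP1]
    have a1 : 0 ≤ (1 - 2 * s) * (s / 5) ^ 2 := mul_nonneg (by linarith) (by positivity)
    have a2 : 0 ≤ s * (6 * s / 5) ^ 2 := mul_nonneg h0 (by positivity)
    exact add_nonneg (div_nonneg a1 h14'.le) (div_nonneg a2 h11'.le)
  have hPeq : 25 * (P * (1 - 4 * s) * (1 - s)) =
      (1 - 2 * s) * s ^ 2 * (1 - s) + 36 * s ^ 3 * (1 - 4 * s) := by
    have d1 : (1 - 2 * s) * (s / 5) ^ 2 / (1 - 4 * s) * (1 - 4 * s) = (1 - 2 * s) * (s / 5) ^ 2 :=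
      div_mul_cancel₀ _ h14'.ne'
    have d2 : s * (6 * s / 5) ^ 2 / (1 - s) * (1 - s) = s * (6 * s / 5) ^ 2 :=
      div_mul_cancel₀ _ h11'.ne'
    have d3 : P * (1 - 4 * s) * (1 - s) =
        (1 - 2 * s) * (s / 5) ^ 2 / (1 - 4 * s) * (1 - 4 * s) * (1 - s) +
        s * (6 * s / 5) ^ 2 / (1 - s) * (1 - s) * (1 - 4 * s) := by rw [hP1]; ring
    rw [d3, d1, d2]
    ring
  -- bound of `P`
  have hPu : P ≤ 1 / 40 := by
    rw [hP1]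
    have a1 : (1 - 2 * s) * (s / 5) ^ 2 / (1 - 4 * s) ≤ 1 / 160 := by
      rw [div_le_iff₀ h14']
      nlinarith [mul_nonneg h0 h0, mul_nonneg (mul_nonneg h0 h0) h0]
    have a2 : s * (6 * s / 5) ^ 2 / (1 - s) ≤ 3 / 160 := by
      rw [div_le_iff₀ h11']
      have b1 : s ^ 2 ≤ 9 / 256 := by nlinarith
      have b2 : s ^ 3 ≤ 27 / 4096 := by nlinarith [mul_nonneg h0 h0]
      nlinarith
    linarith
  -- the main numbers
  obtain ⟨A0, hA0⟩ : ∃ A0 : ℝ, A0 = 1 - 19 / 16 * s := ⟨_, rfl⟩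
  obtain ⟨A1, hA1⟩ : ∃ A1 : ℝ, A1 = 3 - 33 / 5 * s := ⟨_, rfl⟩
  have hA1p : (7 : ℝ) / 4 ≤ A1 := by rw [hA1]; linarith
  have hB : (11 : ℝ) / 100 ≤ A0 - 2 * s * A1 := by
    rw [hA0, hA1]
    nlinarith [mul_nonneg h0 (sub_nonneg.mpr h1), mul_nonneg (sub_nonneg.mpr h1) (sub_nonneg.mpr h1)]
  have hG : 0 < (A0 - 2 * s * A1) ^ 2 - 9 * P * (2 * s - 2 * (2 * s) ^ 2) := by
    have hkey : 0 < (1 - s) * ((A0 - 2 * s * A1) ^ 2 - 9 * P * (2 * s - 2 * (2 * s) ^ 2)) := by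
      have e1 : (1 - s) * ((A0 - 2 * s * A1) ^ 2 - 9 * P * (2 * s - 2 * (2 * s) ^ 2)) =
          (1 - s) * (A0 - 2 * s * A1) ^ 2 -
            18 * s / 25 * (25 * (P * (1 - 4 * s) * (1 - s))) := by ring
      rw [e1, hPeq, hA0, hA1]
      obtain ⟨x, hx⟩ : ∃ x, s = 3 / 16 - x := ⟨3 / 16 - s, by ring⟩
      have hx0 : 0 ≤ x := by linarith
      have e2 : (1 - s) * (1 - 19 / 16 * s - 2 * s * (3 - 33 / 5 * s)) ^ 2 -
          18 * s / 25 * ((1 - 2 * s) * s ^ 2 * (1 - s) + 36 * s ^ 3 * (1 - 4 * s)) =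
          15481 / 26214400 + 166263 / 327680 * x + 860991 / 102400 * x ^ 2 +
            247489 / 6400 * x ^ 3 + 27273 / 100 * x ^ 4 + 72 * x ^ 5 := by
        rw [hx]; ring
      rw [e2]
      positivity
    exact (mul_pos_iff_of_pos_left h11').mp hkey
  have hlow : A0 - A1 * W ≤ q + 3 * (s / 5) * W := by
    rw [hA0, hA1]; linarith
  have hlow2 : A0 - 2 * s * A1 ≤ A0 - A1 * W := by nlinarith
  have hsq : (A0 - A1 * W) ^ 2 ≤ 9 * P * (W - 2 * W ^ 2) :=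
    (pow_le_pow_left₀ (by linarith) hlow 2).trans hQ
  -- the quadratic polynomial
  obtain ⟨y, hy⟩ : ∃ y, W = 2 * s - y := ⟨2 * s - W, by ring⟩
  have hy0 : 0 ≤ y := by linarith
  have hd : 0 ≤ 2 * A1 * (A0 - 2 * s * A1) + 9 * P * (1 - 8 * s) := by
    have c1 : 2 * (7 / 4) * (11 / 100) ≤ 2 * A1 * (A0 - 2 * s * A1) := by
      apply mul_le_mul _ hB (by norm_num) (by linarith)
      linarith
    have c2 : -(9 * (1 / 40) * (1 / 2)) ≤ 9 * P * (1 - 8 * s) := by nlinarith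
    linarith
  have hfin : (A0 - A1 * W) ^ 2 - 9 * P * (W - 2 * W ^ 2) =
      ((A0 - 2 * s * A1) ^ 2 - 9 * P * (2 * s - 2 * (2 * s) ^ 2)) +
      (2 * A1 * (A0 - 2 * s * A1) + 9 * P * (1 - 8 * s)) * y + (A1 ^ 2 + 18 * P) * y ^ 2 := by
    rw [hy]; ring
  have c3 : 0 ≤ (2 * A1 * (A0 - 2 * s * A1) + 9 * P * (1 - 8 * s)) * y := mul_nonneg hd hy0
  have c4 : 0 ≤ (A1 ^ 2 + 18 * P) * y ^ 2 := by positivity
  linarith

end DH
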