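import Pool.Agent.Lib.MP_fe8cb7_co.h77.StF

/-!
# [Y12] there is no critical situation
-/

open Finset

namespace DH

private lemma sum_parts {V : Type} [Fintype V] [DecidableEq V] (π : V → ZMod 3) (f : V → ℝ)
    (K : ℝ) (h : ∀ i : ZMod 3, ∑ v ∈ univ.filter (fun v => π v = i), f v = K) :
    ∑ v, f v = 3 * K := by
  rw [← Finset.sum_fiberwise univ π f, Finset.sum_congr rfl fun i _ => h i, Finset.sum_const,
    Finset.card_univ, ZMod.card 3, nsmul_eq_mul]
  norm_num

theorem p_Y12 : S_Y12 := by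
  intro h1 h2 h3 h5 h6 h7 h8 h9 h10 h11 V _ _ π N s c0 m w hW hs0 hs hc0 hD hpos z hz hze a ha
  have hc : s < 1 / 4 := by linarith
  have hN : (0 : ℝ) < N := by exact_mod_cast hW.pos
  obtain ⟨hsym, -, -⟩ := h5 h1 V π N s m w hW hc z hz
  obtain ⟨hzs, W, hWW⟩ := h6 h1 h5 V π N s m w hW hc hpos z hz
  have hcross : ∀ u v, π u ≠ π v → tt N w u v * z u v - SS π N w z u v =
      1 - ze N w z u - ze N w z v := by
    intro u v huv
    have := hz u v
    unfold FF at this
    rw [if_neg huv] at this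
    linarith
  have hnn : ∀ u v, π u ≠ π v → 0 ≤ z u v := by
    apply (h2 h1 V π N s m w hW hc z).1
    intro u v huv
    rw [hcross u v huv]
    linarith [hze u, hze v]
  have hW2 : W ≤ 2 * s := h9 h1 h7 V π N s m w hW z W hz hsym hzs hWW hnn hze a ha
  have y8 := h8 h1 h7 V π N s m w hW z W hz hsym hzs hWW
  have y10 := h10 h1 h3 V π N s m w hW hs0 (hs.trans hc0) z W hz hsym hWW
  have hsz : ∑ v, ze N w z v = 3 * (N * W) := sum_parts π _ _ hWW
  have hcard : ∑ _v : V, (1 : ℝ) = 3 * N := by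
    apply sum_parts π
    intro i
    rw [Finset.sum_const, hW.part i, nsmul_eq_mul, mul_one]
  -- `∑ (1 - m)`
  have e1 : ∑ v, (1 - m v) = 3 * N * (1 - s) + ∑ v, (s - m v) := by
    have e2 : ∀ v, (1 - m v) = (1 - s) * 1 + (s - m v) := fun v => by ring
    rw [Finset.sum_congr rfl fun v _ => e2 v, Finset.sum_add_distrib, ← Finset.mul_sum, hcard]
    ring
  have e3 : s * (3 * (N * W)) - 1 / 2 * ∑ v, (s - m v) ≤ ∑ v, m v * ze N w z v := by
    rw [← hsz, Finset.mul_sum, Finset.mul_sum, ← Finset.sum_sub_distrib]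
    apply Finset.sum_le_sum
    intro v _
    have b1 := hW.mle v
    have b2 := hze v
    nlinarith
  have hcs : c0 * s ≤ 3 / 16 * s := by nlinarith
  have e4 : N * (1 - s - 3 / 16 * s - QQ π N w z / 2) ≤ N * ((3 - 6 * s) * W) := by
    rw [e1] at y8
    nlinarith
  have e5 : 1 - s - 3 / 16 * s - QQ π N w z / 2 ≤ (3 - 6 * s) * W :=
    le_of_mul_le_mul_left e4 hN
  refine h11 s (QQ π N w z / 2) W hs0 (hs.trans hc0) hW2 e5 ?_
  have e6 : (QQ π N w z / 2 + 3 * (s / 5) * W) ^ 2 = (QQ π N w z + 6 * (s / 5) * W) ^ 2 / 4 := by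
    ring
  rw [e6]
  linarith

end DH
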