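import Pool.Agent.Lib.MP_fe8cb7_co.h77.StF

/-!
# [Y13] deformation, intermediate value theorem
-/

open Finset

namespace DH

section Y13

variable {V : Type} [Fintype V]

/-- the deformed weights -/
private noncomputable def wd (π : V → ZMod 3) (w : V → V → ℝ) (l : ℝ) (u v : V) : ℝ :=
  if π u = π v then 0 else 1 - l * (1 - w u v)

private lemma wd_Wt {π : V → ZMod 3} {N : ℕ} {c0 : ℝ} {m : V → ℝ} {w : V → V → ℝ}
    (hW : Wt π N c0 m w) (l : ℝ) (h0 : 0 ≤ l) (h1 : l ≤ 1) :
    Wt π N (l * c0) (fun v => l * m v) (wd π w l) := by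
  refine ⟨hW.pos, hW.part, ?_, ?_, ?_, ?_, ?_, ?_⟩
  · intro u v
    unfold wd
    by_cases h : π u = π v
    · rw [if_pos h, if_pos h.symm]
    · rw [if_neg h, if_neg fun h' => h h'.symm, hW.symm u v]
  · intro u v
    unfold wd
    by_cases h : π u = π v
    · rw [if_pos h]
    · rw [if_neg h]
      have a1 := hW.nonneg u v
      have a2 := hW.le_one u v
      nlinarith
  · intro u v
    unfold wd
    by_cases h : π u = π v
    · rw [if_pos h]; exact zero_le_one
    · rw [if_neg h]
      have a1 := hW.nonneg u v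
      have a2 := hW.le_one u v
      nlinarith
  · intro u v h
    unfold wd
    rw [if_pos h]
  · intro v i hi
    have e1 : ∀ x ∈ univ.filter (fun x => π x = i), wd π w l v x = (1 - l) + l * w v x := by
      intro x hx
      rw [mem_filter] at hx
      unfold wd
      rw [if_neg fun h => hi (hx.2.symm.trans h.symm)]
      ring
    rw [Finset.sum_congr rfl e1, Finset.sum_add_distrib, ← Finset.mul_sum, hW.deg v i hi,
      Finset.sum_const, hW.part i, nsmul_eq_mul]
    ring
  · intro v
    exact mul_le_mul_of_nonneg_left (hW.mle v) h0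

private lemma wd_pos {π : V → ZMod 3} {N : ℕ} {c0 : ℝ} {m : V → ℝ} {w : V → V → ℝ}
    (hW : Wt π N c0 m w) (l : ℝ) (h0 : 0 ≤ l) (h1 : l < 1) (u v : V) (h : π u ≠ π v) :
    0 < wd π w l u v := by
  unfold wd
  rw [if_neg h]
  have a1 := hW.nonneg u v
  have a2 := hW.le_one u v
  nlinarith

private lemma wd_one {π : V → ZMod 3} {N : ℕ} {c0 : ℝ} {m : V → ℝ} {w : V → V → ℝ}
    (hW : Wt π N c0 m w) : wd π w 1 = w := by
  funext u v
  unfold wd
  by_cases h : π u = π v
  · rw [if_pos h, hW.same u v h]
  · rw [if_neg h]; ring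

private lemma SS_lin (π : V → ZMod 3) (N : ℕ) (w : V → V → ℝ) (a b : ℝ) (z z' : V → V → ℝ)
    (u v : V) : SS π N w (fun u v => a * z u v + b * z' u v) u v =
      a * SS π N w z u v + b * SS π N w z' u v := by
  unfold SS
  rw [← mul_div_assoc, ← mul_div_assoc, ← add_div, Finset.mul_sum, Finset.mul_sum,
    ← Finset.sum_add_distrib]
  congr 1
  apply Finset.sum_congr rfl
  intro x _
  ring

private lemma ze_lin (N : ℕ) (w : V → V → ℝ) (a b : ℝ) (z z' : V → V → ℝ)
    (v : V) : ze N w (fun u v => a * z u v + b * z' u v) v =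
      a * ze N w z v + b * ze N w z' v := by
  unfold ze
  rw [← mul_div_assoc, ← mul_div_assoc, ← add_div, Finset.mul_sum, Finset.mul_sum,
    ← Finset.sum_add_distrib]
  congr 1
  apply Finset.sum_congr rfl
  intro x _
  ring

private lemma FF_lin (π : V → ZMod 3) (N : ℕ) (w : V → V → ℝ) (a b : ℝ) (z z' : V → V → ℝ)
    (u v : V) : FF π N w (fun u v => a * z u v + b * z' u v) u v =
      a * FF π N w z u v + b * FF π N w z' u v := by
  unfold FF
  by_cases h : π u = π v
  · rw [if_pos h, if_pos h, if_pos h]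
  · rw [if_neg h, if_neg h, if_neg h, SS_lin, ze_lin, ze_lin]
    ring

/-- the linear map of the system -/
private noncomputable def FL (π : V → ZMod 3) (N : ℕ) (w : V → V → ℝ) :
    (V × V → ℝ) →ₗ[ℝ] (V × V → ℝ) where
  toFun z p := FF π N w (fun u v => z (u, v)) p.1 p.2
  map_add' z z' := by
    funext p
    have h := FF_lin π N w 1 1 (fun u v => z (u, v)) (fun u v => z' (u, v)) p.1 p.2
    rw [one_mul, one_mul] at h
    rw [Pi.add_apply, ← h]
    congr 1
    funext u v
    rw [Pi.add_apply, one_mul, one_mul]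
  map_smul' a z := by
    funext p
    have h := FF_lin π N w a 0 (fun u v => z (u, v)) (fun u v => z (u, v)) p.1 p.2
    rw [zero_mul, add_zero] at h
    rw [Pi.smul_apply, smul_eq_mul, RingHom.id_apply, ← h]
    congr 1
    funext u v
    rw [Pi.smul_apply, smul_eq_mul, zero_mul, add_zero]

private lemma FL_apply (π : V → ZMod 3) (N : ℕ) (w : V → V → ℝ) (z : V × V → ℝ) (p : V × V) :
    FL π N w z p = FF π N w (fun u v => z (u, v)) p.1 p.2 := rfl

private lemma cont_wd (π : V → ZMod 3) (w : V → V → ℝ) (u v : V) :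
    Continuous fun l => wd π w l u v := by
  unfold wd
  by_cases h : π u = π v
  · simp only [if_pos h]; exact continuous_const
  · simp only [if_neg h]; fun_prop

private lemma cont_mi (π : V → ZMod 3) (w : V → V → ℝ) (u v : V) :
    Continuous fun l => mi π (wd π w l) u v := by
  unfold mi
  by_cases h : π u = π v
  · simp only [if_pos h]; exact continuous_const
  · simp only [if_neg h]
    exact continuous_const.sub (cont_wd π w u v)

private lemma cont_FF (π : V → ZMod 3) (N : ℕ) (w : V → V → ℝ) (z : V → V → ℝ) (u v : V) :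
    Continuous fun l => FF π N (wd π w l) z u v := by
  unfold FF
  by_cases h : π u = π v
  · simp only [if_pos h]; exact continuous_const
  · simp only [if_neg h]
    have c1 : Continuous fun l => tt N (wd π w l) u v := by
      unfold tt
      exact (continuous_finset_sum _ fun x _ =>
        (cont_wd π w u x).mul (cont_wd π w v x)).div_const _
    have c2 : ∀ v, Continuous fun l => ze N (wd π w l) z v := by
      intro v
      unfold ze
      exact (continuous_finset_sum _ fun x _ =>
        (cont_wd π w v x).mul continuous_const).div_const _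
    have c3 : Continuous fun l => SS π N (wd π w l) z u v := by
      unfold SS
      exact (continuous_finset_sum _ fun x _ =>
        (((cont_wd π w u x).mul (cont_mi π w v x)).mul continuous_const).add
        (((cont_wd π w v x).mul (cont_mi π w u x)).mul continuous_const)).div_const _
    exact (((c1.mul continuous_const).add (c2 u)).add (c2 v)).sub c3

theorem p_Y13 : S_Y13 := by
  intro h4 hcrit h1 h3 V _ _ π N c0 m w hW hc0 hc1 hD
  have hN : (0 : ℝ) < N := by exact_mod_cast hW.pos
  -- the matrix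
  obtain ⟨A, hA⟩ : ∃ A : ℝ → Matrix (V × V) (V × V) ℝ,
    ∀ l, A l = LinearMap.toMatrix' (FL π N (wd π w l)) := ⟨_, fun _ => rfl⟩
  have hAz : ∀ l (z : V × V → ℝ), (A l).mulVec z = FL π N (wd π w l) z := by
    intro l z
    rw [hA l]
    exact LinearMap.toMatrix'_mulVec _ z
  have hAc : Continuous A := by
    refine continuous_matrix fun p q => ?_
    have e : (fun l => A l p q) = fun l => FF π N (wd π w l)
        (fun u v => (Pi.single q (1 : ℝ) : V × V → ℝ) (u, v)) p.1 p.2 := by
      funext l
      rw [hA l, LinearMap.toMatrix'_apply]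
      rfl
    rw [e]
    exact cont_FF π N w _ _ _
  have hdet : ∀ l ∈ Set.Icc (0 : ℝ) 1, (A l).det ≠ 0 := by
    intro l hl hd
    obtain ⟨z, hz0, hz⟩ := Matrix.exists_mulVec_eq_zero_iff.mpr hd
    apply hz0
    rw [hAz] at hz
    have hc : l * c0 < 1 / 4 := by nlinarith [hl.1, hl.2]
    have := h4 h1 h3 V π N (l * c0) (fun v => l * m v) (wd π w l) (wd_Wt hW l hl.1 hl.2) hc
      (fun u v => z (u, v)) fun u v => by
        have h := congrFun hz (u, v)
        rw [FL_apply] at h
        exact h
    funext p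
    exact this p.1 p.2
  -- the solution
  obtain ⟨Z, hZ⟩ : ∃ Z : ℝ → V × V → ℝ, ∀ l, Z l = (A l).det⁻¹ • (A l).adjugate.mulVec 1 :=
    ⟨_, fun _ => rfl⟩
  have hZs : ∀ l ∈ Set.Icc (0 : ℝ) 1, ∀ u v, FF π N (wd π w l) (fun u v => Z l (u, v)) u v = 1 := by
    intro l hl u v
    have e1 : (A l).mulVec (Z l) = 1 := by
      rw [hZ l, Matrix.mulVec_smul, Matrix.mulVec_mulVec, Matrix.mul_adjugate,
        Matrix.smul_mulVec, Matrix.one_mulVec, smul_smul, inv_mul_cancel₀ (hdet l hl), one_smul]
    rw [hAz] at e1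
    exact congrFun e1 (u, v)
  have hZc : ∀ p, ContinuousOn (fun l => Z l p) (Set.Icc (0 : ℝ) 1) := by
    intro p
    have e : (fun l => Z l p) = fun l => (A l).det⁻¹ * ((A l).adjugate.mulVec 1) p := by
      funext l
      rw [hZ l, Pi.smul_apply, smul_eq_mul]
    rw [e]
    apply ContinuousOn.mul
    · exact ContinuousOn.inv₀ (hAc.matrix_det).continuousOn hdet
    · apply Continuous.continuousOn
      have c1 : Continuous fun l => (A l).adjugate.mulVec (1 : V × V → ℝ) :=
        (hAc.matrix_adjugate).matrix_mulVec continuous_const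
      exact (continuous_apply p).comp c1
  have hzc : ∀ v, ContinuousOn (fun l => ze N (wd π w l) (fun u v => Z l (u, v)) v)
      (Set.Icc (0 : ℝ) 1) := by
    intro v
    unfold ze
    apply ContinuousOn.div_const
    apply continuousOn_finset_sum
    intro x _
    exact (cont_wd π w v x).continuousOn.mul (hZc (v, x))
  -- the vertex set is not empty
  have hne : (univ : Finset V).Nonempty := by
    have h := hW.part 0
    have h2 : (univ.filter fun v => π v = 0).Nonempty := by
      rw [← Finset.card_pos, h]; exact hW.pos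
    obtain ⟨x, _⟩ := h2
    exact ⟨x, mem_univ _⟩
  obtain ⟨g, hg⟩ : ∃ g : ℝ → ℝ, ∀ l, g l =
      univ.sup' hne fun v => ze N (wd π w l) (fun u v => Z l (u, v)) v := ⟨_, fun _ => rfl⟩
  have hgc : ContinuousOn g (Set.Icc (0 : ℝ) 1) := by
    have e : g = fun l => univ.sup' hne fun v => ze N (wd π w l) (fun u v => Z l (u, v)) v :=
      funext hg
    rw [e]
    exact ContinuousOn.finset_sup'_apply hne fun v _ => hzc v
  -- the value at `0`
  have hg0 : g 0 ≤ 1 / 2 := by
    have hW0 := wd_Wt hW 0 le_rfl zero_le_one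
    have hb := h1 V π N (0 * c0) (fun v => 0 * m v) (wd π w 0) hW0
    have hw0 : ∀ u v, π u ≠ π v → wd π w 0 u v = 1 := by
      intro u v h
      unfold wd
      rw [if_neg h]; ring
    have hm0 : ∀ u v, mi π (wd π w 0) u v = 0 := by
      intro u v
      unfold mi
      by_cases h : π u = π v
      · rw [if_pos h]
      · rw [if_neg h, hw0 u v h]; ring
    have hco : ∀ u v, co π N (wd π w 0) u v = 0 := by
      intro u v
      unfold co
      rw [Finset.sum_eq_zero fun x _ => by rw [hm0, zero_mul], zero_div]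
    obtain ⟨Zs, hZs'⟩ : ∃ Zs : V → V → ℝ, ∀ u v, Zs u v = if π u = π v then 1 else 1 / 3 :=
      ⟨_, fun _ _ => rfl⟩
    have hze : ∀ v, ze N (wd π w 0) Zs v = 1 / 3 := by
      intro v
      unfold ze
      have e1 : ∑ x, wd π w 0 v x * Zs v x = (∑ x, wd π w 0 v x) * (1 / 3) := by
        rw [Finset.sum_mul]
        apply Finset.sum_congr rfl
        intro x _
        by_cases h : π v = π x
        · rw [hW0.same v x h, zero_mul, zero_mul]
        · rw [hZs', if_neg h]
      rw [e1, hb.2.2.2.2.2.2.1 v]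
      field_simp
      ring
    have hFs : ∀ u v, FF π N (wd π w 0) Zs u v = 1 := by
      intro u v
      unfold FF
      by_cases h : π u = π v
      · rw [if_pos h, hZs', if_pos h]
      · rw [if_neg h, hze, hze, hb.2.2.2.2.1 u v h, hco, hZs', if_neg h]
        have hS : SS π N (wd π w 0) Zs u v = 0 := by
          unfold SS
          rw [Finset.sum_eq_zero fun x _ => by rw [hm0, hm0]; ring, zero_div]
        rw [hS]
        ring
    have h0m : (0 : ℝ) ∈ Set.Icc (0 : ℝ) 1 := ⟨le_rfl, zero_le_one⟩
    have hdiff : ∀ u v, (1 * Z 0 (u, v) + (-1) * Zs u v) = 0 := by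
      have := h4 h1 h3 V π N (0 * c0) (fun v => 0 * m v) (wd π w 0) hW0 (by norm_num)
        (fun u v => 1 * Z 0 (u, v) + (-1) * Zs u v) fun u v => by
          rw [FF_lin, hZs 0 h0m, hFs]; ring
      exact this
    have hzz : (fun u v => Z 0 (u, v)) = Zs := by
      funext u v
      have := hdiff u v
      linarith
    rw [hg, hzz]
    apply Finset.sup'_le
    intro v _
    rw [hze]
    norm_num
  have hle : ∀ l v, ze N (wd π w l) (fun u v => Z l (u, v)) v ≤ g l := by
    intro l v
    rw [hg]
    exact Finset.le_sup' (fun v => ze N (wd π w l) (fun u v => Z l (u, v)) v) (mem_univ v)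
  have h1m : (1 : ℝ) ∈ Set.Icc (0 : ℝ) 1 := ⟨zero_le_one, le_rfl⟩
  by_cases hfin : g 1 ≤ 1 / 2
  · refine ⟨fun u v => Z 1 (u, v), ?_, ?_⟩
    · intro u v
      have := hZs 1 h1m u v
      rwa [wd_one hW] at this
    · intro v
      have := hle 1 v
      rw [wd_one hW] at this
      exact this.trans hfin
  · exfalso
    push Not at hfin
    have hivt := intermediate_value_Icc zero_le_one hgc
    obtain ⟨l, hl, hgl⟩ := hivt ⟨hg0, hfin.le⟩
    have hl1 : l < 1 := by
      rcases lt_or_eq_of_le hl.2 with h | h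
      · exact h
      · rw [h] at hgl; linarith
    obtain ⟨a, -, ha⟩ := Finset.exists_mem_eq_sup' hne
      (fun v => ze N (wd π w l) (fun u v => Z l (u, v)) v)
    rw [← hg l, hgl] at ha
    refine hcrit V π N (l * c0) c0 (fun v => l * m v) (wd π w l) (wd_Wt hW l hl.1 hl.2)
      (mul_nonneg hl.1 hc0) (by nlinarith) hc1 ?_ (fun u v h => wd_pos hW l hl.1 hl1 u v h)
      (fun u v => Z l (u, v)) (hZs l hl) (fun v => (hle l v).trans hgl.le) a ha.symm
    have e1 : ∑ v, (l * c0 - l * m v) = l * ∑ v, (c0 - m v) := by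
      rw [Finset.mul_sum]
      apply Finset.sum_congr rfl
      intro v _
      ring
    rw [e1]
    calc l * ∑ v, (c0 - m v) ≤ l * (3 / 2 * N * c0 ^ 2) := mul_le_mul_of_nonneg_left hD hl.1
      _ = 3 / 2 * N * c0 * (l * c0) := by ring

end Y13

end DH
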