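import Pool.Agent.Lib.MP_fe8cb7_co.h77.StG

/-!
# Daykin-Haggkvist problem, bound `3/16`: [Y14], from the weighted system to the graph
-/

open Finset

namespace DH

private theorem y14_filter {V : Type} [Fintype V] (π : V → ZMod 3) (i : ZMod 3) :
    (univ.filter fun v => π v = i) = pt π univ i := rfl

open Classical in
private theorem y14_sum {V : Type} (G : SimpleGraph V) (v : V) (S : Finset V) :
    ∑ x ∈ S, (if G.Adj v x then (1 : ℝ) else 0) = (dg G v S : ℝ) := by
  rw [Finset.sum_ite, Finset.sum_const_zero, add_zero, Finset.sum_const, nsmul_eq_mul, mul_one]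
  rw [dg, nb]

open Classical in
private theorem y14_wt {V : Type} [Fintype V] (π : V → ZMod 3) (G : SimpleGraph V) (N k : ℕ)
    (hN : 0 < N) (hE : Eq3 π univ N) (hT : Tri π G) (hB : Bal π G univ)
    (hd : ∀ v : V, ∀ i : ZMod 3, i ≠ π v → N ≤ dg G v (pt π univ i) + k) :
    Wt π N ((k : ℝ) / N) (fun v => ((N : ℝ) - dg G v (pt π univ (π v + 1))) / N)
      (fun u v => if G.Adj u v then (1 : ℝ) else 0) where
  pos := hN
  part := fun i => by rw [y14_filter]; exact hE i
  symm := fun u v => by simp only [G.adj_comm u v]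
  nonneg := fun u v => by split_ifs <;> norm_num
  le_one := fun u v => by split_ifs <;> norm_num
  same := fun u v h => if_neg fun h2 => hT u v h2 h
  deg := fun v i hi => by
    have hN' : (N : ℝ) ≠ 0 := by exact_mod_cast hN.ne'
    rw [y14_filter, y14_sum]
    have h1 : (dg G v (pt π univ i) : ℝ) = dg G v (pt π univ (π v + 1)) := by
      have hb := hB v
      rw [imb] at hb
      rcases zmod3_cases (π v) i with h | h | h
      · exact absurd h hi
      · rw [h]
      · rw [h]
        have : dg G v (pt π univ (π v + 1)) = dg G v (pt π univ (π v - 1)) := by omega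
        rw [this]
    rw [h1]
    field_simp
    ring
  mle := fun v => by
    have hN' : (0 : ℝ) < N := by exact_mod_cast hN
    have h := hd v (π v + 1) (zmod3_ne1 _)
    have h2 : (N : ℝ) ≤ dg G v (pt π univ (π v + 1)) + k := by exact_mod_cast h
    apply div_le_div_of_nonneg_right _ hN'.le
    linarith

theorem p_Y14 : S_Y14 := by
  intro hY1 hY2 hY5 hSol V _ _ π G N k hN hk hE hT hB hd hdef
  classical
  have hN' : (0 : ℝ) < N := by exact_mod_cast hN
  have hk' : (16 : ℝ) * k ≤ 3 * N := by exact_mod_cast hk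
  have hk0 : (0 : ℝ) ≤ k := Nat.cast_nonneg _
  set c0 : ℝ := (k : ℝ) / N with hc0
  set m : V → ℝ := fun v => ((N : ℝ) - dg G v (pt π univ (π v + 1))) / N with hm
  set w : V → V → ℝ := fun u v => if G.Adj u v then (1 : ℝ) else 0 with hw
  have hW : Wt π N c0 m w := y14_wt π G N k hN hE hT hB hd
  have hc00 : 0 ≤ c0 := by positivity
  have hc01 : c0 ≤ 3 / 16 := by
    rw [hc0, div_le_iff₀ hN']
    linarith
  have hsum : ∑ v, (c0 - m v) ≤ 3 / 2 * N * c0 ^ 2 := by
    have e1 : ∑ v, (c0 - m v) = (∑ v, ((dg G v (pt π univ (π v + 1)) : ℝ) + k - N)) / N := by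
      rw [Finset.sum_div]
      refine Finset.sum_congr rfl fun v _ => ?_
      rw [hc0, hm]
      field_simp
      ring
    have e2 : 2 * ∑ v, ((dg G v (pt π univ (π v + 1)) : ℝ) + k - N) ≤ 3 * (k : ℝ) ^ 2 := by
      exact_mod_cast hdef
    rw [e1, hc0, div_le_iff₀ hN']
    have e3 : 3 / 2 * (N : ℝ) * ((k : ℝ) / N) ^ 2 * N = 3 / 2 * (k : ℝ) ^ 2 := by
      field_simp
    rw [e3]
    linarith
  obtain ⟨z, hz1, hz2⟩ := hSol V π N c0 m w hW hc00 hc01 hsum
  have hc14 : c0 < 1 / 4 := by linarith
  obtain ⟨hsym, -, h5⟩ := hY5 hY1 V π N c0 m w hW hc14 z hz1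
  obtain ⟨h2a, h2b⟩ := hY2 hY1 V π N c0 m w hW hc14 z
  have hF : ∀ u v, π u ≠ π v →
      tt N w u v * z u v - SS π N w z u v = 1 - ze N w z u - ze N w z v := by
    intro u v huv
    have h := hz1 u v
    rw [FF, if_neg huv] at h
    linarith
  have hpos : ∀ u v, π u ≠ π v → 0 ≤ z u v := h2a fun u v huv => by
    rw [hF u v huv]
    have := hz2 u
    have := hz2 v
    linarith
  have hze : ∀ v, 0 ≤ ze N w z v := by
    intro v
    rw [ze]
    refine div_nonneg (Finset.sum_nonneg fun x _ => ?_) (by positivity)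
    by_cases h : π v = π x
    · rw [hW.same v x h, zero_mul]
    · exact mul_nonneg (hW.nonneg v x) (hpos v x h)
  have hle : ∀ u v, π u ≠ π v → z u v ≤ 4 := by
    intro u v huv
    refine (h2b (fun u v huv => ?_) u v huv).trans ?_
    · rw [hF u v huv]
      have := hze u
      have := hze v
      linarith
    · rw [div_le_iff₀ (by linarith)]
      linarith
  set W : Finset V → ℝ := fun t => if G.IsNClique 3 t then
    (1 / (2 * (N : ℝ))) * ∑ u ∈ t, ∑ v ∈ t, (if u = v then 0 else z u v) else 0 with hWdef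
  have hWt : ∀ a b c : V, G.Adj a b → G.Adj a c → G.Adj b c →
      W {a, b, c} = (z a b + z a c + z b c) / N := by
    intro a b c hab hac hbc
    have hcl : G.IsNClique 3 ({a, b, c} : Finset V) :=
      SimpleGraph.is3Clique_iff.2 ⟨a, b, c, hab, hac, hbc, rfl⟩
    rw [hWdef]
    simp only [if_pos hcl]
    have n1 := hab.ne
    have n2 := hac.ne
    have n3 := hbc.ne
    have m1 : a ∉ ({b, c} : Finset V) := by simp [n1, n2]
    have m2 : b ∉ ({c} : Finset V) := by simp [n3]
    rw [Finset.sum_insert m1, Finset.sum_insert m2, Finset.sum_singleton,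
      Finset.sum_insert m1, Finset.sum_insert m2, Finset.sum_singleton,
      Finset.sum_insert m1, Finset.sum_insert m2, Finset.sum_singleton,
      Finset.sum_insert m1, Finset.sum_insert m2, Finset.sum_singleton]
    simp only [if_true, n1, n2, n3, n1.symm, n2.symm, n3.symm, if_false]
    rw [hsym b a, hsym c a, hsym c b]
    field_simp
    ring
  refine ⟨W, fun t => ?_, fun t => ?_, fun x y hxy => ?_⟩
  · by_cases ht : G.IsNClique 3 t
    · obtain ⟨a, b, c, hab, hac, hbc, rfl⟩ := SimpleGraph.is3Clique_iff.1 ht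
      rw [hWt a b c hab hac hbc]
      have := hpos a b (hT _ _ hab)
      have := hpos a c (hT _ _ hac)
      have := hpos b c (hT _ _ hbc)
      positivity
    · rw [hWdef]
      simp only [if_neg ht]
      exact le_rfl
  · by_cases ht : G.IsNClique 3 t
    · obtain ⟨a, b, c, hab, hac, hbc, rfl⟩ := SimpleGraph.is3Clique_iff.1 ht
      rw [hWt a b c hab hac hbc]
      have := hle a b (hT _ _ hab)
      have := hle a c (hT _ _ hac)
      have := hle b c (hT _ _ hbc)
      apply div_le_div_of_nonneg_right _ hN'.le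
      linarith
    · rw [hWdef]
      simp only [if_neg ht]
      positivity
  · have h := h5 x y (by rw [hw]; simp [hxy])
    have e1 : ∑ v ∈ cn G x y, W {x, y, v} =
        ∑ v ∈ cn G x y, (z x y + z x v + z y v) / N := by
      refine Finset.sum_congr rfl fun v hv => ?_
      rw [cn, mem_inter, mem_nb, mem_nb] at hv
      exact hWt x y v hxy hv.1.2 hv.2.2
    have e2 : ∑ v, w x v * w y v * (z x y + z x v + z y v) =
        ∑ v ∈ cn G x y, (z x y + z x v + z y v) := by
      rw [← Finset.sum_subset (Finset.subset_univ (cn G x y))]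
      · refine Finset.sum_congr rfl fun v hv => ?_
        rw [cn, mem_inter, mem_nb, mem_nb] at hv
        rw [hw]
        simp only [hv.1.2, hv.2.2, if_true, one_mul]
      · intro v _ hv
        rw [cn, mem_inter, mem_nb, mem_nb] at hv
        rw [hw]
        by_cases h1 : G.Adj x v
        · have h2' : ¬ G.Adj y v := fun h2 => hv ⟨⟨mem_univ _, h1⟩, ⟨mem_univ _, h2⟩⟩
          simp only [h2', if_false, mul_zero, zero_mul]
        · simp only [h1, if_false, zero_mul]
    rw [e1, ← Finset.sum_div, ← e2, h, div_self hN'.ne']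

end DH
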