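import Pool.Agent.Lib.MP_fe8cb7_co.h77.StF

open Finset

namespace DH

theorem p_Y2 : S_Y2 := by
  intro hY1 V _ _ π N c m w hW hc z
  obtain ⟨hm0, hmi, hco, hcom, htt, hsum, -, -, -, -⟩ := hY1 V π N c m w hW
  have hN : (0 : ℝ) < N := by exact_mod_cast hW.pos
  -- the sum of the coefficients
  have hcoef : ∀ (μ : ℝ) (u v : V), π u ≠ π v →
      (∑ x, (w u x * mi π w v x * μ + w v x * mi π w u x * μ)) / N =
        μ * (m u + m v - 2 * co π N w u v) := by
    intro μ u v huv
    rw [Finset.sum_add_distrib, ← Finset.sum_mul, ← Finset.sum_mul, hsum u v huv,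
      hsum v u (Ne.symm huv), (hco v u).2]
    field_simp
    ring
  -- lower bound
  have hlow : ∀ (μ : ℝ), (∀ a b, π a ≠ π b → μ ≤ z a b) → ∀ u v, π u ≠ π v →
      μ * (m u + m v - 2 * co π N w u v) ≤ SS π N w z u v := by
    intro μ hμ u v huv
    rw [← hcoef μ u v huv]
    unfold SS
    apply div_le_div_of_nonneg_right _ hN.le
    have key : ∀ a b x : V, w a x * mi π w b x * μ ≤ w a x * mi π w b x * z a x := by
      intro a b x
      by_cases h : π a = π x
      · rw [hW.same a x h]
        simp
      · exact mul_le_mul_of_nonneg_left (hμ a x h)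
          (mul_nonneg (hW.nonneg a x) (hmi b x).1)
    apply Finset.sum_le_sum
    intro x _
    exact add_le_add (key u v x) (key v u x)
  have hupp : ∀ (μ : ℝ), (∀ a b, π a ≠ π b → z a b ≤ μ) → ∀ u v, π u ≠ π v →
      SS π N w z u v ≤ μ * (m u + m v - 2 * co π N w u v) := by
    intro μ hμ u v huv
    rw [← hcoef μ u v huv]
    unfold SS
    apply div_le_div_of_nonneg_right _ hN.le
    have key : ∀ a b x : V, w a x * mi π w b x * z a x ≤ w a x * mi π w b x * μ := by
      intro a b x
      by_cases h : π a = π x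
      · rw [hW.same a x h]
        simp
      · exact mul_le_mul_of_nonneg_left (hμ a x h)
          (mul_nonneg (hW.nonneg a x) (hmi b x).1)
    apply Finset.sum_le_sum
    intro x _
    exact add_le_add (key u v x) (key v u x)
  have hgap : ∀ u v, 1 - 4 * c ≤ 1 - 2 * m u - 2 * m v + 3 * co π N w u v := by
    intro u v
    have h1 := hW.mle u
    have h2 := hW.mle v
    have h3 := (hco u v).1
    linarith
  constructor
  · intro h u v huv
    by_contra hneg
    push Not at hneg
    have hne : ((univ : Finset (V × V)).filter (fun p => π p.1 ≠ π p.2)).Nonempty :=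
      ⟨(u, v), Finset.mem_filter.mpr ⟨Finset.mem_univ _, huv⟩⟩
    obtain ⟨⟨a, b⟩, hab, hmin⟩ := Finset.exists_min_image _ (fun p : V × V => z p.1 p.2) hne
    have hab' : π a ≠ π b := (Finset.mem_filter.mp hab).2
    have hμ : ∀ a' b', π a' ≠ π b' → z a b ≤ z a' b' := fun a' b' h' =>
      hmin (a', b') (Finset.mem_filter.mpr ⟨Finset.mem_univ _, h'⟩)
    have hz : z a b < 0 := lt_of_le_of_lt (hμ u v huv) hneg
    have h1 := hlow (z a b) hμ a b hab'
    have h2 := h a b hab'
    rw [htt a b hab'] at h2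
    have h3 := hgap a b
    have h4 : z a b * (1 - 2 * m a - 2 * m b + 3 * co π N w a b) < 0 :=
      mul_neg_of_neg_of_pos hz (by linarith)
    nlinarith
  · intro h u v huv
    have hne : ((univ : Finset (V × V)).filter (fun p => π p.1 ≠ π p.2)).Nonempty :=
      ⟨(u, v), Finset.mem_filter.mpr ⟨Finset.mem_univ _, huv⟩⟩
    obtain ⟨⟨a, b⟩, hab, hmax⟩ := Finset.exists_max_image _ (fun p : V × V => z p.1 p.2) hne
    have hab' : π a ≠ π b := (Finset.mem_filter.mp hab).2
    have hμ : ∀ a' b', π a' ≠ π b' → z a' b' ≤ z a b := fun a' b' h' =>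
      hmax (a', b') (Finset.mem_filter.mpr ⟨Finset.mem_univ _, h'⟩)
    refine (hμ u v huv).trans ?_
    have hpos : 0 < 1 - 4 * c := by linarith
    rcases le_or_gt (z a b) 0 with hz | hz
    · exact hz.trans (by positivity)
    · have h1 := hupp (z a b) hμ a b hab'
      have h2 := h a b hab'
      rw [htt a b hab'] at h2
      have h3 := hgap a b
      rw [le_div_iff₀ hpos]
      have h4 : z a b * (1 - 4 * c) ≤ z a b * (1 - 2 * m a - 2 * m b + 3 * co π N w a b) :=
        mul_le_mul_of_nonneg_left h3 hz.le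
      nlinarith

end DH
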