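import Pool.Agent.Lib.MP_fe8cb7_co.h77.StF

/-!
# Daykin-Haggkvist problem, bound 3/16: piece Y3 (energy inequality)
-/

open Finset

namespace DH

theorem p_Y3 : S_Y3 := by
  intro hY1 V _ _ π N c m w hw z hz
  obtain ⟨hm0, hM, hco, hcole, htt, hwM, -, -, -, -⟩ := hY1 V π N c m w hw
  have hN : (0 : ℝ) < N := by exact_mod_cast hw.pos
  set M : V → V → ℝ := mi π w with hMdef
  set K : V → V → ℝ := co π N w with hKdef
  -- the three sums
  set A : ℝ := ∑ u, ∑ v, ∑ x, w u v * z u v * (w u x * M v x * z u x) with hA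
  set B : ℝ := ∑ u, ∑ v, ∑ x, w u v * z u v * (w v x * M u x * z v x) with hB
  set C : ℝ := ∑ u, ∑ v, ∑ x, w u v * w u x * M v x * z u v ^ 2 with hC
  have hAB : B = A := by
    rw [hB, hA, sum_comm]
    refine sum_congr rfl fun u _ => sum_congr rfl fun v _ => sum_congr rfl fun x _ => ?_
    rw [hw.symm v u, hz v u]
  have hD : ∑ u, ∑ v, ∑ x, w u v * w u x * M v x * z u x ^ 2 = C := by
    rw [hC]
    refine sum_congr rfl fun u _ => ?_
    rw [sum_comm]
    refine sum_congr rfl fun v _ => sum_congr rfl fun x _ => ?_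
    rw [(hM x v).2.2]
    ring
  have hAC : 2 * A ≤ 2 * C := by
    have h1 : 2 * A ≤ C + ∑ u, ∑ v, ∑ x, w u v * w u x * M v x * z u x ^ 2 := by
      rw [hA, hC, mul_sum, ← sum_add_distrib]
      refine sum_le_sum fun u _ => ?_
      rw [mul_sum, ← sum_add_distrib]
      refine sum_le_sum fun v _ => ?_
      rw [mul_sum, ← sum_add_distrib]
      refine sum_le_sum fun x _ => ?_
      have h2 : 0 ≤ w u v * w u x * M v x :=
        mul_nonneg (mul_nonneg (hw.nonneg _ _) (hw.nonneg _ _)) (hM v x).1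
      nlinarith [mul_nonneg h2 (sq_nonneg (z u v - z u x))]
    rw [hD] at h1
    linarith
  have hC2 : C = N * ∑ u, ∑ v, w u v * z u v ^ 2 * (m v - K u v) := by
    rw [hC, mul_sum]
    refine sum_congr rfl fun u _ => ?_
    rw [mul_sum]
    refine sum_congr rfl fun v _ => ?_
    by_cases h : π u = π v
    · rw [hw.same u v h]
      simp
    · have h1 : ∑ x, w u v * w u x * M v x * z u v ^ 2 =
          w u v * z u v ^ 2 * ∑ x, w u x * M v x := by
        rw [mul_sum]
        exact sum_congr rfl fun x _ => by ring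
      rw [h1, hwM u v h]
      ring
  have hE : ∑ u, ∑ v, w u v * z u v ^ 2 * (m v - K u v) =
      ∑ u, ∑ v, w u v * z u v ^ 2 * (m u - K u v) := by
    rw [sum_comm]
    refine sum_congr rfl fun u _ => sum_congr rfl fun v _ => ?_
    rw [hw.symm v u, hz v u, (hco v u).2]
  have hF : ∑ u, ∑ v, w u v * z u v ^ 2 * (m u + m v - 2 * K u v) =
      2 * ∑ u, ∑ v, w u v * z u v ^ 2 * (m v - K u v) := by
    rw [two_mul]
    nth_rewrite 1 [hE]
    rw [← sum_add_distrib]
    refine sum_congr rfl fun u _ => ?_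
    rw [← sum_add_distrib]
    exact sum_congr rfl fun v _ => by ring
  have hS : ∑ u, ∑ v, w u v * z u v * SS π N w z u v = (A + B) / N := by
    rw [hA, hB, ← sum_add_distrib, sum_div]
    refine sum_congr rfl fun u _ => ?_
    rw [← sum_add_distrib, sum_div]
    refine sum_congr rfl fun v _ => ?_
    rw [← sum_add_distrib, SS, ← mul_div_assoc, mul_sum]
    congr 1
    exact sum_congr rfl fun x _ => by ring
  have hkey : ∑ u, ∑ v, w u v * z u v * SS π N w z u v ≤
      ∑ u, ∑ v, w u v * z u v ^ 2 * (m u + m v - 2 * K u v) := by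
    rw [hS, hF, div_le_iff₀ hN, hAB]
    have h1 : 2 * (∑ u, ∑ v, w u v * z u v ^ 2 * (m v - K u v)) * N = 2 * C := by
      rw [hC2]
      ring
    rw [h1]
    linarith
  have hR : ∑ u, ∑ v, w u v * z u v * (tt N w u v * z u v - SS π N w z u v) =
      ∑ u, ∑ v, w u v * z u v ^ 2 * tt N w u v - ∑ u, ∑ v, w u v * z u v * SS π N w z u v := by
    rw [← sum_sub_distrib]
    refine sum_congr rfl fun u _ => ?_
    rw [← sum_sub_distrib]
    exact sum_congr rfl fun v _ => by ring
  have hL : ∑ u, ∑ v, w u v * (1 - 4 * c + 3 * K u v) * z u v ^ 2 ≤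
      ∑ u, ∑ v, w u v * z u v ^ 2 * tt N w u v -
        ∑ u, ∑ v, w u v * z u v ^ 2 * (m u + m v - 2 * K u v) := by
    rw [← sum_sub_distrib]
    refine sum_le_sum fun u _ => ?_
    rw [← sum_sub_distrib]
    refine sum_le_sum fun v _ => ?_
    by_cases h : π u = π v
    · rw [hw.same u v h]
      simp
    · rw [htt u v h]
      have h1 := hw.mle u
      have h2 := hw.mle v
      have h3 : 0 ≤ w u v * z u v ^ 2 := mul_nonneg (hw.nonneg _ _) (sq_nonneg _)
      have h4 : w u v * z u v ^ 2 * (1 - m u - m v + K u v) -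
          w u v * z u v ^ 2 * (m u + m v - 2 * K u v) -
          w u v * (1 - 4 * c + 3 * K u v) * z u v ^ 2 =
          w u v * z u v ^ 2 * (4 * c - 2 * m u - 2 * m v) := by ring
      have h5 : 0 ≤ w u v * z u v ^ 2 * (4 * c - 2 * m u - 2 * m v) :=
        mul_nonneg h3 (by linarith)
      linarith
  rw [hR]
  linarith

end DH
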