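import Pool.Agent.Lib.MP_fe8cb7_co.h77.StF

open Finset

namespace DH

section

variable {V : Type} [Fintype V]

theorem y4_SS_swap (π : V → ZMod 3) (N : ℕ) (w z : V → V → ℝ) (u v : V) :
    SS π N w z u v = SS π N w z v u := by
  unfold SS
  rw [Finset.sum_congr rfl (fun x _ => add_comm (w u x * mi π w v x * z u x)
    (w v x * mi π w u x * z v x))]

theorem y4_tt_swap (N : ℕ) (w : V → V → ℝ) (u v : V) :
    tt N w u v = tt N w v u := by
  unfold tt
  rw [Finset.sum_congr rfl (fun x _ => mul_comm (w u x) (w v x))]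

theorem y4_tt_pos [DecidableEq V] (hY1 : S_Y1) {π : V → ZMod 3} {N : ℕ} {c : ℝ} {m : V → ℝ}
    {w : V → V → ℝ} (hW : Wt π N c m w) (hc : c < 1 / 4) {u v : V} (h : π u ≠ π v) :
    0 < tt N w u v := by
  obtain ⟨h1, h2, h3, h4, h5, h6⟩ := hY1 V π N c m w hW
  rw [h5 u v h]
  have a1 := hW.mle u
  have a2 := hW.mle v
  have a3 := (h3 u v).1
  linarith

theorem y4_symm [DecidableEq V] (hY1 : S_Y1) {π : V → ZMod 3} {N : ℕ} {c : ℝ} {m : V → ℝ}
    {w : V → V → ℝ} (hW : Wt π N c m w) (hc : c < 1 / 4) {z : V → V → ℝ} {k : ℝ}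
    (hF : ∀ u v, FF π N w z u v = k) (u v : V) : z u v = z v u := by
  by_cases h : π u = π v
  · have e1 := hF u v
    have e2 := hF v u
    unfold FF at e1 e2
    rw [if_pos h] at e1
    rw [if_pos h.symm] at e2
    rw [e1, e2]
  · have e1 := hF u v
    have e2 := hF v u
    unfold FF at e1 e2
    rw [if_neg h] at e1
    rw [if_neg (fun h' => h h'.symm)] at e2
    rw [y4_tt_swap N w v u, y4_SS_swap π N w z v u] at e2
    have hp := y4_tt_pos hY1 hW hc h
    have e3 : tt N w u v * (z u v - z v u) = 0 := by linarith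
    rcases mul_eq_zero.1 e3 with h0 | h0
    · exact absurd h0 hp.ne'
    · linarith

theorem y4_sum_ze {π : V → ZMod 3} {N : ℕ} {c : ℝ} {m : V → ℝ}
    {w : V → V → ℝ} (hW : Wt π N c m w) (z : V → V → ℝ) (v : V) :
    ∑ x, w v x * z v x = 2 * N * ze N w z v := by
  have hN : (0 : ℝ) < N := Nat.cast_pos.2 hW.pos
  unfold ze
  field_simp

end

theorem p_Y4 : S_Y4 := by
  intro hY1 hY3 V _ _ π N c m w hW hc z hF
  have hN : (0 : ℝ) < N := Nat.cast_pos.2 hW.pos
  have hsymm : ∀ u v, z u v = z v u := y4_symm hY1 hW hc hF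
  obtain ⟨h1, h2, h3, h4, h5, h6⟩ := hY1 V π N c m w hW
  have key := hY3 hY1 V π N c m w hW z hsymm
  -- the pairing
  have hpt : ∀ u v, w u v * z u v * (tt N w u v * z u v - SS π N w z u v) =
      -(w u v * z u v * ze N w z u) - w u v * z u v * ze N w z v := by
    intro u v
    by_cases h : π u = π v
    · rw [hW.same u v h]; ring
    · have e1 := hF u v
      unfold FF at e1
      rw [if_neg h] at e1
      have e2 : tt N w u v * z u v - SS π N w z u v = -(ze N w z u + ze N w z v) := by linarith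
      rw [e2]; ring
  have hA : ∑ u, ∑ v, w u v * z u v * ze N w z u = ∑ u, 2 * N * ze N w z u ^ 2 := by
    refine Finset.sum_congr rfl (fun u _ => ?_)
    rw [← Finset.sum_mul, y4_sum_ze hW z u]
    ring
  have hB : ∑ u, ∑ v, w u v * z u v * ze N w z v = ∑ u, 2 * N * ze N w z u ^ 2 := by
    rw [Finset.sum_comm, ← hA]
    refine Finset.sum_congr rfl (fun u _ => Finset.sum_congr rfl (fun v _ => ?_))
    rw [hW.symm v u, hsymm v u]
  have hC : ∑ u, ∑ v, w u v * z u v * (tt N w u v * z u v - SS π N w z u v) ≤ 0 := by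
    rw [Finset.sum_congr rfl (fun u _ => Finset.sum_congr rfl (fun v _ => hpt u v))]
    rw [Finset.sum_congr rfl (fun u _ => Finset.sum_sub_distrib _ _), Finset.sum_sub_distrib]
    rw [Finset.sum_congr rfl (fun u _ => Finset.sum_neg_distrib _), Finset.sum_neg_distrib]
    rw [hA, hB]
    have : 0 ≤ ∑ u, 2 * (N : ℝ) * ze N w z u ^ 2 :=
      Finset.sum_nonneg (fun u _ => by positivity)
    linarith
  have hD : ∑ u, ∑ v, w u v * (1 - 4 * c + 3 * co π N w u v) * z u v ^ 2 ≤ 0 := key.trans hC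
  have hnn : ∀ u v, 0 ≤ w u v * (1 - 4 * c + 3 * co π N w u v) * z u v ^ 2 := by
    intro u v
    have a1 := hW.nonneg u v
    have a2 := (h3 u v).1
    have a3 : 0 ≤ 1 - 4 * c + 3 * co π N w u v := by linarith
    positivity
  have hE : ∑ u, ∑ v, w u v * (1 - 4 * c + 3 * co π N w u v) * z u v ^ 2 = 0 :=
    le_antisymm hD (Finset.sum_nonneg (fun u _ => Finset.sum_nonneg (fun v _ => hnn u v)))
  have hwz : ∀ u v, w u v * z u v = 0 := by
    intro u v
    have f1 := (Finset.sum_eq_zero_iff_of_nonneg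
      (fun u _ => Finset.sum_nonneg (fun v _ => hnn u v))).1 hE u (Finset.mem_univ u)
    have f2 := (Finset.sum_eq_zero_iff_of_nonneg
      (fun v _ => hnn u v)).1 f1 v (Finset.mem_univ v)
    have a2 := (h3 u v).1
    have a3 : 0 < 1 - 4 * c + 3 * co π N w u v := by linarith
    rcases mul_eq_zero.1 f2 with f3 | f3
    · rcases mul_eq_zero.1 f3 with f4 | f4
      · rw [f4, zero_mul]
      · exact absurd f4 a3.ne'
    · have : z u v = 0 := pow_eq_zero_iff (two_ne_zero) |>.1 f3
      rw [this, mul_zero]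
  have hze : ∀ u, ze N w z u = 0 := by
    intro u
    unfold ze
    rw [Finset.sum_eq_zero (fun x _ => hwz u x), zero_div]
  have hSS : ∀ u v, SS π N w z u v = 0 := by
    intro u v
    unfold SS
    rw [Finset.sum_eq_zero, zero_div]
    intro x _
    have e1 := hwz u x
    have e2 := hwz v x
    have e3 : w u x * mi π w v x * z u x + w v x * mi π w u x * z v x =
      mi π w v x * (w u x * z u x) + mi π w u x * (w v x * z v x) := by ring
    rw [e3, e1, e2]; ring
  intro u v
  have e1 := hF u v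
  unfold FF at e1
  by_cases h : π u = π v
  · rw [if_pos h] at e1
    exact e1
  · rw [if_neg h, hze, hze, hSS] at e1
    have hp := y4_tt_pos hY1 hW hc h
    have e3 : tt N w u v * z u v = 0 := by linarith
    rcases mul_eq_zero.1 e3 with h0 | h0
    · exact absurd h0 hp.ne'
    · exact h0

end DH
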