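import Pool.Agent.Lib.MP_fe8cb7_co.h77.StF

open Finset

namespace DH

section

variable {V : Type} [Fintype V]

theorem y5_SS_swap (π : V → ZMod 3) (N : ℕ) (w z : V → V → ℝ) (u v : V) :
    SS π N w z u v = SS π N w z v u := by
  unfold SS
  rw [Finset.sum_congr rfl (fun x _ => add_comm (w u x * mi π w v x * z u x)
    (w v x * mi π w u x * z v x))]

theorem y5_tt_swap (N : ℕ) (w : V → V → ℝ) (u v : V) :
    tt N w u v = tt N w v u := by
  unfold tt
  rw [Finset.sum_congr rfl (fun x _ => mul_comm (w u x) (w v x))]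

theorem y5_tt_pos [DecidableEq V] (hY1 : S_Y1) {π : V → ZMod 3} {N : ℕ} {c : ℝ} {m : V → ℝ}
    {w : V → V → ℝ} (hW : Wt π N c m w) (hc : c < 1 / 4) {u v : V} (h : π u ≠ π v) :
    0 < tt N w u v := by
  obtain ⟨h1, h2, h3, h4, h5, h6⟩ := hY1 V π N c m w hW
  rw [h5 u v h]
  have a1 := hW.mle u
  have a2 := hW.mle v
  have a3 := (h3 u v).1
  linarith

theorem y5_symm [DecidableEq V] (hY1 : S_Y1) {π : V → ZMod 3} {N : ℕ} {c : ℝ} {m : V → ℝ}
    {w : V → V → ℝ} (hW : Wt π N c m w) (hc : c < 1 / 4) {z : V → V → ℝ} {k : ℝ}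
    (hF : ∀ u v, FF π N w z u v = k) (u v : V) : z u v = z v u := by
  by_cases h : π u = π v
  · have e1 := hF u v
    have e2 := hF v u
    unfold FF at e1 e2
    rw [if_pos h] at e1
    rw [if_pos h.symm] at e2
    rw [e1, e2]
  · have e1 := hF u v
    have e2 := hF v u
    unfold FF at e1 e2
    rw [if_neg h] at e1
    rw [if_neg (fun h' => h h'.symm)] at e2
    rw [y5_tt_swap N w v u, y5_SS_swap π N w z v u] at e2
    have hp := y5_tt_pos hY1 hW hc h
    have e3 : tt N w u v * (z u v - z v u) = 0 := by linarith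
    rcases mul_eq_zero.1 e3 with h0 | h0
    · exact absurd h0 hp.ne'
    · linarith

/-- case distinction in `ZMod 3` -/
theorem y5_cases (a b : ZMod 3) : b = a ∨ b = a + 1 ∨ b = a - 1 := by
  revert a b; decide

theorem y5_third (p q r l : ZMod 3) : q ≠ r → l ≠ q → l ≠ r → ¬p = q → ¬p = r → p = l := by
  revert p q r l; decide

theorem y5_ne1 (a : ZMod 3) : a + 1 ≠ a := by revert a; decide
theorem y5_ne2 (a : ZMod 3) : a - 1 ≠ a := by revert a; decide
theorem y5_ne3 (a : ZMod 3) : a - 1 ≠ a + 1 := by revert a; decide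
theorem y5_eq1 (a : ZMod 3) : a + 1 + 1 = a - 1 := by revert a; decide
theorem y5_eq2 (a : ZMod 3) : a - 1 + 1 = a := by revert a; decide
theorem y5_eq3 (a : ZMod 3) : a + 1 - 1 = a := by revert a; decide

/-- a sum over `V` whose terms vanish on the own part splits into the two other parts -/
theorem y5_split (π : V → ZMod 3) (f : V → ℝ) (a : ZMod 3) (hf : ∀ x, π x = a → f x = 0) :
    ∑ x, f x = ∑ x ∈ univ.filter (fun x => π x = a - 1), f x +
      ∑ x ∈ univ.filter (fun x => π x = a + 1), f x := by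
  rw [Finset.sum_filter, Finset.sum_filter, ← Finset.sum_add_distrib]
  refine Finset.sum_congr rfl (fun x _ => ?_)
  rcases y5_cases a (π x) with h | h | h
  · rw [hf x h, h, if_neg (y5_ne2 a).symm, if_neg (y5_ne1 a).symm, add_zero]
  · rw [h, if_neg (y5_ne3 a).symm, if_pos rfl, zero_add]
  · rw [h, if_pos rfl, if_neg (y5_ne3 a), add_zero]

theorem y5_ze {π : V → ZMod 3} {N : ℕ} {c : ℝ} {m : V → ℝ}
    {w : V → V → ℝ} (hW : Wt π N c m w) (z : V → V → ℝ) (v : V) :
    ze N w z v = (zs π N w z v (π v - 1) + zs π N w z v (π v + 1)) / 2 := by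
  have hN : (0 : ℝ) < N := Nat.cast_pos.2 hW.pos
  unfold ze zs
  rw [y5_split π (fun x => w v x * z v x) (π v) (fun x hx => by
    simp only [hW.same v x hx.symm, zero_mul])]
  field_simp

/-- the normalised triangle sum at `u v` -/
noncomputable def y5B (N : ℕ) (w z : V → V → ℝ) (u v : V) : ℝ :=
  (∑ x, w u x * w v x * (z u v + z u x + z v x)) / N

/-- half the difference of the halves -/
noncomputable def y5e (π : V → ZMod 3) (N : ℕ) (w z : V → V → ℝ) (v : V) : ℝ :=
  (zs π N w z v (π v - 1) - zs π N w z v (π v + 1)) / 2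

theorem y5_part {π : V → ZMod 3} {N : ℕ} {c : ℝ} {m : V → ℝ}
    {w : V → V → ℝ} (hW : Wt π N c m w) (z : V → V → ℝ) (u v : V) (h : π u ≠ π v)
    (l : ZMod 3) (h1 : l ≠ π u) (h2 : l ≠ π v) :
    ∑ x, w u x * w v x * z u x = N * zs π N w z u l - ∑ x, w u x * mi π w v x * z u x := by
  have hN : (0 : ℝ) < N := Nat.cast_pos.2 hW.pos
  have e : N * zs π N w z u l = ∑ x ∈ univ.filter (fun x => π x = l), w u x * z u x := by
    unfold zs
    field_simp
  rw [e, Finset.sum_filter, ← Finset.sum_sub_distrib]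
  refine Finset.sum_congr rfl (fun x _ => ?_)
  unfold mi
  by_cases hu : π x = π u
  · rw [hW.same u x hu.symm]
    split_ifs <;> ring
  · by_cases hv : π x = π v
    · rw [hW.same v x hv.symm, if_pos hv.symm, if_neg (by rw [hv]; exact h2.symm)]
      ring
    · have hl : π x = l := by
        exact y5_third (π x) (π u) (π v) l h h1 h2 hu hv
      rw [if_pos hl, if_neg (fun h' => hv h'.symm)]
      ring

theorem y5_B1 [DecidableEq V] {π : V → ZMod 3} {N : ℕ} {c : ℝ} {m : V → ℝ}
    {w : V → V → ℝ} (hW : Wt π N c m w) {z : V → V → ℝ}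
    (hF : ∀ u v, FF π N w z u v = 1) (u v : V) (h : π v = π u + 1) :
    y5B N w z u v = 1 + y5e π N w z u - y5e π N w z v := by
  have hN : (0 : ℝ) < N := Nat.cast_pos.2 hW.pos
  have hne : π u ≠ π v := by rw [h]; exact (y5_ne1 _).symm
  have e1 := hF u v
  unfold FF at e1
  rw [if_neg hne, y5_ze hW z u, y5_ze hW z v] at e1
  have hl1 : π u - 1 ≠ π u := y5_ne2 _
  have hl2 : π u - 1 ≠ π v := by rw [h]; exact y5_ne3 _
  have hl3 : π v + 1 = π u - 1 := by rw [h]; exact y5_eq1 _
  have e2 := y5_part hW z u v hne (π u - 1) hl1 hl2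
  have e3 := y5_part hW z v u hne.symm (π v + 1) (by rw [hl3]; exact hl2) (by rw [hl3]; exact hl1)
  have e4 : SS π N w z u v = (∑ x, w u x * mi π w v x * z u x) / N +
      (∑ x, w v x * mi π w u x * z v x) / N := by
    unfold SS
    rw [Finset.sum_add_distrib, add_div]
  have e5 : y5B N w z u v = tt N w u v * z u v + (∑ x, w u x * w v x * z u x) / N +
      (∑ x, w v x * w u x * z v x) / N := by
    unfold y5B tt
    rw [div_mul_eq_mul_div, Finset.sum_mul, ← add_div, ← add_div, ← Finset.sum_add_distrib,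
      ← Finset.sum_add_distrib]
    rw [Finset.sum_congr rfl (fun x _ => ?_)]
    ring
  rw [e5, e2, e3, sub_div, sub_div, mul_div_cancel_left₀ _ hN.ne', mul_div_cancel_left₀ _ hN.ne']
  unfold y5e
  linarith

theorem y5_Bswap {N : ℕ} {w z : V → V → ℝ}
    (hs : ∀ u v, z u v = z v u) (u v : V) : y5B N w z u v = y5B N w z v u := by
  unfold y5B
  rw [Finset.sum_congr rfl (fun x _ => ?_)]
  rw [hs v u]
  ring

end

theorem p_Y5 : S_Y5 := by
  intro hY1 V _ _ π N c m w hW hc z hF
  have hN : (0 : ℝ) < N := Nat.cast_pos.2 hW.pos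
  have hsymm : ∀ u v, z u v = z v u := y5_symm hY1 hW hc hF
  obtain ⟨h1, h2, h3, h4, h5, h6⟩ := hY1 V π N c m w hW
  have hB : ∀ u v, π v = π u + 1 → y5B N w z u v = 1 + y5e π N w z u - y5e π N w z v :=
    fun u v h => y5_B1 hW hF u v h
  have hB' : ∀ u v, π v = π u - 1 → y5B N w z u v = 1 + y5e π N w z v - y5e π N w z u := by
    intro u v h
    rw [y5_Bswap hsymm u v]
    exact hB v u (by rw [h]; exact (y5_eq2 _).symm)
  -- (3)
  have h31 : ∀ u, ∑ x ∈ univ.filter (fun x => π x = π u + 1), w u x * y5B N w z u x =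
      (∑ x ∈ univ.filter (fun x => π x = π u + 1), ∑ y ∈ univ.filter (fun y => π y = π u - 1),
        w u x * w u y * w x y * (z u x + z u y + z x y)) / N := by
    intro u
    rw [Finset.sum_div]
    refine Finset.sum_congr rfl (fun x hx => ?_)
    have hx' : π x = π u + 1 := (Finset.mem_filter.1 hx).2
    unfold y5B
    rw [← mul_div_assoc, Finset.mul_sum, Finset.sum_filter]
    congr 1
    refine Finset.sum_congr rfl (fun y _ => ?_)
    rcases y5_cases (π u) (π y) with h | h | h
    · rw [if_neg (by rw [h]; exact (y5_ne2 _).symm), hW.same u y h.symm]; ring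
    · rw [if_neg (by rw [h]; exact (y5_ne3 _).symm), hW.same x y (by rw [h, hx'])]; ring
    · rw [if_pos h]; ring
  have h32 : ∀ u, ∑ y ∈ univ.filter (fun y => π y = π u - 1), w u y * y5B N w z u y =
      (∑ x ∈ univ.filter (fun x => π x = π u + 1), ∑ y ∈ univ.filter (fun y => π y = π u - 1),
        w u x * w u y * w x y * (z u x + z u y + z x y)) / N := by
    intro u
    rw [Finset.sum_comm, Finset.sum_div]
    refine Finset.sum_congr rfl (fun y hy => ?_)
    have hy' : π y = π u - 1 := (Finset.mem_filter.1 hy).2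
    unfold y5B
    rw [← mul_div_assoc, Finset.mul_sum, Finset.sum_filter]
    congr 1
    refine Finset.sum_congr rfl (fun x _ => ?_)
    rcases y5_cases (π u) (π x) with h | h | h
    · rw [if_neg (by rw [h]; exact (y5_ne1 _).symm), hW.same u x h.symm]; ring
    · rw [if_pos h, hW.symm x y, hsymm x y]; ring
    · rw [if_neg (by rw [h]; exact (y5_ne3 _)), hW.same y x (by rw [h, hy'])]; ring
  have h33 : ∀ u, 2 * N * (1 - m u) * y5e π N w z u = ∑ x, w u x * y5e π N w z x := by
    intro u
    have g1 : ∑ x ∈ univ.filter (fun x => π x = π u + 1), w u x * y5B N w z u x =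
        N * (1 - m u) * (1 + y5e π N w z u) -
          ∑ x ∈ univ.filter (fun x => π x = π u + 1), w u x * y5e π N w z x := by
      rw [← hW.deg u (π u + 1) (y5_ne1 _), Finset.sum_mul, ← Finset.sum_sub_distrib]
      refine Finset.sum_congr rfl (fun x hx => ?_)
      rw [hB u x (Finset.mem_filter.1 hx).2]
      ring
    have g2 : ∑ x ∈ univ.filter (fun x => π x = π u - 1), w u x * y5B N w z u x =
        N * (1 - m u) * (1 - y5e π N w z u) +
          ∑ x ∈ univ.filter (fun x => π x = π u - 1), w u x * y5e π N w z x := by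
      rw [← hW.deg u (π u - 1) (y5_ne2 _), Finset.sum_mul, ← Finset.sum_add_distrib]
      refine Finset.sum_congr rfl (fun x hx => ?_)
      rw [hB' u x (Finset.mem_filter.1 hx).2]
      ring
    have g3 := y5_split π (fun x => w u x * y5e π N w z x) (π u) (fun x hx => by
      simp only [hW.same u x hx.symm, zero_mul])
    have g4 := (h31 u).trans (h32 u).symm
    rw [g1, g2] at g4
    rw [g3]
    linarith
  have hdeg : ∀ u, ∑ x, w u x = 2 * N * (1 - m u) := h6.2.1
  have h34 : ∑ u, ∑ x, w u x * (y5e π N w z u ^ 2 - y5e π N w z u * y5e π N w z x) = 0 := by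
    refine Finset.sum_eq_zero (fun u _ => ?_)
    have g : ∀ x, w u x * (y5e π N w z u ^ 2 - y5e π N w z u * y5e π N w z x) =
        w u x * y5e π N w z u ^ 2 - y5e π N w z u * (w u x * y5e π N w z x) := fun x => by ring
    rw [Finset.sum_congr rfl (fun x _ => g x), Finset.sum_sub_distrib, ← Finset.sum_mul,
      ← Finset.mul_sum, hdeg u, ← h33 u]
    ring
  have h35 : ∑ u, ∑ x, w u x * (y5e π N w z u - y5e π N w z x) ^ 2 = 0 := by
    have g1 : ∑ u, ∑ x, w u x * (y5e π N w z x ^ 2 - y5e π N w z u * y5e π N w z x) = 0 := by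
      rw [Finset.sum_comm, ← h34]
      refine Finset.sum_congr rfl (fun u _ => Finset.sum_congr rfl (fun x _ => ?_))
      rw [hW.symm x u]
      ring
    have g2 : ∑ u, ∑ x, w u x * (y5e π N w z u - y5e π N w z x) ^ 2 =
        ∑ u, ∑ x, w u x * (y5e π N w z u ^ 2 - y5e π N w z u * y5e π N w z x) +
        ∑ u, ∑ x, w u x * (y5e π N w z x ^ 2 - y5e π N w z u * y5e π N w z x) := by
      rw [← Finset.sum_add_distrib]
      refine Finset.sum_congr rfl (fun u _ => ?_)
      rw [← Finset.sum_add_distrib]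
      refine Finset.sum_congr rfl (fun x _ => ?_)
      ring
    rw [g2, h34, g1, add_zero]
  have hnn : ∀ u x, 0 ≤ w u x * (y5e π N w z u - y5e π N w z x) ^ 2 :=
    fun u x => mul_nonneg (hW.nonneg u x) (sq_nonneg _)
  have hee : ∀ u v, w u v ≠ 0 → y5e π N w z u = y5e π N w z v := by
    intro u v huv
    have f1 := (Finset.sum_eq_zero_iff_of_nonneg
      (fun u _ => Finset.sum_nonneg (fun v _ => hnn u v))).1 h35 u (Finset.mem_univ u)
    have f2 := (Finset.sum_eq_zero_iff_of_nonneg
      (fun v _ => hnn u v)).1 f1 v (Finset.mem_univ v)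
    rcases mul_eq_zero.1 f2 with f3 | f3
    · exact absurd f3 huv
    · have := (pow_eq_zero_iff (two_ne_zero)).1 f3
      linarith
  refine ⟨hsymm, ?_, ?_⟩
  · intro u v huv
    have := hee u v huv
    unfold y5e at this
    linarith
  · intro u v huv
    have hB1 : y5B N w z u v = 1 := by
      have he := hee u v huv
      rcases y5_cases (π u) (π v) with h | h | h
      · exact absurd (hW.same u v h.symm) huv
      · rw [hB u v h, he]; ring
      · rw [hB' u v h, he]; ring
    unfold y5B at hB1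
    rw [div_eq_one_iff_eq hN.ne'] at hB1
    exact hB1

end DH
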