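import Pool.Agent.Lib.MP_fe8cb7_co.h77.StF

/-!
# Daykin-Haggkvist problem, [DH Y6]: the two halves of `ζ` are equal
-/

open Finset

namespace DH

section Y6aux

variable {V : Type} [Fintype V]

lemma y6_zmod (a b : ZMod 3) (h : a ≠ b) : a = b + 1 ∨ a = b - 1 := by
  revert a b
  decide

lemma y6_zmod_ne (a : ZMod 3) : a + 1 ≠ a ∧ a - 1 ≠ a ∧ a - 1 ≠ a + 1 := by
  revert a
  decide

lemma y6_zmod_or (a b : ZMod 3) : a = b ∨ a = b + 1 ∨ a = b - 1 := by
  revert a b
  decide

/-- exchange of the two variables, for a fixed difference of the parts -/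
lemma y6_swap (π : V → ZMod 3) (f : V → V → ℝ) (hf : ∀ u v, f u v = f v u) :
    ∑ v, ∑ x ∈ univ.filter (fun x => π x = π v - 1), f v x =
      ∑ v, ∑ x ∈ univ.filter (fun x => π x = π v + 1), f v x := by
  have h1 : ∀ v : V, ∑ x ∈ univ.filter (fun x => π x = π v - 1), f v x =
      ∑ x, if π x = π v - 1 then f v x else 0 := fun v => Finset.sum_filter _ _
  have h2 : ∀ v : V, ∑ x ∈ univ.filter (fun x => π x = π v + 1), f v x =
      ∑ x, if π x = π v + 1 then f v x else 0 := fun v => Finset.sum_filter _ _
  simp only [h1, h2]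
  rw [Finset.sum_comm]
  refine Finset.sum_congr rfl fun x _ => Finset.sum_congr rfl fun v _ => ?_
  have h3 : (π x = π v - 1) ↔ (π v = π x + 1) := by
    constructor
    · intro h
      rw [h]
      ring
    · intro h
      rw [h]
      ring
  by_cases h : π x = π v - 1
  · rw [if_pos h, if_pos (h3.1 h), hf]
  · rw [if_neg h, if_neg (fun h' => h (h3.2 h'))]

/-- exchange between two parts -/
lemma y6_swap2 (π : V → ZMod 3) (f : V → V → ℝ) (hf : ∀ u v, f u v = f v u) (i j : ZMod 3) :
    ∑ v ∈ univ.filter (fun v => π v = i), ∑ x ∈ univ.filter (fun x => π x = j), f v x =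
      ∑ v ∈ univ.filter (fun v => π v = j), ∑ x ∈ univ.filter (fun x => π x = i), f v x := by
  rw [Finset.sum_comm]
  exact Finset.sum_congr rfl fun x _ => Finset.sum_congr rfl fun v _ => hf v x

/-- the sum over everything splits into three parts -/
lemma y6_split (π : V → ZMod 3) (g : V → ℝ) (a : ZMod 3) :
    ∑ x, g x = ∑ x ∈ univ.filter (fun x => π x = a), g x +
      (∑ x ∈ univ.filter (fun x => π x = a + 1), g x +
        ∑ x ∈ univ.filter (fun x => π x = a - 1), g x) := by
  simp only [Finset.sum_filter]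
  rw [← Finset.sum_add_distrib, ← Finset.sum_add_distrib]
  refine Finset.sum_congr rfl fun x _ => ?_
  obtain ⟨n1, n2, n3⟩ := y6_zmod_ne a
  rcases y6_zmod_or (π x) a with h | h | h
  · rw [if_pos h, if_neg (by rw [h]; exact n1.symm), if_neg (by rw [h]; exact n2.symm)]
    ring
  · rw [if_neg (by rw [h]; exact n1), if_pos h, if_neg (by rw [h]; exact n3.symm)]
    ring
  · rw [if_neg (by rw [h]; exact n2), if_neg (by rw [h]; exact n3), if_pos h]
    ring

end Y6aux

theorem p_Y6 : S_Y6 := by
  intro hY1 hY5 V _ _ π N c m w hW hc hpos z hz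
  obtain ⟨hsym, hdiff, -⟩ := hY5 hY1 V π N c m w hW hc z hz
  have hN : (0 : ℝ) < N := by exact_mod_cast hW.pos
  have hf : ∀ u v, w u v * z u v = w v u * z v u := by
    intro u v
    rw [hW.symm u v, hsym u v]
  -- parts are nonempty
  have hne : ∀ i : ZMod 3, ∃ x, π x = i := by
    intro i
    have h1 : 0 < (univ.filter (fun v => π v = i)).card := by
      rw [hW.part i]
      exact hW.pos
    obtain ⟨x, hx⟩ := Finset.card_pos.1 h1
    exact ⟨x, (Finset.mem_filter.1 hx).2⟩
  -- the difference is constant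
  have hcross : ∀ u v, π u ≠ π v → zs π N w z u (π u - 1) - zs π N w z u (π u + 1)
      = zs π N w z v (π v - 1) - zs π N w z v (π v + 1) :=
    fun u v h => hdiff u v (ne_of_gt (hpos u v h))
  have hall : ∀ u v, zs π N w z u (π u - 1) - zs π N w z u (π u + 1)
      = zs π N w z v (π v - 1) - zs π N w z v (π v + 1) := by
    intro u v
    by_cases h : π u = π v
    · obtain ⟨x, hx⟩ := hne (π u + 1)
      have h1 : π u ≠ π x := by
        rw [hx]
        exact (y6_zmod_ne (π u)).1.symm
      have h2 : π x ≠ π v := by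
        rw [← h]
        exact h1.symm
      rw [hcross u x h1, hcross x v h2]
    · exact hcross u v h
  obtain ⟨v0, -⟩ := hne 0
  -- the total difference vanishes
  have hsum : ∑ v, (zs π N w z v (π v - 1) - zs π N w z v (π v + 1)) = 0 := by
    rw [Finset.sum_sub_distrib]
    unfold zs
    rw [← Finset.sum_div, ← Finset.sum_div,
      y6_swap π (fun v x => w v x * z v x) hf, sub_self]
  have heps : zs π N w z v0 (π v0 - 1) - zs π N w z v0 (π v0 + 1) = 0 := by
    have h1 : ∑ v, (zs π N w z v (π v - 1) - zs π N w z v (π v + 1)) =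
        ∑ _v : V, (zs π N w z v0 (π v0 - 1) - zs π N w z v0 (π v0 + 1)) :=
      Finset.sum_congr rfl fun v _ => hall v v0
    rw [hsum, Finset.sum_const, Finset.card_univ, nsmul_eq_mul] at h1
    have h2 : (Fintype.card V : ℝ) ≠ 0 := by
      have : 0 < Fintype.card V := Fintype.card_pos_iff.2 ⟨v0⟩
      positivity
    rcases mul_eq_zero.1 h1.symm with h | h
    · exact absurd h h2
    · exact h
  have heq : ∀ v, zs π N w z v (π v - 1) = zs π N w z v (π v + 1) := by
    intro v
    have := hall v v0
    rw [heps] at this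
    linarith
  -- both halves are `ζ`
  have hze : ∀ v, ze N w z v = (zs π N w z v (π v + 1) + zs π N w z v (π v - 1)) / 2 := by
    intro v
    unfold ze zs
    rw [y6_split π (fun x => w v x * z v x) (π v)]
    have h0 : ∑ x ∈ univ.filter (fun x => π x = π v), w v x * z v x = 0 := by
      refine Finset.sum_eq_zero fun x hx => ?_
      rw [hW.same v x (Finset.mem_filter.1 hx).2.symm, zero_mul]
    rw [h0, zero_add, ← add_div, div_div, mul_comm (N : ℝ) 2]
  have hhalf : ∀ v (i : ZMod 3), i ≠ π v → zs π N w z v i = ze N w z v := by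
    intro v i hi
    rcases y6_zmod i (π v) hi with h | h
    · rw [h, hze v, heq v]
      ring
    · rw [h, hze v, heq v]
      ring
  refine ⟨hhalf, ?_⟩
  have hstep : ∀ i : ZMod 3, ∑ v ∈ univ.filter (fun v => π v = i), ze N w z v =
      ∑ v ∈ univ.filter (fun v => π v = i + 1), ze N w z v := by
    intro i
    have h1 : ∑ v ∈ univ.filter (fun v => π v = i), ze N w z v =
        ∑ v ∈ univ.filter (fun v => π v = i), zs π N w z v (i + 1) := by
      refine Finset.sum_congr rfl fun v hv => ?_
      refine (hhalf v (i + 1) ?_).symm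
      rw [(Finset.mem_filter.1 hv).2]
      exact (y6_zmod_ne i).1
    have h2 : ∑ v ∈ univ.filter (fun v => π v = i + 1), ze N w z v =
        ∑ v ∈ univ.filter (fun v => π v = i + 1), zs π N w z v i := by
      refine Finset.sum_congr rfl fun v hv => ?_
      refine (hhalf v i ?_).symm
      rw [(Finset.mem_filter.1 hv).2]
      exact (y6_zmod_ne i).1.symm
    rw [h1, h2]
    unfold zs
    rw [← Finset.sum_div, ← Finset.sum_div,
      y6_swap2 π (fun v x => w v x * z v x) hf i (i + 1)]
  refine ⟨(∑ v ∈ univ.filter (fun v => π v = 0), ze N w z v) / N, ?_⟩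
  have hall0 : ∀ i : ZMod 3, ∑ v ∈ univ.filter (fun v => π v = i), ze N w z v =
      ∑ v ∈ univ.filter (fun v => π v = 0), ze N w z v := by
    have h01 := hstep 0
    have h12 := hstep 1
    have e1 : (0 : ZMod 3) + 1 = 1 := by decide
    have e2 : (1 : ZMod 3) + 1 = 2 := by decide
    rw [e1] at h01
    rw [e2] at h12
    intro i
    have hi : i = 0 ∨ i = 1 ∨ i = 2 := by
      revert i
      decide
    rcases hi with h | h | h
    · rw [h]
    · rw [h, h01]
    · rw [h, ← h12, h01]
  intro i
  rw [hall0 i]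
  field_simp

end DH
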