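import Pool.Agent.Lib.MP_fe8cb7_co.h77.StF

/-!
# MP_fe8cb7_co, piece [DH Y7] : the local identity
-/

open Finset

namespace DH

private theorem y7_third : ∀ p q r : ZMod 3, p ≠ q → r ≠ p → r ≠ q → r = -p - q := by decide

private theorem y7_third_ne : ∀ p q : ZMod 3, p ≠ q → -p - q ≠ p ∧ -p - q ≠ q := by decide

theorem p_Y7 : S_Y7 := by
  intro hY1 V _ _ π N c m w hW z W hF hz hzs hWs a
  obtain ⟨-, y2, y3, -, y5, y6, y7, -, -, -⟩ := hY1 V π N c m w hW
  have hn : (N : ℝ) ≠ 0 := by exact_mod_cast hW.pos.ne'
  have hζ : ∀ v, ∑ x, w v x * z v x = 2 * N * ze N w z v := by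
    intro v
    unfold ze
    field_simp
  -- the equation for `a, v`
  have key : ∀ v, w a v * (tt N w a v * z a v) + w a v * ze N w z a + w a v * ze N w z v -
      w a v * SS π N w z a v = w a v := by
    intro v
    by_cases h : π a = π v
    · rw [hW.same a v h]; ring
    · have h1 := hF a v
      rw [FF, if_neg h] at h1
      linear_combination (w a v) * h1
  have hsum : ∑ v, w a v * (tt N w a v * z a v) + ∑ v, w a v * ze N w z a +
      ∑ v, w a v * ze N w z v - ∑ v, w a v * SS π N w z a v = 2 * N * (1 - m a) := by
    rw [← y7 a, ← sum_add_distrib, ← sum_add_distrib, ← sum_sub_distrib]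
    exact sum_congr rfl fun v _ => key v
  -- (1)
  have hTh : (N : ℝ) * Th N m w z a = ∑ x, w a x * z a x * m x := by
    unfold Th
    field_simp
  have hJJ : (N : ℝ) * JJ π N w z a = ∑ x, w a x * z a x * co π N w a x := by
    unfold JJ
    field_simp
  have hLL : (N : ℝ) * LL π N w z a = ∑ x, mi π w a x * ze N w z x := by
    unfold LL
    field_simp
  have hHH : (N : ℝ) ^ 2 * HH π N w z a =
      ∑ x, ∑ y, mi π w a x * mi π w a y * w x y * z x y := by
    unfold HH
    field_simp
  have h1 : ∑ v, w a v * (tt N w a v * z a v) =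
      (1 - m a) * (2 * N * ze N w z a) - N * Th N m w z a + N * JJ π N w z a := by
    rw [hTh, hJJ, ← hζ a, mul_sum, ← sum_sub_distrib, ← sum_add_distrib]
    refine sum_congr rfl fun v _ => ?_
    by_cases h : π a = π v
    · rw [hW.same a v h]; ring
    · rw [y5 a v h]; ring
  -- (2)
  have h2 : ∑ v, w a v * ze N w z a = 2 * N * (1 - m a) * ze N w z a := by
    rw [← sum_mul, y7 a]
  -- (3)
  have hother : ∑ v ∈ univ.filter (fun v => ¬ π v = π a), ze N w z v = 2 * N * W := by
    have e1 : ∑ v, ze N w z v = 3 * N * W := by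
      have e2 : ∑ v, ze N w z v =
          ∑ i : ZMod 3, ∑ v ∈ univ.filter (fun v => π v = i), ze N w z v :=
        (sum_fiberwise univ π _).symm
      rw [e2, sum_congr rfl fun i _ => hWs i, sum_const, card_univ, ZMod.card]
      norm_num
      ring
    have e3 := sum_filter_add_sum_filter_not univ (fun v => π v = π a) (fun v => ze N w z v)
    rw [hWs, e1] at e3
    linarith
  have h3 : ∑ v, w a v * ze N w z v = 2 * N * W - N * LL π N w z a := by
    rw [hLL, ← hother, sum_filter, ← sum_sub_distrib]
    refine sum_congr rfl fun v _ => ?_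
    by_cases h : π v = π a
    · rw [if_neg (not_not.2 h), hW.same a v h.symm, mi, if_pos h.symm]; ring
    · rw [if_pos h, mi, if_neg (fun e => h e.symm)]; ring
  -- (4)
  have h4a : ∑ v, ∑ x, w a v * (w a x * mi π w v x * z a x) =
      N * (N * Th N m w z a - N * JJ π N w z a) := by
    rw [sum_comm, hTh, hJJ, ← sum_sub_distrib, mul_sum]
    refine sum_congr rfl fun x _ => ?_
    by_cases h : π a = π x
    · rw [hW.same a x h]
      simp
    · have e1 : ∑ v, w a v * (w a x * mi π w v x * z a x) =
          (w a x * z a x) * ∑ v, w a v * mi π w x v := by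
        rw [mul_sum]
        refine sum_congr rfl fun v _ => ?_
        rw [(y2 v x).2.2]
        ring
      rw [e1, y6 a x h]
      ring
  have h4b : ∑ v, ∑ x, w a v * (w v x * mi π w a x * z v x) =
      N * (N * LL π N w z a) - N ^ 2 * HH π N w z a := by
    rw [sum_comm, hLL, hHH, mul_sum, ← sum_sub_distrib]
    refine sum_congr rfl fun x _ => ?_
    by_cases h : π a = π x
    · have e0 : mi π w a x = 0 := by rw [mi, if_pos h]
      rw [e0]
      simp
    · obtain ⟨t1, t2⟩ := y7_third_ne (π a) (π x) h
      have e1 : ∑ v ∈ univ.filter (fun v => π v = -π a - π x), w x v * z x v =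
          N * ze N w z x := by
        have e2 := hzs x (-π a - π x) t2
        rw [zs] at e2
        rw [← e2]
        field_simp
      have e3 : N * (mi π w a x * ze N w z x) = mi π w a x *
          ∑ v ∈ univ.filter (fun v => π v = -π a - π x), w x v * z x v := by
        rw [e1]; ring
      rw [e3, mul_sum, sum_filter, ← sum_sub_distrib]
      refine sum_congr rfl fun v _ => ?_
      rw [hW.symm v x, hz v x]
      by_cases hv : π v = -π a - π x
      · rw [if_pos hv]
        have hva : π a ≠ π v := fun e => t1 (by rw [e]; rw [← e]; rw [← hv]; exact e.symm)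
        have e4 : mi π w a v = 1 - w a v := by rw [mi, if_neg hva]
        rw [e4]
        ring
      · rw [if_neg hv]
        by_cases hva : π v = π a
        · rw [hW.same a v hva.symm, mi, mi, if_neg h, if_pos hva.symm]
          ring
        · have hvx : π v = π x := by
            by_contra hcon
            exact hv (y7_third (π a) (π x) (π v) h hva hcon)
          rw [hW.same x v hvx.symm]
          ring
  have h4 : ∑ v, w a v * SS π N w z a v = (N * Th N m w z a - N * JJ π N w z a) +
      (N * LL π N w z a - N * HH π N w z a) := by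
    have e1 : ∑ v, w a v * SS π N w z a v =
        (∑ v, ∑ x, w a v * (w a x * mi π w v x * z a x) +
          ∑ v, ∑ x, w a v * (w v x * mi π w a x * z v x)) / N := by
      rw [← sum_add_distrib, sum_div]
      refine sum_congr rfl fun v _ => ?_
      rw [SS, ← sum_add_distrib, mul_div_assoc', mul_sum]
      congr 1
      refine sum_congr rfl fun x _ => ?_
      ring
    rw [e1, h4a, h4b]
    field_simp
  rw [h1, h2, h3, h4] at hsum
  have hfin : (N : ℝ) * (4 * (1 - m a) * ze N w z a + 2 * W) = N * (2 * (1 - m a) +
      2 * LL π N w z a + 2 * Th N m w z a - 2 * JJ π N w z a - HH π N w z a) := by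
    linear_combination hsum
  exact mul_left_cancel₀ hn hfin

end DH
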