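import Pool.Agent.Lib.MP_fe8cb7_co.h77.StF

/-!
# Piece Y9: the critical vertex
-/

open Finset

namespace DH

theorem p_Y9 : S_Y9 := by
  intro hY1 hY7 V _ _ π N c m w hw z W hF hz hzs hW hz0 hze a ha
  obtain ⟨_, hmi, hco, _, _, _, _, hmis, _, _⟩ := hY1 V π N c m w hw
  have hloc := hY7 hY1 V π N c m w hw z W hF hz hzs hW a
  have hN : (0 : ℝ) < N := by exact_mod_cast hw.pos
  have hN0 : (N : ℝ) ≠ 0 := hN.ne'
  have hwz : ∀ x y, 0 ≤ w x y * z x y := by
    intro x y
    by_cases h : π x = π y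
    · rw [hw.same x y h, zero_mul]
    · exact mul_nonneg (hw.nonneg x y) (hz0 x y h)
  have hJJ : 0 ≤ JJ π N w z a := by
    rw [JJ]
    exact div_nonneg (sum_nonneg fun x _ => mul_nonneg (hwz a x) (hco a x).1) hN.le
  have hHH : 0 ≤ HH π N w z a := by
    rw [HH]
    refine div_nonneg (sum_nonneg fun x _ => sum_nonneg fun y _ => ?_) (by positivity)
    rw [mul_assoc]
    exact mul_nonneg (mul_nonneg (hmi a x).1 (hmi a y).1) (hwz x y)
  have hLL : LL π N w z a ≤ c := by
    refine le_trans ?_ (hw.mle a)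
    rw [LL, div_le_iff₀ hN]
    have h1 : ∑ x, mi π w a x * ze N w z x ≤ ∑ x, mi π w a x * (1 / 2) :=
      sum_le_sum fun x _ => mul_le_mul_of_nonneg_left (hze x) (hmi a x).1
    rw [← sum_mul, hmis a] at h1
    linarith
  have hTh : Th N m w z a ≤ c := by
    rw [Th, div_le_iff₀ hN]
    have h1 : ∑ x, w a x * z a x * m x ≤ ∑ x, w a x * z a x * c :=
      sum_le_sum fun x _ => mul_le_mul_of_nonneg_left (hw.mle x) (hwz a x)
    rw [← sum_mul] at h1
    have h2 : ∑ x, w a x * z a x = N := by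
      rw [ze] at ha
      field_simp at ha
      linarith
    rw [h2] at h1
    linarith
  rw [ha] at hloc
  linarith

end DH
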