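import Pool.Agent.Lib.MP_fe8cb7_co.h25.Asm
import Pool.Agent.Lib.MP_fe8cb7_co.h77.P_X1
import Pool.Agent.Lib.MP_fe8cb7_co.h77.P_X2
import Pool.Agent.Lib.MP_fe8cb7_co.h77.P_X3
import Pool.Agent.Lib.MP_fe8cb7_co.h77.P_X4
import Pool.Agent.Lib.MP_fe8cb7_co.h77.P_X5
import Pool.Agent.Lib.MP_fe8cb7_co.h77.P_X7
import Pool.Agent.Lib.MP_fe8cb7_co.h77.P_X8
import Pool.Agent.Lib.MP_fe8cb7_co.h77.P_X9
import Pool.Agent.Lib.MP_fe8cb7_co.h77.P_X10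
import Pool.Agent.Lib.MP_fe8cb7_co.h77.P_X11
import Pool.Agent.Lib.MP_fe8cb7_co.h77.P_X12
import Pool.Agent.Lib.MP_fe8cb7_co.h77.P_Y1
import Pool.Agent.Lib.MP_fe8cb7_co.h77.P_Y2
import Pool.Agent.Lib.MP_fe8cb7_co.h77.P_Y3
import Pool.Agent.Lib.MP_fe8cb7_co.h77.P_Y4
import Pool.Agent.Lib.MP_fe8cb7_co.h77.P_Y5
import Pool.Agent.Lib.MP_fe8cb7_co.h77.P_Y6
import Pool.Agent.Lib.MP_fe8cb7_co.h77.P_Y7
import Pool.Agent.Lib.MP_fe8cb7_co.h77.P_Y8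
import Pool.Agent.Lib.MP_fe8cb7_co.h77.P_Y9
import Pool.Agent.Lib.MP_fe8cb7_co.h77.P_Y10
import Pool.Agent.Lib.MP_fe8cb7_co.h77.P_Y11
import Pool.Agent.Lib.MP_fe8cb7_co.h77.P_Y12
import Pool.Agent.Lib.MP_fe8cb7_co.h77.P_Y13
import Pool.Agent.Lib.MP_fe8cb7_co.h77.P_Y14

/-!
# Daykin-Haggkvist problem: assembly of the bound `3/16`
-/

open Finset

namespace DH

/-- the weighted system has a solution with `ζ ≤ 1/2` -/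
theorem sol_holds : Sol :=
  p_Y13 p_Y4 (p_Y12 p_Y1 p_Y2 p_Y3 p_Y5 p_Y6 p_Y7 p_Y8 p_Y9 p_Y10 p_Y11) p_Y1 p_Y3

/-- the fractional theorem for nearly regular graphs -/
theorem fracR_holds : FracR 12 := p_Y14 p_Y1 p_Y2 p_Y5 sol_holds

theorem reb2_holds : Reb2 := p_X10 p_R0 p_R1 p_X9

theorem ad_three_sixteenths : AD (3 / 16) :=
  p_X12 (3 / 16) 12 (by norm_num) le_rfl fracR_holds nib_holds reb2_holds p_X11

theorem mainG_three_sixteenths : MainG (3 / 16) :=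
  p_X7 p_Col p_V1 p_V2 p_M1 p_A0 p_X1 p_X2 p_X3 p_X4 p_X5 p_X6 p_A6 p_A7 (3 / 16) le_rfl
    (p_X8 p_Col p_Cells p_C1 p_C2 p_C3 p_C4 p_Hall p_C5 p_C6 (3 / 16) le_rfl
      (p_AD2 (3 / 16) ad_three_sixteenths))

theorem admissible_three_sixteenths (α : ℝ) (hα : α < 3 / 16) : Admissible α :=
  p_M4 (3 / 16) mainG_three_sixteenths α hα

end DH
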