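import Pool.Agent.Lib.MP_fe8cb7_co.h77.Asm5
import Pool.Agent.Lib.MP_fe8cb7_co.h2.Upper
import Pool.Agent.Lib.MP_fe8cb7_co.h48.Fin

/-!
# Daykin-Haggkvist problem: final assembly from the fractional theorem for all `c < 1/4`
-/

open Finset

namespace DH

/-- `Frac` is stronger than `FracB` -/
theorem fracB_of_frac (c C0 : ℝ) (h : Frac c C0) : FracB c C0 :=
  ⟨1, fun V _ _ π G N hN hE hT hB hd => h V π G N hN hE hT hB hd⟩

/-- the fractional theorem for all `c < 1/4`, in the weakest form which is sufficient -/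
def FT : Prop := ∀ c : ℝ, 1 / 8 ≤ c → c < 1 / 4 → ∃ C0 : ℝ, 0 < C0 ∧ FracB c C0

theorem FT_holds : FT := fun c _ hc =>
  ⟨9 / (1 - 4 * c), div_pos (by norm_num) (by linarith), fracB_of_lt c hc⟩

theorem admissible_of_FT (hF : FT) (α : ℝ) (hα : α < 1 / 4) : Admissible α := by
  obtain ⟨C0, hC, hB⟩ := hF ((max α 0 + 1 / 4) / 2)
    (by have := le_max_right α 0; linarith)
    (by have : max α 0 < 1 / 4 := max_lt hα (by norm_num)
        linarith)
  exact admissible_of_fracB _ C0 hC
    (by have : max α 0 < 1 / 4 := max_lt hα (by norm_num)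
        linarith) hB α
    (by have h1 := le_max_left α 0
        have : max α 0 < 1 / 4 := max_lt hα (by norm_num)
        linarith)

theorem isLUB_of_FT (hF : FT) : IsLUB {α : ℝ | 0 < α ∧ Admissible α} (1 / 4) := by
  constructor
  · rintro α ⟨_, h⟩
    by_contra hlt
    exact not_admissible α (not_le.mp hlt) h
  · intro b hb
    by_contra hlt
    have hb4 : b < 1 / 4 := not_le.mp hlt
    have h1 : max b 0 < 1 / 4 := max_lt hb4 (by norm_num)
    have h0 := le_max_right b 0
    have h2 := le_max_left b 0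
    have := hb (show (max b 0 + 1 / 4) / 2 ∈ {α : ℝ | 0 < α ∧ Admissible α} from
      ⟨by linarith, admissible_of_FT hF _ (by linarith)⟩)
    linarith

theorem final_of_FT (hF : FT) : (∀ α : ℝ, α < 1 / 4 → Admissible α) ∧
    (∀ α : ℝ, 1 / 4 < α → ¬ Admissible α) ∧ IsLUB {α : ℝ | 0 < α ∧ Admissible α} (1 / 4) :=
  ⟨fun α h => admissible_of_FT hF α h, fun α h => not_admissible α h, isLUB_of_FT hF⟩

end DH
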