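import Pool.Agent.Lib.MP_fe8cb7_co.h77.StX

/-! [X10] rebalancing, minimum degree `0.75 N`. -/

open Finset

namespace DH

private lemma X10_card {V : Type} [Fintype V] {π : V → ZMod 3} {N : ℕ} (h : Eq3 π univ N) :
    Fintype.card V = 3 * N := by
  classical
  rw [← card_univ, card_eq_sum_card_fiberwise (f := π) (t := univ)
    (fun _ _ => mem_coe.2 (mem_univ _))]
  have h1 : ∀ i ∈ (univ : Finset (ZMod 3)), (univ.filter (fun v => π v = i)).card = N :=
    fun i _ => h i
  rw [sum_congr rfl h1, sum_const, card_univ, ZMod.card, smul_eq_mul]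

private lemma X10_cardY {V : Type} [Fintype V] {π : V → ZMod 3} {N : ℕ} {Y : Finset V}
    (h : ∀ i, ((pt π Y i).card : ℝ) ≤ N / 100) : (Y.card : ℝ) ≤ 0.03 * N := by
  classical
  have h0 : Y.card = ∑ i : ZMod 3, (pt π Y i).card :=
    card_eq_sum_card_fiberwise (f := π) (t := univ) (fun _ _ => mem_coe.2 (mem_univ _))
  rw [h0]
  push_cast
  calc ∑ i : ZMod 3, ((pt π Y i).card : ℝ) ≤ ∑ _i : ZMod 3, (N : ℝ) / 100 :=
        sum_le_sum fun i _ => h i
    _ = 0.03 * N := by
        rw [sum_const, card_univ, ZMod.card, nsmul_eq_mul]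
        push_cast
        ring

theorem p_X10 : S_X10 := by
  intro r0 r1 r2 V _ _ π G Y N ζ hζ0 hζ1 hN hE hT hdeg himb hY
  classical
  replace r2 := r2 r1
  have hNR : (1000 : ℝ) ≤ N := by exact_mod_cast hN
  have hNpos : (0 : ℝ) < N := by linarith
  -- the induction
  have main : ∀ n : ℕ, ∀ (F : SimpleGraph V) (l : V → ℕ), F ≤ G →
      (∀ v, |imb π G univ v - imb π (G \ F) univ v| + |imb π (G \ F) univ v| = |imb π G univ v|) →
      (∀ v, (dg F v univ : ℤ) ≤ |imb π G univ v| - |imb π (G \ F) univ v| + 2 * l v) →
      (∀ v, (l v : ℝ) ≤ 45 * (ζ * N)) → (∀ v ∈ Y, l v = 0) →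
      (2 * ∑ v, (l v : ℤ) ≤ 3 * (∑ v, |imb π G univ v| - ∑ v, |imb π (G \ F) univ v|)) →
      (∑ v, |imb π (G \ F) univ v|).toNat = n →
      ∃ F : SimpleGraph V, F ≤ G ∧ Bal π (G \ F) univ ∧
      (∀ v : V, (dg F v univ : ℝ) ≤ 100 * ζ * N) ∧
      (∀ v ∈ Y, (dg F v univ : ℝ) ≤ |(imb π G univ v : ℝ)|) := by
    intro n
    induction n using Nat.strong_induction_on with
    | _ n ih =>
      intro F l hFG ha hb hc hd he hn
      have hbR : ∀ v, (dg F v univ : ℝ) ≤ |(imb π G univ v : ℝ)| -
          |(imb π (G \ F) univ v : ℝ)| + 2 * l v := by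
        intro v
        exact_mod_cast hb v
      by_cases hz : ∀ v, imb π (G \ F) univ v = 0
      · refine ⟨F, hFG, hz, fun v => ?_, fun v hv => ?_⟩
        · have h1 := hbR v
          have h2 := himb v
          have h3 := hc v
          have h4 : 0 ≤ |(imb π (G \ F) univ v : ℝ)| := abs_nonneg _
          nlinarith
        · have h1 := hbR v
          have h4 : 0 ≤ |(imb π (G \ F) univ v : ℝ)| := abs_nonneg _
          rw [hd v hv] at h1
          push_cast at h1
          linarith
      · push Not at hz
        obtain ⟨v0, hv0⟩ := hz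
        have hsum : ∑ v, imb π (G \ F) univ v = 0 := r0 V π (G \ F)
        obtain ⟨x, -, hx⟩ := exists_pos_of_sum_zero_of_exists_nonzero
          (fun v => imb π (G \ F) univ v) hsum ⟨v0, mem_univ _, hv0⟩
        obtain ⟨y, -, hy⟩ := exists_pos_of_sum_zero_of_exists_nonzero
          (fun v => -imb π (G \ F) univ v) (by rw [sum_neg_distrib, hsum, neg_zero])
          ⟨v0, mem_univ _, neg_ne_zero.2 hv0⟩
        have hy2 : imb π (G \ F) univ y < 0 := neg_pos.mp hy
        have hxy : x ≠ y := by
          rintro rfl
          omega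
        -- `ζ N ≥ 1`
        have hζN : 1 ≤ ζ * N := by
          have h1 := ha x
          have h2 : (1 : ℤ) ≤ |imb π G univ x| := by
            have h3 := abs_nonneg (imb π G univ x - imb π (G \ F) univ x)
            have h4 := le_abs_self (imb π (G \ F) univ x)
            omega
          have h3 : (1 : ℝ) ≤ |(imb π G univ x : ℝ)| := by exact_mod_cast h2
          exact h3.trans (himb x)
        -- the total of `l`
        have hsl : (∑ v, (l v : ℝ)) ≤ 4.5 * N * (ζ * N) := by
          have h1 : (0 : ℤ) ≤ ∑ v, |imb π (G \ F) univ v| := sum_nonneg fun v _ => abs_nonneg _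
          have h2 : 2 * ∑ v, (l v : ℤ) ≤ 3 * ∑ v, |imb π G univ v| := by linarith
          have h3 : 2 * ∑ v, (l v : ℝ) ≤ 3 * ∑ v, |(imb π G univ v : ℝ)| := by exact_mod_cast h2
          have h4 : ∑ v, |(imb π G univ v : ℝ)| ≤ 3 * N * (ζ * N) := by
            calc ∑ v, |(imb π G univ v : ℝ)| ≤ ∑ _v : V, ζ * N := sum_le_sum fun v _ => himb v
              _ = 3 * N * (ζ * N) := by
                  rw [sum_const, card_univ, X10_card hE, nsmul_eq_mul]
                  push_cast
                  ring
          linarith
        obtain ⟨S, hS⟩ : ∃ S : Finset V, S = univ.filter (fun v => 45 * (ζ * N) - 3 < (l v : ℝ)) :=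
          ⟨_, rfl⟩
        have hScard : (S.card : ℝ) ≤ 0.11 * N := by
          have h1 : (S.card : ℝ) * (42 * (ζ * N)) ≤ ∑ v, (l v : ℝ) := by
            calc (S.card : ℝ) * (42 * (ζ * N)) = ∑ _v ∈ S, 42 * (ζ * N) := by
                  rw [sum_const, nsmul_eq_mul]
              _ ≤ ∑ v ∈ S, (l v : ℝ) := by
                  refine sum_le_sum fun v hv => ?_
                  rw [hS, mem_filter] at hv
                  linarith [hv.2]
              _ ≤ ∑ v, (l v : ℝ) :=
                  sum_le_sum_of_subset_of_nonneg (subset_univ _) fun v _ _ => Nat.cast_nonneg _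
          have h2 : (S.card : ℝ) * 42 * (ζ * N) ≤ 4.5 * N * (ζ * N) := by linarith
          have h3 : (S.card : ℝ) * 42 ≤ 4.5 * N := le_of_mul_le_mul_right h2 (by linarith)
          linarith
        have hBd : ((Y ∪ S).card : ℝ) ≤ 0.15 * N := by
          have h1 : ((Y ∪ S).card : ℝ) ≤ Y.card + S.card := by exact_mod_cast card_union_le _ _
          have h2 := X10_cardY hY
          linarith
        have hdF : ∀ v, (dg F v univ : ℝ) ≤ 0.1 * N := by
          intro v
          have h1 := hbR v
          have h2 := himb v
          have h3 := hc v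
          have h4 : 0 ≤ |(imb π (G \ F) univ v : ℝ)| := abs_nonneg _
          have h5 : ζ * N ≤ 1 / 1000 * N := by gcongr
          linarith
        obtain ⟨F', l', hFF', hF'G, himb', hdg', hl', hlB⟩ :=
          r2 V π G F (Y ∪ S) N x y hN hE hT hdeg hFG hdF hBd
        have hD : ∀ v, imb π (G \ F') univ v = imb π (G \ F) univ v - (if v = x then 1 else 0) +
            (if v = y then 1 else 0) := by
          intro v
          rw [imb_sdiff hF'G, imb_sdiff hFG, himb' v]
          ring
        have habs : ∀ v, |imb π (G \ F') univ v| = |imb π (G \ F) univ v| -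
            (if v = x then 1 else 0) - (if v = y then 1 else 0) := by
          intro v
          rw [hD v]
          by_cases h1 : v = x
          · have h2 : ¬ v = y := fun h => hxy (h1.symm.trans h)
            rw [if_pos h1, if_neg h2, h1, abs_of_pos hx, abs_of_nonneg (by omega)]
            ring
          · by_cases h2 : v = y
            · rw [if_neg h1, if_pos h2, h2, abs_of_neg (by omega : imb π (G \ F) univ y < 0),
                abs_of_nonpos (by omega)]
              ring
            · rw [if_neg h1, if_neg h2]
              simp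
        have hΦ : ∑ v, |imb π (G \ F') univ v| = ∑ v, |imb π (G \ F) univ v| - 2 := by
          rw [sum_congr rfl fun v _ => habs v, sum_sub_distrib, sum_sub_distrib, sum_ite_eq',
            sum_ite_eq', if_pos (mem_univ _), if_pos (mem_univ _)]
          ring
        have hΦ0 : (0 : ℤ) ≤ ∑ v, |imb π (G \ F') univ v| := sum_nonneg fun v _ => abs_nonneg _
        refine ih ((∑ v, |imb π (G \ F') univ v|).toNat) (by omega) F' (fun v => l v + l' v) hF'G
          ?_ ?_ ?_ ?_ ?_ rfl
        · intro v
          have h1 := ha v
          rw [habs v, hD v]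
          by_cases h2 : v = x
          · have h3 : ¬ v = y := fun h => hxy (h2.symm.trans h)
            rw [if_pos h2, if_neg h3]
            subst h2
            rw [abs_of_pos hx] at h1 ⊢
            rcases abs_cases (imb π G univ v - imb π (G \ F) univ v) with ⟨h4, h5⟩ | ⟨h4, h5⟩ <;>
            rcases abs_cases (imb π G univ v) with ⟨h6, h7⟩ | ⟨h6, h7⟩ <;>
            rcases abs_cases (imb π G univ v - (imb π (G \ F) univ v - 1 + 0)) with
              ⟨h8, h9⟩ | ⟨h8, h9⟩ <;> omega
          · by_cases h3 : v = y
            · rw [if_neg h2, if_pos h3]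
              subst h3
              rw [abs_of_neg (by omega : imb π (G \ F) univ v < 0)] at h1 ⊢
              rcases abs_cases (imb π G univ v - imb π (G \ F) univ v) with ⟨h4, h5⟩ | ⟨h4, h5⟩ <;>
              rcases abs_cases (imb π G univ v) with ⟨h6, h7⟩ | ⟨h6, h7⟩ <;>
              rcases abs_cases (imb π G univ v - (imb π (G \ F) univ v - 0 + 1)) with
                ⟨h8, h9⟩ | ⟨h8, h9⟩ <;> omega
            · rw [if_neg h2, if_neg h3]
              simpa using h1
        · intro v
          have h1 := hb v
          have h2 : (dg F' v univ : ℤ) ≤ dg F v univ + (if v = x then 1 else 0) +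
              (if v = y then 1 else 0) + 2 * l' v := by
            exact_mod_cast hdg' v
          rw [habs v]
          push_cast
          linarith
        · intro v
          by_cases h1 : v ∈ Y ∪ S
          · simp only [hlB v h1, add_zero]
            exact hc v
          · have h2 : v ∉ S := fun h => h1 (mem_union_right _ h)
            rw [hS, mem_filter] at h2
            push Not at h2
            have h3 := h2 (mem_univ _)
            have h4 : l' v ≤ 3 := (single_le_sum (fun _ _ => Nat.zero_le _) (mem_univ v)).trans hl'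
            have h5 : (l' v : ℝ) ≤ 3 := by exact_mod_cast h4
            push_cast
            linarith
        · intro v hv
          simp only [hd v hv, hlB v (mem_union_left _ hv), add_zero]
        · have h1 : (∑ v, (l' v : ℤ)) ≤ 3 := by exact_mod_cast hl'
          have h2 : ∑ v, ((l v + l' v : ℕ) : ℤ) = ∑ v, (l v : ℤ) + ∑ v, (l' v : ℤ) := by
            push_cast
            rw [sum_add_distrib]
          rw [h2, hΦ]
          linarith
  have hbot : G \ (⊥ : SimpleGraph V) = G := sdiff_bot
  refine main _ ⊥ (fun _ => 0) bot_le ?_ ?_ ?_ ?_ ?_ rfl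
  · intro v
    rw [hbot, sub_self, abs_zero, zero_add]
  · intro v
    rw [hbot, sub_self]
    have : dg (⊥ : SimpleGraph V) v univ = 0 := by
      rw [dg, card_eq_zero, eq_empty_iff_forall_notMem]
      intro w hw
      exact (mem_nb.1 hw).2
    rw [this]
    simp
  · intro v
    push_cast
    positivity
  · intro v _
    rfl
  · rw [hbot]
    simp

end DH
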