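import Pool.Agent.Lib.MP_fe8cb7_co.h77.StF

/-!
# Piece Y8: the global identity
-/

open Finset

namespace DH

theorem p_Y8 : S_Y8 := by
  intro hY1 hY7 V _ _ π N c m w hw z W hF hz hzs hW
  obtain ⟨_, hmi, _, _, _, _, _, hmis, _, _⟩ := hY1 V π N c m w hw
  have hloc := hY7 hY1 V π N c m w hw z W hF hz hzs hW
  have hN : (0 : ℝ) < N := by exact_mod_cast hw.pos
  have hN0 : (N : ℝ) ≠ 0 := hN.ne'
  -- the number of vertices
  have hcard : ∑ _v : V, (1 : ℝ) = 3 * N := by
    rw [← sum_fiberwise univ π]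
    have : ∀ i : ZMod 3, ∑ _v ∈ univ.filter (fun v => π v = i), (1 : ℝ) = N := by
      intro i
      rw [sum_const, hw.part i, nsmul_eq_mul, mul_one]
    rw [sum_congr rfl fun i _ => this i, sum_const]
    simp [ZMod.card]
  have hze : ∑ v : V, ze N w z v = 3 * N * W := by
    rw [← sum_fiberwise univ π]
    rw [sum_congr rfl fun i _ => hW i, sum_const]
    simp [ZMod.card]
    ring
  have hLL : ∑ a : V, LL π N w z a = 2 * ∑ v : V, m v * ze N w z v := by
    simp only [LL]
    rw [← sum_div, sum_comm, mul_sum, sum_div]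
    refine sum_congr rfl fun x _ => ?_
    rw [← sum_mul]
    have h1 : ∑ a : V, mi π w a x = 2 * N * m x := by
      rw [← hmis x]
      exact sum_congr rfl fun a _ => (hmi a x).2.2
    rw [h1]
    field_simp
  have hTh : ∑ a : V, Th N m w z a = 2 * ∑ v : V, m v * ze N w z v := by
    simp only [Th]
    rw [← sum_div, sum_comm, mul_sum, sum_div]
    refine sum_congr rfl fun x _ => ?_
    rw [← sum_mul]
    have h1 : ∑ a : V, w a x * z a x = ∑ a : V, w x a * z x a :=
      sum_congr rfl fun a _ => by rw [hw.symm a x, hz a x]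
    rw [h1, ze]
    field_simp
  have hJJ : ∑ a : V, JJ π N w z a = N * QQ π N w z := by
    simp only [JJ, QQ]
    rw [← sum_div]
    field_simp
  have hHH : ∑ a : V, HH π N w z a = N * QQ π N w z := by
    simp only [HH, QQ]
    rw [← sum_div]
    have h1 : ∑ a : V, ∑ x : V, ∑ y : V, mi π w a x * mi π w a y * w x y * z x y =
        ∑ x : V, ∑ y : V, w x y * z x y * (N * co π N w x y) := by
      rw [sum_comm]
      refine sum_congr rfl fun x _ => ?_
      rw [sum_comm]
      refine sum_congr rfl fun y _ => ?_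
      rw [co, mul_div_cancel₀ _ hN0, mul_sum]
      refine sum_congr rfl fun a _ => ?_
      rw [(hmi a x).2.2, (hmi a y).2.2]
      ring
    rw [h1]
    have h2 : ∑ x : V, ∑ y : V, w x y * z x y * (N * co π N w x y) =
        N * ∑ x : V, ∑ y : V, w x y * z x y * co π N w x y := by
      rw [mul_sum]
      refine sum_congr rfl fun x _ => ?_
      rw [mul_sum]
      exact sum_congr rfl fun y _ => by ring
    rw [h2]
    field_simp
  have hsum : ∑ a : V, (4 * (1 - m a) * ze N w z a + 2 * W) =
      ∑ a : V, (2 * (1 - m a) + 2 * LL π N w z a + 2 * Th N m w z a - 2 * JJ π N w z a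
        - HH π N w z a) := sum_congr rfl fun a _ => hloc a
  have hl : ∑ a : V, (4 * (1 - m a) * ze N w z a + 2 * W) =
      4 * ∑ a : V, ze N w z a - 4 * ∑ a : V, m a * ze N w z a + 2 * W * ∑ _v : V, (1 : ℝ) := by
    rw [mul_sum, mul_sum, mul_sum, ← sum_sub_distrib, ← sum_add_distrib]
    exact sum_congr rfl fun a _ => by ring
  have hr : ∑ a : V, (2 * (1 - m a) + 2 * LL π N w z a + 2 * Th N m w z a - 2 * JJ π N w z a
        - HH π N w z a) = 2 * ∑ a : V, (1 - m a) + 2 * ∑ a : V, LL π N w z a +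
          2 * ∑ a : V, Th N m w z a - 2 * ∑ a : V, JJ π N w z a - ∑ a : V, HH π N w z a := by
    rw [mul_sum, mul_sum, mul_sum, mul_sum, ← sum_add_distrib, ← sum_add_distrib,
      ← sum_sub_distrib, ← sum_sub_distrib]
  rw [hl, hr, hcard, hze, hLL, hTh, hJJ, hHH] at hsum
  linarith

end DH
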