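import Pool.Agent.Lib.MP_fe8cb7_co.h25.Basic

/-!
# Daykin-Haggkvist problem, bound `3/16`: statements of the fractional theorem

Owner helper77. Every docstring contains a complete informal proof.

`w u v ∈ [0,1]` are the weights of a balanced tripartite graph, `M = mi` = the missing weights, `m v` = missing degree / `N`.
We look for `z` with `∑ x, w u x * w v x * (z u v + z u x + z v x) = N` for all `u v` with `w u v ≠ 0`. With
`t = tt`, `ζ = ze`, `S = SS` the system is `t u v * z u v + ζ u + ζ v - S z u v = 1` (`FF z = 1`).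
Cross pair means `π u ≠ π v`. Facts used all the time: `w u x = 0`, `M u x = 0` if `π x = π u`; so for a cross pair `u, v` the products
`w u x * M v x`, `M u x * M v x`, `w u x * w v x` vanish unless `x` is in the third part.
-/

open Finset

namespace DH

section fdefs

variable {V : Type} [Fintype V]

/-- weighted balanced tripartite graph: `w u v = 0` inside the parts, `v` has total weight
`N (1 - m v)` into each of the other two parts, `m v ≤ c` -/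
structure Wt (π : V → ZMod 3) (N : ℕ) (c : ℝ) (m : V → ℝ) (w : V → V → ℝ) : Prop where
  pos : 0 < N
  part : ∀ i : ZMod 3, (univ.filter (fun v => π v = i)).card = N
  symm : ∀ u v, w u v = w v u
  nonneg : ∀ u v, 0 ≤ w u v
  le_one : ∀ u v, w u v ≤ 1
  same : ∀ u v, π u = π v → w u v = 0
  deg : ∀ v (i : ZMod 3), i ≠ π v → ∑ x ∈ univ.filter (fun x => π x = i), w v x = N * (1 - m v)
  mle : ∀ v, m v ≤ c

/-- missing weight -/
def mi (π : V → ZMod 3) (w : V → V → ℝ) (u v : V) : ℝ := if π u = π v then 0 else 1 - w u v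

/-- missing codegree -/
noncomputable def co (π : V → ZMod 3) (N : ℕ) (w : V → V → ℝ) (u v : V) : ℝ :=
  (∑ x, mi π w u x * mi π w v x) / N

/-- number of triangles at `u v` -/
noncomputable def tt (N : ℕ) (w : V → V → ℝ) (u v : V) : ℝ := (∑ x, w u x * w v x) / N

/-- the operator `S` -/
noncomputable def SS (π : V → ZMod 3) (N : ℕ) (w : V → V → ℝ) (z : V → V → ℝ) (u v : V) : ℝ :=
  (∑ x, (w u x * mi π w v x * z u x + w v x * mi π w u x * z v x)) / N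

/-- `ζ v` -/
noncomputable def ze (N : ℕ) (w : V → V → ℝ) (z : V → V → ℝ) (v : V) : ℝ :=
  (∑ x, w v x * z v x) / (2 * N)

/-- the part of `ζ` into the part `i` -/
noncomputable def zs (π : V → ZMod 3) (N : ℕ) (w : V → V → ℝ) (z : V → V → ℝ) (v : V)
    (i : ZMod 3) : ℝ :=
  (∑ x ∈ univ.filter (fun x => π x = i), w v x * z v x) / N

/-- the linear operator of the system -/
noncomputable def FF (π : V → ZMod 3) (N : ℕ) (w : V → V → ℝ) (z : V → V → ℝ) (u v : V) : ℝ :=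
  if π u = π v then z u v
  else tt N w u v * z u v + ze N w z u + ze N w z v - SS π N w z u v

/-- `∑ M a x ζ x / N` -/
noncomputable def LL (π : V → ZMod 3) (N : ℕ) (w : V → V → ℝ) (z : V → V → ℝ) (a : V) : ℝ :=
  (∑ x, mi π w a x * ze N w z x) / N

/-- `∑ w a x z a x m x / N` -/
noncomputable def Th (N : ℕ) (m : V → ℝ) (w : V → V → ℝ) (z : V → V → ℝ) (a : V) : ℝ :=
  (∑ x, w a x * z a x * m x) / N

/-- `∑ w a x z a x co a x / N` -/
noncomputable def JJ (π : V → ZMod 3) (N : ℕ) (w : V → V → ℝ) (z : V → V → ℝ) (a : V) : ℝ :=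
  (∑ x, w a x * z a x * co π N w a x) / N

/-- `∑ M a x M a y w x y z x y / N^2` -/
noncomputable def HH (π : V → ZMod 3) (N : ℕ) (w : V → V → ℝ) (z : V → V → ℝ) (a : V) : ℝ :=
  (∑ x, ∑ y, mi π w a x * mi π w a y * w x y * z x y) / N ^ 2

/-- `∑ w u v z u v co u v / N^2` -/
noncomputable def QQ (π : V → ZMod 3) (N : ℕ) (w : V → V → ℝ) (z : V → V → ℝ) : ℝ :=
  (∑ u, ∑ v, w u v * z u v * co π N w u v) / N ^ 2

end fdefs

/-- [Y1] basic facts.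
PROOF. Let `i ≠ π v`: `∑_{π x = i} M v x = N - ∑_{π x = i} w v x = N m v`. So `m v ≥ 0`, `∑ x, M v x = 2 N m v`, `∑ x, w v x = 2 N (1 - m v)` (the own part contributes `0`,
there are two other parts). For a cross pair let `l` be the third part: `N co u v = ∑_{π x = l} M u x M v x` lies between `0` and `∑_{π x = l} M u x = N m u`;
`N tt u v = ∑_{π x = l} (1 - M u x)(1 - M v x) = N (1 - m u - m v + co u v)`; `∑ x, w u x M v x = ∑_{π x = l} (1 - M u x) M v x = N (m v - co u v)`. Last: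
the sum is `(1/N) ∑_x ∑_{u, v : π u ≠ π v} M u x M v x`; for fixed `x` only `u, v` in the two other parts `i`, `j` of `x` count, `(π u, π v) = (i,j)` or `(j,i)`,
and `∑_{π u = i} M u x = N m x`: `2 (N m x)^2`. -/
def S_Y1 : Prop := ∀ (V : Type) [Fintype V] [DecidableEq V] (π : V → ZMod 3) (N : ℕ) (c : ℝ)
    (m : V → ℝ) (w : V → V → ℝ), Wt π N c m w →
    (∀ v, 0 ≤ m v) ∧
    (∀ u v, 0 ≤ mi π w u v ∧ mi π w u v ≤ 1 ∧ mi π w u v = mi π w v u) ∧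
    (∀ u v, 0 ≤ co π N w u v ∧ co π N w u v = co π N w v u) ∧
    (∀ u v, π u ≠ π v → co π N w u v ≤ m u ∧ co π N w u v ≤ m v) ∧
    (∀ u v, π u ≠ π v → tt N w u v = 1 - m u - m v + co π N w u v) ∧
    (∀ u v, π u ≠ π v → ∑ x, w u x * mi π w v x = N * (m v - co π N w u v)) ∧
    (∀ v, ∑ x, w v x = 2 * N * (1 - m v)) ∧ (∀ v, ∑ x, mi π w v x = 2 * N * m v) ∧
    (∀ v (i : ZMod 3), i ≠ π v → ∑ x ∈ univ.filter (fun x => π x = i), mi π w v x = N * m v) ∧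
    ∑ u, ∑ v, (if π u = π v then 0 else co π N w u v) = 2 * N * ∑ x, m x ^ 2

/-- [Y2] minimum principle.
PROOF. For a cross pair `u, v` the coefficients of `SS z u v` are nonnegative, sit at cross pairs `(u,x)`, `(v,x)` (where they are not `0`), and their sum is
`(1/N) ∑ x, (w u x M v x + w v x M u x) = m u + m v - 2 co u v` ([Y1]), so `tt u v` minus this sum is
`1 - 2 m u - 2 m v + 3 co u v ≥ 1 - 4 c > 0`. (i) If some cross pair has `z < 0`, take the cross pair `(u,v)` with minimal `z u v = μ < 0` (`Finset.exists_min_image`): `SS z u v ≥ μ (m u + m v - 2 co)`, so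
`0 ≤ tt u v μ - SS z u v ≤ μ (1 - 4 c) < 0`. (ii) For the cross pair with maximal `z u v = μ`: if `μ ≤ 0` fine (`1/(1-4c) > 0`); else
`1 ≥ tt μ - SS z ≥ μ (1 - 4 c)`. -/
def S_Y2 : Prop := S_Y1 → ∀ (V : Type) [Fintype V] [DecidableEq V] (π : V → ZMod 3) (N : ℕ) (c : ℝ)
    (m : V → ℝ) (w : V → V → ℝ), Wt π N c m w → c < 1 / 4 → ∀ z : V → V → ℝ,
    ((∀ u v, π u ≠ π v → 0 ≤ tt N w u v * z u v - SS π N w z u v) →
      ∀ u v, π u ≠ π v → 0 ≤ z u v) ∧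
    ((∀ u v, π u ≠ π v → tt N w u v * z u v - SS π N w z u v ≤ 1) →
      ∀ u v, π u ≠ π v → z u v ≤ 1 / (1 - 4 * c))

/-- [Y3] energy inequality.
PROOF. `∑_{u,v} w u v z u v SS z u v = (1/N) ∑_{u,v,x} w u v z u v (w u x M v x z u x + w v x M u x z v x)`; exchanging `u` and `v` in the second half it is
`(2/N) ∑_{u,v,x} w u v w u x M v x z u v z u x ≤ (1/N) ∑_{u,v,x} w u v w u x M v x (z u v ^ 2 + z u x ^ 2)`, and exchanging `v` and `x` in the second half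
(`M v x = M x v`) it is `(2/N) ∑_{u,v} w u v (z u v)^2 ∑_x w u x M v x = 2 ∑_{u,v} w u v (z u v)^2 (m v - co u v)` ([Y1]; if `π u = π v` then `w u v = 0`), which by symmetry is
`∑_{u,v} w u v (z u v)^2 (m u + m v - 2 co u v)`. Finally `tt u v - (m u + m v - 2 co u v) = 1 - 2 m u - 2 m v + 3 co u v ≥ 1 - 4 c + 3 co u v`. -/
def S_Y3 : Prop := S_Y1 → ∀ (V : Type) [Fintype V] [DecidableEq V] (π : V → ZMod 3) (N : ℕ) (c : ℝ)
    (m : V → ℝ) (w : V → V → ℝ), Wt π N c m w → ∀ z : V → V → ℝ, (∀ u v, z u v = z v u) →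
    ∑ u, ∑ v, w u v * (1 - 4 * c + 3 * co π N w u v) * z u v ^ 2 ≤
      ∑ u, ∑ v, w u v * z u v * (tt N w u v * z u v - SS π N w z u v)

/-- [Y4] injectivity of the system.
PROOF. `SS z u v = SS z v u`, so `FF z u v - FF z v u = tt u v (z u v - z v u)` for a cross pair, and `tt u v ≥ 1 - 2 c > 0`: if `FF z = 0` then `z` is symmetric (inside a part `z u v = 0`).
`0 = ∑_{u,v} w u v z u v FF z u v = ∑ w z (tt z - SS z) + ∑_{u,v} w u v z u v (ζ u + ζ v)`, the last sum is `2 ∑_u ζ u (2 N ζ u) ≥ 0`, so by [Y3]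
`∑ w (1 - 4c + 3 co) z^2 ≤ 0`, all terms are `≥ 0`, hence `w u v z u v = 0` for all `u, v`. So `ζ = 0`, `SS z = 0`, and
`FF z u v = tt u v z u v = 0` gives `z u v = 0`. -/
def S_Y4 : Prop := S_Y1 → S_Y3 → ∀ (V : Type) [Fintype V] [DecidableEq V] (π : V → ZMod 3) (N : ℕ)
    (c : ℝ) (m : V → ℝ) (w : V → V → ℝ), Wt π N c m w → c < 1 / 4 → ∀ z : V → V → ℝ,
    (∀ u v, FF π N w z u v = 0) → ∀ u v, z u v = 0

/-- [Y5] the solution is exact.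
PROOF. (1) `z` is symmetric: as in [Y4] (inside a part `z u v = 1`). (2) Put `e v = (zs v (π v - 1) - zs v (π v + 1))/2`. `ζ v = (zs v (π v - 1) + zs v (π v + 1))/2`.
Let `π v = π u + 1`, so the third part is `π u - 1 = π v + 1`. As `w v x = 1 - M v x`, `w u x = 1 - M u x` for `x` in the third part,
`Bz u v := (1/N) ∑ x, w u x w v x (z u v + z u x + z v x) = tt u v z u v + zs u (π u - 1) + zs v (π v + 1) - SS z u v = FF z u v + e u - e v = 1 + e u - e v`.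
(3) For each `u`: `∑_{π x = π u + 1} w u x Bz u x = ∑_{π y = π u - 1} w u y Bz u y`, both are `(1/N) ∑_{x, y} w u x w u y w x y (z u x + z u y + z x y)`. With (2) and `deg`
(`Bz u y = Bz y u = 1 + e y - e u` if `π y = π u - 1`): `2 N (1 - m u) e u = ∑ x, w u x e x`. Multiply with `e u` and sum: `∑_{u,x} w u x (e u ^ 2 - e u e x) = 0`, i.e.
`(1/2) ∑_{u,x} w u x (e u - e x)^2 = 0`, so `e u = e x` if `w u x ≠ 0`. (4) So for `w u v ≠ 0` (a cross pair; `π v = π u + 1` or `π u = π v + 1`) `Bz u v = 1`. -/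
def S_Y5 : Prop := S_Y1 → ∀ (V : Type) [Fintype V] [DecidableEq V] (π : V → ZMod 3) (N : ℕ)
    (c : ℝ) (m : V → ℝ) (w : V → V → ℝ), Wt π N c m w → c < 1 / 4 → ∀ z : V → V → ℝ,
    (∀ u v, FF π N w z u v = 1) → (∀ u v, z u v = z v u) ∧
    (∀ u v, w u v ≠ 0 → zs π N w z u (π u - 1) - zs π N w z u (π u + 1)
      = zs π N w z v (π v - 1) - zs π N w z v (π v + 1)) ∧
    (∀ u v, w u v ≠ 0 → ∑ x, w u x * w v x * (z u v + z u x + z v x) = N)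

/-- [Y6] if all weights at cross pairs are positive then the two halves of `ζ` are equal.
PROOF. By [Y5] `e v = zs v (π v - 1) - zs v (π v + 1)` is the same for `u`, `v` in different parts, so (three nonempty parts) it is a constant `ε`. `∑_v zs v (π v - 1) = ∑_v zs v (π v + 1)`: both are
`(1/N)` times a sum over the pairs `(v, x)`, `π x = π v - 1`, resp. `π x = π v + 1`, exchange `v` and `x` (`w`, `z` symmetric). So `3 N ε = 0`. As
`ζ v = (zs v (π v - 1) + zs v (π v + 1))/2`, both halves are `ζ v`. For `W`: `∑_{π v = i} ζ v = ∑_{π v = i} zs v (i + 1) = ∑_{π x = i + 1} zs x i = ∑_{π x = i + 1} ζ x`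
(again exchange). -/
def S_Y6 : Prop := S_Y1 → S_Y5 → ∀ (V : Type) [Fintype V] [DecidableEq V] (π : V → ZMod 3) (N : ℕ)
    (c : ℝ) (m : V → ℝ) (w : V → V → ℝ), Wt π N c m w → c < 1 / 4 →
    (∀ u v, π u ≠ π v → 0 < w u v) → ∀ z : V → V → ℝ, (∀ u v, FF π N w z u v = 1) →
    (∀ v (i : ZMod 3), i ≠ π v → zs π N w z v i = ze N w z v) ∧
    ∃ W : ℝ, ∀ i : ZMod 3, ∑ v ∈ univ.filter (fun v => π v = i), ze N w z v = N * W

/-- [Y7] the local identity.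
PROOF. Sum `w a v FF z a v = w a v` over `v` and divide by `N` (`w a v = 0` if `π v = π a`). Right side `2 (1 - m a)`. Left side:
(1) `(1/N) ∑ w a v tt a v z a v = (1 - m a) 2 ζ a - Th a + JJ a` ([Y1]: `tt a v = 1 - m a - m v + co a v`, `∑ w a v z a v = 2 N ζ a`);
(2) `(1/N) ∑ w a v ζ a = 2 (1 - m a) ζ a`; (3) `(1/N) ∑_v w a v ζ v = (1/N) ∑_{π v ≠ π a} ζ v - LL a = 2 W - LL a`;
(4) `(1/N) ∑_v w a v SS a v = (1/N^2) ∑_v ∑_x w a v (w a x M v x z a x + w v x M a x z v x)`. First half: `(1/N^2) ∑_x w a x z a x ∑_v w a v M v x = (1/N) ∑_x w a x z a x (m x - co a x) = Th a - JJ a` ([Y1]).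
Second half: `(1/N^2) ∑_x M a x ∑_v w a v w v x z v x`; for `π x ≠ π a` the inner sum is over `v` in the third part, where `w a v = 1 - M a v`: it is `N zs x (third part) - ∑_v M a v w v x z v x`
`= N ζ x - ∑_v M a v w v x z x v`; so the second half is `LL a - HH a`. Altogether
`2 (1 - m a) ζ a - Th + JJ + 2 (1 - m a) ζ a + 2 W - LL - (Th - JJ) - (LL - HH) = 2 (1 - m a)`. -/
def S_Y7 : Prop := S_Y1 → ∀ (V : Type) [Fintype V] [DecidableEq V] (π : V → ZMod 3) (N : ℕ)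
    (c : ℝ) (m : V → ℝ) (w : V → V → ℝ), Wt π N c m w → ∀ (z : V → V → ℝ) (W : ℝ),
    (∀ u v, FF π N w z u v = 1) → (∀ u v, z u v = z v u) →
    (∀ v (i : ZMod 3), i ≠ π v → zs π N w z v i = ze N w z v) →
    (∀ i : ZMod 3, ∑ v ∈ univ.filter (fun v => π v = i), ze N w z v = N * W) →
    ∀ a : V, 4 * (1 - m a) * ze N w z a + 2 * W =
      2 * (1 - m a) + 2 * LL π N w z a + 2 * Th N m w z a - 2 * JJ π N w z a - HH π N w z a

/-- [Y8] the global identity.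
PROOF. Sum [Y7] over `a` (`3 N` vertices): `∑ ζ a = 3 N W`; `∑_a LL a = (1/N) ∑_x ζ x ∑_a M a x = 2 ∑ m x ζ x`; `∑_a Th a = (1/N) ∑_x m x ∑_a w a x z a x = 2 ∑ m x ζ x`
(`w`, `z` symmetric); `∑_a JJ a = N QQ`; `∑_a HH a = (1/N^2) ∑_{x,y} w x y z x y ∑_a M a x M a y = (1/N^2) ∑_{x,y} w x y z x y N co x y = N QQ`. So
`12 N W - 4 ∑ m ζ + 6 N W = 2 ∑ (1 - m) + 4 ∑ m ζ + 4 ∑ m ζ - 2 N QQ - N QQ`. -/
def S_Y8 : Prop := S_Y1 → S_Y7 → ∀ (V : Type) [Fintype V] [DecidableEq V] (π : V → ZMod 3) (N : ℕ)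
    (c : ℝ) (m : V → ℝ) (w : V → V → ℝ), Wt π N c m w → ∀ (z : V → V → ℝ) (W : ℝ),
    (∀ u v, FF π N w z u v = 1) → (∀ u v, z u v = z v u) →
    (∀ v (i : ZMod 3), i ≠ π v → zs π N w z v i = ze N w z v) →
    (∀ i : ZMod 3, ∑ v ∈ univ.filter (fun v => π v = i), ze N w z v = N * W) →
    18 * N * W = 2 * ∑ v, (1 - m v) + 12 * ∑ v, m v * ze N w z v - 3 * N * QQ π N w z

/-- [Y9] the critical vertex.
PROOF. [Y7] for `a` with `ζ a = 1/2`: `2 W = 2 LL + 2 Th - 2 JJ - HH ≤ 2 LL + 2 Th`, since `JJ, HH ≥ 0` (`w`, `M`, `co ≥ 0`, and `z ≥ 0` where `w ≠ 0`).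
`LL a ≤ (1/2) (1/N) ∑ M a x = m a ≤ c`, `Th a ≤ c (1/N) ∑ w a x z a x = c * 2 ζ a = c`. -/
def S_Y9 : Prop := S_Y1 → S_Y7 → ∀ (V : Type) [Fintype V] [DecidableEq V] (π : V → ZMod 3) (N : ℕ)
    (c : ℝ) (m : V → ℝ) (w : V → V → ℝ), Wt π N c m w → ∀ (z : V → V → ℝ) (W : ℝ),
    (∀ u v, FF π N w z u v = 1) → (∀ u v, z u v = z v u) →
    (∀ v (i : ZMod 3), i ≠ π v → zs π N w z v i = ze N w z v) →
    (∀ i : ZMod 3, ∑ v ∈ univ.filter (fun v => π v = i), ze N w z v = N * W) →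
    (∀ u v, π u ≠ π v → 0 ≤ z u v) → (∀ v, ze N w z v ≤ 1 / 2) → ∀ a : V, ze N w z a = 1 / 2 →
    W ≤ 2 * c

/-- `Φ` with `n = c/5` -/
noncomputable def Phi (c : ℝ) : ℝ :=
  (1 - 2 * c) * (c / 5) ^ 2 / (1 - 4 * c) + c * (6 * c / 5) ^ 2 / (1 - c)

/-- [Y10] the bound for `QQ`.
PROOF. Let `a = 1 - 4 c > 0`, `n = c/5`. Cauchy-Schwarz: `(∑ w (co + n) z)^2 ≤ (∑ w (co + n)^2 / (a + 3 co)) (∑ w (a + 3 co) z^2)` (all sums over `u, v`). Left side: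
`∑_{u,v} w z = 2 N ∑ ζ = 6 N^2 W`, so it is `(N^2 QQ + 6 n N^2 W)^2`. Last factor: by [Y3] and `tt z - SS z = 1 - ζ u - ζ v` at cross pairs it is at most
`∑ w u v z u v (1 - ζ u - ζ v) = ∑_u (1/2 - ζ u) 2 * 2 N ζ u = 2 N ∑ (ζ - 2 ζ^2) ≤ 2 N (3 N W - 6 N W^2) = 6 N^2 (W - 2 W^2)` (`∑ ζ = 3 N W`, `∑ ζ^2 ≥ (∑ ζ)^2/(3N)`). First factor: for a cross
pair `0 ≤ co ≤ c` (`co ≤ m u ≤ c`), and `x ↦ (x + n)^2/(a + 3 x)` is convex on `[0, c]`, so it is at most `g1 + g2 x`, `g1 = n^2/a`, `g2 = ((c+n)^2/(1-c) - n^2/a)/c` (`c > 0`; direct check: multiply out;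
if `c = 0` then `co = 0`, `n = 0` and everything is `0`: then `QQ = 0`, `Phi 0 = 0`). `g2 ≥ 0` as `36 (1 - 4c) ≥ 1 - c`. `∑ w = 6 N^2 - 2 N s`, `s = ∑ m v`; `∑ w co ≤ ∑_{cross} co = 2 N ∑ m^2 ≤ 2 N c s`. So the first factor is at most
`6 N^2 g1 + 2 N s (c g2 - g1)`, `c g2 - g1 = (c+n)^2/(1-c) - 2 n^2/a ≥ 0` (`36 (1-4c) ≥ 2 (1-c)`), `s ≤ 3 N c`: at most `6 N^2 Phi c`. Divide by `N^4`. -/
def S_Y10 : Prop := S_Y1 → S_Y3 → ∀ (V : Type) [Fintype V] [DecidableEq V] (π : V → ZMod 3) (N : ℕ)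
    (c : ℝ) (m : V → ℝ) (w : V → V → ℝ), Wt π N c m w → 0 ≤ c → c ≤ 3 / 16 →
    ∀ (z : V → V → ℝ) (W : ℝ), (∀ u v, FF π N w z u v = 1) → (∀ u v, z u v = z v u) →
    (∀ i : ZMod 3, ∑ v ∈ univ.filter (fun v => π v = i), ze N w z v = N * W) →
    (QQ π N w z + 6 * (c / 5) * W) ^ 2 ≤ 36 * Phi c * (W - 2 * W ^ 2)

/-- [Y11] numbers.
PROOF. `A0 = 1 - (19/16) s`, `A1 = 3 - (33/5) s`. `q + (3/5) s W ≥ A0 - A1 W ≥ A0 - 2 s A1 > 0`. So `G(W) = (A0 - A1 W)^2 - 9 Φ (W - 2 W^2) ≤ 0`. But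
`G(W) = G(2s) + G'(2s) (W - 2s) + (A1^2 + 18 Φ)(W - 2s)^2`, `G(2s) = (1 - 7.1875 s + 13.2 s^2)^2 - 18 s ((1-2s) s^2/25 + 1.44 s^3 (1-4s)/(1-s)) > 0` on `[0, 3/16]`
(at `3/16` it is `0.0007`), `G'(2s) = -2 A1 (A0 - 2 s A1) - 9 Φ (1 - 8 s) ≤ 0`, `W - 2 s ≤ 0`. -/
def S_Y11 : Prop := ∀ s q W : ℝ, 0 ≤ s → s ≤ 3 / 16 → W ≤ 2 * s →
    1 - s - 3 / 16 * s - q ≤ (3 - 6 * s) * W →
    (q + 3 * (s / 5) * W) ^ 2 ≤ 9 * Phi s * (W - 2 * W ^ 2) → False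

/-- [Y12] there is no critical situation.
PROOF. `tt z - SS z = 1 - ζ u - ζ v ≥ 0` at cross pairs, so `z ≥ 0` there ([Y2]). [Y5] (symmetry), [Y6], [Y9]: `W ≤ 2 s`. [Y8]: `∑ m ζ = s ∑ ζ - ∑ (s - m) ζ ≥ 3 N s W - (1/2) Dt`, `Dt = ∑ (s - m v) ≥ 0`, and
`∑ (1 - m) = 3 N (1 - s) + Dt`, so `18 N W ≥ 6 N (1 - s) + 2 Dt + 36 N s W - 6 Dt - 3 N QQ`, `Dt ≤ (3/2) N c0 s`: `(3 - 6 s) W ≥ 1 - s - c0 s - QQ/2`. With `q = QQ/2` [Y10] gives
`4 (q + 3 (s/5) W)^2 ≤ 36 Φ (W - 2 W^2)`; [Y11]. -/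
def S_Y12 : Prop := S_Y1 → S_Y2 → S_Y3 → S_Y5 → S_Y6 → S_Y7 → S_Y8 → S_Y9 → S_Y10 → S_Y11 →
    ∀ (V : Type) [Fintype V] [DecidableEq V] (π : V → ZMod 3) (N : ℕ)
    (s c0 : ℝ) (m : V → ℝ) (w : V → V → ℝ), Wt π N s m w → 0 ≤ s → s ≤ c0 → c0 ≤ 3 / 16 →
    ∑ v, (s - m v) ≤ 3 / 2 * N * c0 * s → (∀ u v, π u ≠ π v → 0 < w u v) →
    ∀ z : V → V → ℝ, (∀ u v, FF π N w z u v = 1) → (∀ v, ze N w z v ≤ 1 / 2) →
    ∀ a : V, ze N w z a = 1 / 2 → False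

/-- [Y13] deformation.
PROOF. For `0 ≤ λ ≤ 1` let `w_λ u v = 0` inside the parts and `1 - λ (1 - w u v)` at cross pairs; `Wt π N (λ c0) (λ m) w_λ`; positive at cross pairs if `λ < 1`; `w_1 = w`.
Let `A λ : Matrix (V × V) (V × V) ℝ` be the matrix of the linear map `z ↦ FF π N w_λ z` (functions on `V × V`), e.g. entries `FF π N w_λ (single q) p`; its entries are
continuous in `λ` (polynomials). By [Y4] (`λ c0 < 1/4`) `A λ` is injective for `λ ∈ [0,1]`, so `det (A λ) ≠ 0`, and `z_λ = (A λ)⁻¹ *ᵥ 1 = (det)⁻¹ • adjugate *ᵥ 1` is continuous on `[0,1]`, so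
is `ζ_λ v`. `z_0 = 1/3` at cross pairs (`1` inside the parts): solution for `λ = 0` (`tt = 1`, `M = 0`, `ζ = 1/3`), so `ζ_0 v = 1/3 < 1/2`. If `max_v ζ_1 v > 1/2` then
by the intermediate value theorem for `λ ↦ max_v ζ_λ v` (`Finset.sup'`, continuous) there is `λ ∈ (0,1)` with `max_v ζ_λ v = 1/2`, which contradicts [Y12] with `s = λ c0`
(`∑ (λ c0 - λ m v) ≤ λ (3/2) N c0^2`). -/
def S_Y13 : Prop := S_Y4 → (∀ (V : Type) [Fintype V] [DecidableEq V] (π : V → ZMod 3) (N : ℕ)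
    (s c0 : ℝ) (m : V → ℝ) (w : V → V → ℝ), Wt π N s m w → 0 ≤ s → s ≤ c0 → c0 ≤ 3 / 16 →
    ∑ v, (s - m v) ≤ 3 / 2 * N * c0 * s → (∀ u v, π u ≠ π v → 0 < w u v) →
    ∀ z : V → V → ℝ, (∀ u v, FF π N w z u v = 1) → (∀ v, ze N w z v ≤ 1 / 2) →
    ∀ a : V, ze N w z a = 1 / 2 → False) → S_Y1 → S_Y3 →
    ∀ (V : Type) [Fintype V] [DecidableEq V] (π : V → ZMod 3) (N : ℕ)
    (c0 : ℝ) (m : V → ℝ) (w : V → V → ℝ), Wt π N c0 m w → 0 ≤ c0 → c0 ≤ 3 / 16 →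
    ∑ v, (c0 - m v) ≤ 3 / 2 * N * c0 ^ 2 →
    ∃ z : V → V → ℝ, (∀ u v, FF π N w z u v = 1) ∧ ∀ v, ze N w z v ≤ 1 / 2

end DH
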