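import Pool.Agent.Lib.MP_fe8cb7_co.h77.StX
import Pool.Agent.Lib.MP_fe8cb7_co.h77.StF

/-!
# Daykin-Haggkvist problem, bound `3/16`: from the weighted system to the fractional theorem
-/

open Finset

namespace DH

/-- the conclusion of [Y13] -/
def Sol : Prop := ∀ (V : Type) [Fintype V] [DecidableEq V] (π : V → ZMod 3) (N : ℕ)
    (c0 : ℝ) (m : V → ℝ) (w : V → V → ℝ), Wt π N c0 m w → 0 ≤ c0 → c0 ≤ 3 / 16 →
    ∑ v, (c0 - m v) ≤ 3 / 2 * N * c0 ^ 2 →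
    ∃ z : V → V → ℝ, (∀ u v, FF π N w z u v = 1) ∧ ∀ v, ze N w z v ≤ 1 / 2

/-- [Y14] the fractional theorem.
PROOF. `w u v = 1` if `G.Adj u v`, else `0`; `m v = (N - dg G v (V_{π v + 1})) / N`; `c0 = k / N`. `Wt π N c0 m w`: `deg` for `i = π v + 1`: `∑_{π x = i} w v x = dg G v (V_i)`, the same for `i = π v - 1`
by `Bal`; `mle`: `N ≤ dg + k`. `∑ (c0 - m v) = (∑_v (dg + k - N)) / N ≤ (3/2) k^2 / N = (3/2) N c0^2`. Take `z` from `Sol`. At cross pairs `tt z - SS z = 1 - ζ u - ζ v ≥ 0`, so `z ≥ 0` there ([Y2]), so `ζ ≥ 0`,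
`tt z - SS z ≤ 1`, so `z ≤ 1/(1 - 4 c0) ≤ 4`. Let `W t = (1/(2N)) ∑_{u ∈ t} ∑_{v ∈ t} (if u = v then 0 else z u v)` if `t` is a triangle of `G` (`G.IsNClique 3 t`), else `0`. All pairs of different vertices of a triangle are cross pairs (`Tri`), so
`0 ≤ W t ≤ 6 * 4 / (2N) = 12/N`. If `G.Adj x y` and `v ∈ cn G x y` then `{x, y, v}` is a triangle with `W = (z x y + z x v + z y v)/N` (`z` symmetric, [Y5]), and
`∑_{v ∈ cn G x y} (z x y + z x v + z y v) = ∑_v w x v w y v (...) = N` by [Y5]. -/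
def S_Y14 : Prop := S_Y1 → S_Y2 → S_Y5 → Sol → FracR 12

end DH
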