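import Pool.Agent.Lib.MP_fe8cb7_co.h25.StM
import Pool.Agent.Lib.MP_fe8cb7_co.h25.StR

/-!
# Daykin-Haggkvist problem, bound `3/16`: statements outside of the fractional theorem

Owner helper77. Every docstring contains a complete informal proof. `P_A0.lean`, `P_A1.lean`, ... mean the
files in `h25`, whose Lean code may be copied and adapted freely.
-/

open Finset

namespace DH

/-- any at most four vertices outside of part `i` have at least `M` common neighbours in part `i`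
outside of `U1` -/
def Four {V : Type} [Fintype V] (π : V → ZMod 3) (G : SimpleGraph V) (U1 : Finset V) (M : ℕ) : Prop :=
  ∀ (X : Finset V) (i : ZMod 3), X.card ≤ 4 → (∀ x ∈ X, π x ≠ i) →
    ∃ Y : Finset V, M ≤ Y.card ∧ ∀ y ∈ Y, π y = i ∧ y ∉ U1 ∧ ∀ x ∈ X, G.Adj x y

/-- the only coincidence among the `z k` is `z 0 = z 3` -/
def Pinch {V : Type} (l : ℕ) (z : ZMod (3 * l) → V) : Prop :=
  z 0 = z 3 ∧ ∀ k j, z k = z j → k = j ∨ (k = 0 ∧ j = 3) ∨ (k = 3 ∧ j = 0)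

/-- [X1] embedding a pinched closed walk next to a given one.
PROOF. Greedy by `S_A0` (`P_A0.lean`: `p_A0 : S_A0`) with `m = 3 l`: vertices `f 0, f 1, ..., f (3l-1)` of `V`,
`z k = f k` for `k ≠ 3`, `z 3 = f 0` (`f 3` is a dummy); read `z k` for `k : ZMod (3 l)` off via `k.val`. `f k` must be
outside of `U1 ∪ Fb` and different from all `f j`, `j < k`, and (`k ≠ 3`) in the part `π (v k) - 1` and adjacent to the members of a set
`X k` of at most four vertices, all outside of this part: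
`X 0 = {v 0, v 1, v 3, v 4}`, `X 1 = {v 1, v 2, f 0}`, `X 2 = {v 2, v 3, f 1, f 0}`, `X 4 = {v 4, v 5, f 0}`,
`X k = {v k, v (k+1), f (k-1)}` for `5 ≤ k < 3l-1`, `X (3l-1) = {v (3l-1), v 0, f (3l-2), f 0}` (`l ≥ 2`, so `3l-1 ≥ 5`). (`π (v k) = π (v 0) + k`, `z k` is
in part `π (v 0) + k - 1`; the neighbours of `z k` in the walk are in the parts `π (v 0) + k - 2` and `π (v 0) + k`, and `v k`, `v (k+1)`
in the parts `π (v 0) + k`, `π (v 0) + k + 1`; `k - 1 ≠ k - 2, k, k + 1` mod 3.) Each time `Four` gives more than `|Fb| + 3 l` candidates outside `U1`. -/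
def S_X1 : Prop := S_A0 → ∀ (V : Type) [Fintype V] [DecidableEq V] (π : V → ZMod 3)
    (G : SimpleGraph V) (U1 Fb : Finset V) (l M : ℕ) (v : ZMod (3 * l) → V), 2 ≤ l →
    (∀ k, v k ∈ U1 ∪ Fb) → (∀ k, π (v (k + 1)) = π (v k) + 1) → Four π G U1 M →
    Fb.card + 3 * l < M →
    ∃ z : ZMod (3 * l) → V, Pinch l z ∧ (∀ k, z k ∉ U1 ∪ Fb) ∧ (∀ k, π (z k) = π (v k) - 1) ∧
      (∀ k, G.Adj (v k) (z k)) ∧ (∀ k, G.Adj (v k) (z (k - 1))) ∧ (∀ k, G.Adj (z k) (z (k + 1)))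

/-- [X2] the two triangle decompositions (compare `P_A1.lean`).
PROOF. `T1` = all `{v k, v (k+1), z k}`, `T2` = all `{v k, z (k-1), z k}`, `k : ZMod (3 l)` (use `haveI : NeZero (3 * l)`). They are 3-element sets
(`z (k-1) ≠ z k`, since `k - 1 = k`, `(k-1,k) = (0,3)`, `(3,0)` are impossible for `3 l ≥ 6`). Covers: `T1`: `v k - v (k+1)`, `v k - z k`, `v (k+1) - z k`
(i.e. `v k - z (k-1)`); `T2`: `v k - z (k-1)`, `v k - z k`, `z (k-1) - z k`. Packing: `T1`: two members `k ≠ j`: `{v k, v (k+1)}` and `{v j, v (j+1)}` share at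
most one vertex (`3 l ≥ 3`, not both `j = k + 1` and `k = j + 1`), and if they share one then `j = k ± 1` and
`z k ≠ z j`. `T2`, `k ≠ j`: `v k ≠ v j`, and `{z (k-1), z k} ≠ {z (j-1), z j}`: equality with `z (k-1) = z (j-1)`, `z k = z j` would need both
`{k-1, j-1} = {0, 3}` and `{k, j} = {0, 3}`, impossible; `z (k-1) = z j`, `z k = z (j-1)`: if `k - 1 = j` then `k = j + 1` and `z (j+1) = z (j-1)` is impossible
(`2 ≠ 0`, `2 ≠ ± 3` mod `3l`, `l ≥ 2`); if `{k-1, j} = {0, 3}` then `{k, j-1} = {1, 2}` or `{k, j - 1} = {4, -1}`, not a coincidence (`l ≥ 2`). -/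
def S_X2 : Prop := ∀ (V : Type) [DecidableEq V] (l : ℕ) (v z : ZMod (3 * l) → V), 2 ≤ l →
    Function.Injective v → (∀ k j, z k ≠ v j) → Pinch l z →
    (∃ T : Finset (Finset V), Pack (⊤ : SimpleGraph V) T ∧ cov T = wk v ⊔ stg v z) ∧
    (∃ T : Finset (Finset V), Pack (⊤ : SimpleGraph V) T ∧ cov T = stg v z ⊔ wk z)

/-- [X3] the pinched closed walk is the union of a triangle and a cycle of length `3 (l - 1)`.
PROOF. `v2 i = z (i.val + 3)` for `i : ZMod (3 (l-1))` (`i.val < 3 l - 3`, so `i.val + 3 < 3 l`); injective (its indices `3, ..., 3l-1` contain no coincidence).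
`D` = the graph of the triangle `{z 0, z 1, z 2}` (`z 2 - z 3 = z 2 - z 0`); `D = cov {{z 0, z 1, z 2}}`, so `Dec D`. The edges of `wk z` are
`z k - z (k+1)`: `k = 0, 1, 2` form `D`; `k = 3, ..., 3l-2` and `z (3l-1) - z 0 = z (3l-1) - z 3` form `wk v2`
(for the last: in `ZMod (3(l-1))`, the successor of `3l - 4` is `0`, `v2 0 = z 3`). Disjoint: `z 1`, `z 2` are not values of `v2`, and every edge of `D` contains one of them. -/
def S_X3 : Prop := ∀ (V : Type) [DecidableEq V] (π : V → ZMod 3) (l : ℕ) (z : ZMod (3 * l) → V),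
    2 ≤ l → Pinch l z → (∀ k, π (z (k + 1)) = π (z k) + 1) →
    ∃ (v2 : ZMod (3 * (l - 1)) → V) (D : SimpleGraph V), Function.Injective v2 ∧
      (∀ k, ∃ j, v2 k = z j) ∧ (∀ k, π (v2 (k + 1)) = π (v2 k) + 1) ∧ Dec D ∧
      Disjoint D (wk v2) ∧ wk z = D ⊔ wk v2

/-- [X4] absorber of one cycle, four common neighbours suffice.
PROOF. Induction on `l` (for all `Fb`, `v`). `l = 1`: `New = ∅`, `A = ⊥`; `wk v` is the graph of the triangle `{v 0, v 1, v 2}` (`ZMod 3`), `Dec`.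
`l ≥ 2`: [X1] gives `z`; `New1` = the set of all `z k`, at most `3 l - 1` elements (`z 0 = z 3`). [X3] gives `v2`, `D`. The induction hypothesis for `l - 1`,
`Fb ∪ New1`, `v2` (values in `New1`): `A2`, `New2`, `|New2| ≤ 3 (l-1)^2`. Put `New = New1 ∪ New2`
(`|New| ≤ 3 l - 1 + 3 (l-1)^2 ≤ 3 l^2`), `A = stg v z ⊔ wk z ⊔ A2`. `Dec A`: `Dec (stg v z ⊔ wk z)` by [X2] (`Pack.dec`), `Dec A2`, and they are disjoint, as each edge of `A2` has an
end in `New2`, which is disjoint from `U1 ∪ Fb ∪ New1`. `A ⊔ wk v = (wk v ⊔ stg v z) ⊔ D ⊔ (A2 ⊔ wk v2)`, `Dec` for each of the three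
([X2], [X3], induction hypothesis), pairwise disjoint: each edge of `wk v ⊔ stg v z` has an end among the `v k` (not in `New1 ∪ New2`), all edges of
`D`, `wk v2` are inside `New1`, those of `A2` have an end in `New2`; `Dec.sup`. -/
def S_X4 : Prop := S_A0 → S_X1 → S_X2 → S_X3 → ∀ (V : Type) [Fintype V] [DecidableEq V]
    (π : V → ZMod 3) (G : SimpleGraph V) (U1 : Finset V) (M l : ℕ), 1 ≤ l → Four π G U1 M →
    ∀ (Fb : Finset V) (v : ZMod (3 * l) → V), (∀ k, v k ∈ U1 ∪ Fb) → Function.Injective v →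
    (∀ k, π (v (k + 1)) = π (v k) + 1) → Fb.card + 3 * l ^ 2 < M →
    ∃ (A : SimpleGraph V) (New : Finset V), New.card ≤ 3 * l ^ 2 ∧ Disjoint New (U1 ∪ Fb) ∧
      A ≤ G ∧ (∀ x y, A.Adj x y → (x ∈ New ∨ y ∈ New) ∧ (x ∈ New ∨ ∃ k, x = v k) ∧
        (y ∈ New ∨ ∃ k, y = v k)) ∧ Dec A ∧ Dec (A ⊔ wk v)

/-- [X5] absorbers for a finite set of cycles (compare `P_A5.lean`).
PROOF. Induction on `𝓢`: for `insert W 𝓢'` let `abs`, `New'` be given for `𝓢'`; `W = wk v`, `v : ZMod (3 l) → V` injective with values in `U2` (every `v k` lies on an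
edge of `W`), so `3 l ≤ |U2|` and `3 l^2 ≤ |U2|^2`. Apply [X4] with `Fb = New'`. The new absorber `A` is edge-disjoint from the old
ones: an edge of `A` has an end in `New`, disjoint from `U1 ∪ New' ⊇ U2 ∪ New'`, while the edges of the old absorbers have both ends in `New' ∪ U2`. -/
def S_X5 : Prop := S_A0 → S_X1 → S_X2 → S_X3 → S_X4 → ∀ (V : Type) [Fintype V] [DecidableEq V]
    (π : V → ZMod 3) (G : SimpleGraph V) (U1 U2 : Finset V) (M : ℕ) (𝓢 : Finset (SimpleGraph V)),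
    (∀ W ∈ 𝓢, IsCyc π W ∧ Within W U2) → U2 ⊆ U1 → Four π G U1 M →
    (𝓢.card + 1) * (U2.card ^ 2 + 1) < M →
    ∃ (abs : SimpleGraph V → SimpleGraph V) (New : Finset V),
      New.card ≤ 𝓢.card * (U2.card ^ 2 + 1) ∧ Disjoint New U1 ∧
      (∀ W ∈ 𝓢, abs W ≤ G ∧ Dec (abs W) ∧ Dec (abs W ⊔ W) ∧
        ∀ x y, (abs W).Adj x y → (x ∈ New ∨ y ∈ New) ∧ x ∈ New ∪ U2 ∧ y ∈ New ∪ U2) ∧
      (∀ W ∈ 𝓢, ∀ W' ∈ 𝓢, W ≠ W' → Disjoint (abs W) (abs W'))

/-- [X6] common neighbours of four vertices (compare `p_M2` in `P_A0.lean`).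
PROOF. Each `x ∈ X` has at most `α n` non-neighbours in part `i`; `4 α n + n/K + M ≤ n` for large `n`
(`1 - 3/4 - 1/8 > 0`). -/
def S_X6 : Prop := ∀ (α : ℝ) (K M : ℕ), α < 3 / 16 → 8 ≤ K → ∃ n0 : ℕ, ∀ (V : Type) [Fintype V]
    [DecidableEq V] (π : V → ZMod 3) (G : SimpleGraph V) (U1 : Finset V) (n : ℕ), n0 ≤ n →
    Eq3 π univ n → Eq3 π U1 (n / K) →
    (∀ v : V, ∀ i : ZMod 3, i ≠ π v → (1 - α) * n ≤ dg G v (pt π univ i)) → Four π G U1 M

/-- [X7] assembly of the theorem on graphs.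
PROOF. `P_M3.lean` (`p_M3 : S_M3`) with [X5], [X6] instead of [A5], [M2]; `M` larger than `(2^((3B)^2) + 1)(9 B^2 + 1)`, and `3/16` instead of `1/7`. -/
def S_X7 : Prop := S_Col → S_V1 → S_V2 → S_M1 → S_A0 → S_X1 → S_X2 → S_X3 → S_X4 → S_X5 → S_X6 →
    S_A6 → S_A7 → ∀ c : ℝ, c ≤ 3 / 16 → CD c → MainG c

/-- [X8] choice of the parameters in the cover-down lemma, `c ≤ 3/16`.
PROOF. `P_C7.lean` (`p_C7 : S_C7`) with `1 - 2 c ≥ 0.625` instead of `0.7`: `(1-2c) N1 - N2 ≥ 0.615 N1` (`N2 ≤ N1/100`); the same parameters work: (n3) `4a` and `E` are tiny,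
(n4) the left side is `≤ (0.01 + 0.05 + 0.05 + 0.05 + ..) N1/q`, (n5) left side `≤ 1.04 N1/q`, right side `≥ 2 (0.615 - 0.08) N1/q = 1.07 N1/q` (if the
numbers are too tight, decrease `γ`, `δ`, `Λ` and increase `q`). -/
def S_X8 : Prop := S_Col → S_Cells → S_C1 → S_C2 → S_C3 → S_C4 → S_Hall → S_C5 → S_C6 →
    ∀ c : ℝ, c ≤ 3 / 16 → ADU c → CD c

/-- Rebalancing with minimum degree `0.75 N`. -/
def Reb2 : Prop :=
  ∀ (V : Type) [Fintype V] [DecidableEq V] (π : V → ZMod 3) (G : SimpleGraph V) (Y : Finset V)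
    (N : ℕ) (ζ : ℝ),
    0 ≤ ζ → ζ ≤ 1 / 1000 → 1000 ≤ N → Eq3 π univ N → Tri π G →
    (∀ v : V, ∀ i : ZMod 3, i ≠ π v → (0.75 : ℝ) * N ≤ dg G v (pt π univ i)) →
    (∀ v : V, |(imb π G univ v : ℝ)| ≤ ζ * N) → (∀ i, ((pt π Y i).card : ℝ) ≤ N / 100) →
    ∃ F : SimpleGraph V, F ≤ G ∧ Bal π (G \ F) univ ∧
      (∀ v : V, (dg F v univ : ℝ) ≤ 100 * ζ * N) ∧
      (∀ v ∈ Y, (dg F v univ : ℝ) ≤ |(imb π G univ v : ℝ)|)

/-- [X9] adding a directed path of length 2, 3 or 4 from `x` to `y`, minimum degree `0.75 N`.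
PROOF. `P_R2.lean` (`p_R2 : S_R2`) with `0.75` instead of `0.85`: (i) the number of common neighbours is at least `0.5 N`, minus `0.15 N` for `Bd`, minus `dg F x + dg F y ≤ 0.24 N`;
(ii), (iii) `0.75 - 0.15 - 0.12 > 0`. -/
def S_X9 : Prop := S_R1 → ∀ (V : Type) [Fintype V] [DecidableEq V] (π : V → ZMod 3)
    (G F : SimpleGraph V) (Bd : Finset V) (N : ℕ) (x y : V), 1000 ≤ N → Eq3 π univ N → Tri π G →
    (∀ v : V, ∀ i : ZMod 3, i ≠ π v → (0.75 : ℝ) * N ≤ dg G v (pt π univ i)) →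
    F ≤ G → (∀ v, (dg F v univ : ℝ) ≤ 0.1 * N) → (Bd.card : ℝ) ≤ 0.15 * N →
    ∃ (F' : SimpleGraph V) (l : V → ℕ), F ≤ F' ∧ F' ≤ G ∧
      (∀ v, imb π F' univ v = imb π F univ v + (if v = x then 1 else 0) - (if v = y then 1 else 0)) ∧
      (∀ v, dg F' v univ ≤ dg F v univ + (if v = x then 1 else 0) + (if v = y then 1 else 0)
        + 2 * l v) ∧
      ∑ v, l v ≤ 3 ∧ ∀ v ∈ Bd, l v = 0

/-- [X10] rebalancing. PROOF. `P_R3.lean` (`p_R3 : S_R3`) with `0.75` instead of `0.85` and [X9] instead of [R2]. -/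
def S_X10 : Prop := S_R0 → S_R1 → S_X9 → Reb2

/-- [X11] greedy filling.
PROOF. Consider the packings `T` of `G` for which `G \ cov T` still satisfies `N ≤ dg .. + k` (for example `∅`), and take one with the largest number of
members (`T ⊆ univ.powerset`, finite). `H = G \ cov T` is balanced (`Pack.bal`, `imb_sdiff`). Put `d v = dg H v (V_{π v + 1}) + k - N ≥ 0`
(`= dg H v (V_{π v - 1}) + k - N`), `Q i = {v | π v = i, d v ≥ 1}`.
(1) `H` has no triangle with all three vertices in the union of the `Q i`: otherwise add it to `T` (a packing, `Pack.union_sdiff`); the degrees of its vertices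
decrease by one, those of the other vertices do not change; contradiction to the maximality.
(2) `∑_{π v = i} d v` does not depend on `i`: `∑_{π v = i} dg H v (V_{i+1})` = number of edges between the parts `i`, `i+1`
`= ∑_{π v = i+1} dg H v (V_i)`, and balance. Call it `D`. Claim `2 D ≤ k^2`; then the sum over all `v` is `3 D`.
(3) If all `d v = 0` then `D = 0`. Otherwise let `a` have the largest `d a = δ ≥ 1`, `π a = i`, and let `j`, `j'` be the two other parts with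
`|Q j| ≤ |Q j'|`. `a` has exactly `k - δ` non-neighbours in each of them. Let `Y = Q j ∩ N(a)`, `Y' = Q j' ∩ N(a)`, `X = Q j \ N(a)`, `x = |X| ≤ k - δ`,
`q = |Q j|`, `|Y'| ≥ |Q j'| - (k - δ) ≥ q - (k - δ)`. By (1) there is no edge between `Y` and `Y'`, so each `b ∈ Y` has at least `|Y'|` non-neighbours in part
`j'`: `d b ≤ k - |Y'|`, also `d b ≤ δ`. So with `e = min δ (k - |Y'|)` (`e ≥ 0` if `Y ≠ ∅`): `D = ∑_{b ∈ Q j} d b ≤ x δ + (q - x) e ≤` ... : if `q ≤ k - δ`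
then `D ≤ q δ ≤ (k - δ) δ ≤ k^2/4`; if `q > k - δ` then (as `e ≤ δ`, `x ≤ k - δ`) `D ≤ (k - δ) δ + (q - (k-δ)) e`, and `e ≤ 2 k - δ - q`, so the second term is
at most `(q - k + δ)(2 k - δ - q) ≤ k^2/4`, the first too. -/
def S_X11 : Prop := ∀ (V : Type) [Fintype V] [DecidableEq V] (π : V → ZMod 3) (G : SimpleGraph V)
    (N k : ℕ), Eq3 π univ N → Tri π G → Bal π G univ →
    (∀ v : V, ∀ i : ZMod 3, i ≠ π v → N ≤ dg G v (pt π univ i) + k) →
    ∃ T : Finset (Finset V), Pack G T ∧ Bal π (G \ cov T) univ ∧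
      (∀ v : V, ∀ i : ZMod 3, i ≠ π v → N ≤ dg (G \ cov T) v (pt π univ i) + k) ∧
      2 * ∑ v : V, ((dg (G \ cov T) v (pt π univ (π v + 1)) : ℤ) + k - N) ≤ 3 * (k : ℤ) ^ 2

/-- Fractional theorem for nearly regular graphs: missing degrees at most `k ≤ (3/16) N`, total
deficiency at most `3 k^2 / 2`. -/
def FracR (C0 : ℝ) : Prop :=
  ∀ (V : Type) [Fintype V] [DecidableEq V] (π : V → ZMod 3) (G : SimpleGraph V) (N k : ℕ),
    0 < N → 16 * k ≤ 3 * N → Eq3 π univ N → Tri π G → Bal π G univ →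
    (∀ v : V, ∀ i : ZMod 3, i ≠ π v → N ≤ dg G v (pt π univ i) + k) →
    2 * ∑ v : V, ((dg G v (pt π univ (π v + 1)) : ℤ) + k - N) ≤ 3 * (k : ℤ) ^ 2 →
    ∃ W : Finset V → ℝ, (∀ t, 0 ≤ W t) ∧ (∀ t, W t ≤ C0 / N) ∧
      ∀ x y : V, G.Adj x y → ∑ z ∈ cn G x y, W {x, y, z} = 1

/-- [X12] approximate decomposition (compare `P_AD1.lean`, `p_AD1 : S_AD1`).
PROOF. The same as [AD1] (`ζ`, `γ'` etc.), with one more step: after `Reb2` (`1 - c + η ≥ 0.75`) the graph `G1 = G \ F` is balanced with degrees `≥ (1 - c) N`. Let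
`k = ⌊c N⌋₊`, so `16 k ≤ 3 N` and `N ≤ dg G1 v (V_i) + k` (`N - dg ≤ c N`; if `c < 0` the degree hypothesis is contradictory, since then `dg > N`; there is a vertex).
[X11] gives `T0` and `G2 = G1 \ cov T0`; `FracR` gives `W` for `G2`, `Nib` a packing `T1` of `G2` with `dg (G2 \ cov T1) v (V_i) ≤ γ' N`.
`T = T0 ∪ T1` is a packing of `G1` (`Pack.union_sdiff`), hence of `G`, and `G \ cov T ≤ (G2 \ cov T1) ⊔ F` (`cov_union`). -/
def S_X12 : Prop := ∀ c C0 : ℝ, 0 < C0 → c ≤ 3 / 16 → FracR C0 → Nib → Reb2 → S_X11 → AD c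

end DH
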